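import Pool.Agent.MP_710317_co.Rec.Base1

namespace Pool.Agent.MP_710317_co.Rec

open Finset Pool.Agent.MP_710317_co

variable {V : Type*} [Fintype V] [DecidableEq V]

section aux

/-- merging `b` into `a` -/
def B2_pi (a b : V) (x : V) : V := if x = b then a else x

/-- the sum of `w` over the fibres -/
def B2_F (w : V → V → ℤ) (a b : V) (i j : V) : ℤ :=
  ∑ x ∈ univ.filter (fun x => B2_pi a b x = i), ∑ y ∈ univ.filter (fun y => B2_pi a b y = j), w x y

/-- the merged matrix -/
def B2_w (w : V → V → ℤ) (a b : V) (i j : V) : ℤ := if i = j then 0 else B2_F w a b i j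

theorem B2_sum (w : V → V → ℤ) (a b : V) (e : V → ℤ) :
    ∑ i, ∑ j, B2_F w a b i j * e i * e j =
      ∑ x, ∑ y, w x y * e (B2_pi a b x) * e (B2_pi a b y) := by
  have h1 : ∀ i j, B2_F w a b i j * e i * e j =
      ∑ x ∈ univ.filter (fun x => B2_pi a b x = i), ∑ y ∈ univ.filter (fun y => B2_pi a b y = j),
        w x y * e (B2_pi a b x) * e (B2_pi a b y) := by
    intro i j
    unfold B2_F
    rw [Finset.sum_mul, Finset.sum_mul]
    refine Finset.sum_congr rfl fun x hx => ?_
    rw [Finset.sum_mul, Finset.sum_mul]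
    refine Finset.sum_congr rfl fun y hy => ?_
    rw [(Finset.mem_filter.1 hx).2, (Finset.mem_filter.1 hy).2]
  have h2 : ∀ i, ∑ j, B2_F w a b i j * e i * e j =
      ∑ x ∈ univ.filter (fun x => B2_pi a b x = i), ∑ y,
        w x y * e (B2_pi a b x) * e (B2_pi a b y) := by
    intro i
    rw [Finset.sum_congr rfl fun j _ => h1 i j, Finset.sum_comm]
    refine Finset.sum_congr rfl fun x _ => ?_
    exact Finset.sum_fiberwise univ (B2_pi a b) _
  rw [Finset.sum_congr rfl fun i _ => h2 i]
  exact Finset.sum_fiberwise univ (B2_pi a b) _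

theorem B2_diag {w : V → V → ℤ} (hw : Sym w) {a b : V} (hab : a ≠ b) :
    ∑ i, B2_F w a b i i = 2 * w a b := by
  have h1 : ∀ i, B2_F w a b i i =
      ∑ x ∈ univ.filter (fun x => B2_pi a b x = i),
        ∑ y ∈ univ.filter (fun y => B2_pi a b y = B2_pi a b x), w x y := by
    intro i
    unfold B2_F
    refine Finset.sum_congr rfl fun x hx => ?_
    rw [(Finset.mem_filter.1 hx).2]
  rw [Finset.sum_congr rfl fun i _ => h1 i,
    Finset.sum_fiberwise univ (B2_pi a b) (fun x =>
      ∑ y ∈ univ.filter (fun y => B2_pi a b y = B2_pi a b x), w x y)]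
  have h2 : ∀ x, ∑ y ∈ univ.filter (fun y => B2_pi a b y = B2_pi a b x), w x y =
      (if x = a then w a b else 0) + (if x = b then w a b else 0) := by
    intro x
    by_cases hxb : x = b
    · subst hxb
      have h3 : univ.filter (fun y => B2_pi a x y = B2_pi a x x) = {a, x} := by
        ext y
        simp only [Finset.mem_filter, Finset.mem_univ, true_and, Finset.mem_insert,
          Finset.mem_singleton, B2_pi, if_true]
        by_cases hy : y = x
        · simp [hy]
        · simp [hy]
      rw [h3, Finset.sum_pair hab, hw.diag, hw.symm x a, if_neg hab.symm, if_pos rfl]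
      ring
    · by_cases hxa : x = a
      · subst hxa
        have h3 : univ.filter (fun y => B2_pi x b y = B2_pi x b x) = {x, b} := by
          ext y
          simp only [Finset.mem_filter, Finset.mem_univ, true_and, Finset.mem_insert,
            Finset.mem_singleton, B2_pi, if_neg hxb]
          by_cases hy : y = b
          · simp [hy]
          · simp [hy]
        rw [h3, Finset.sum_pair hab, hw.diag, if_pos rfl, if_neg hxb]
        ring
      · have h3 : univ.filter (fun y => B2_pi a b y = B2_pi a b x) = {x} := by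
          ext y
          simp only [Finset.mem_filter, Finset.mem_univ, true_and,
            Finset.mem_singleton, B2_pi, if_neg hxb]
          by_cases hy : y = b
          · subst hy
            simp only [if_true]
            constructor
            · intro h; exact absurd h.symm hxa
            · intro h; exact absurd h.symm hxb
          · simp [hy]
        rw [h3, Finset.sum_singleton, hw.diag, if_neg hxa, if_neg hxb]
        ring
  rw [Finset.sum_congr rfl fun x _ => h2 x, Finset.sum_add_distrib,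
    Finset.sum_ite_eq' univ a (fun _ => w a b), Finset.sum_ite_eq' univ b (fun _ => w a b)]
  simp only [Finset.mem_univ, if_true]
  ring

theorem B2_off (F : V → V → ℤ) (e : V → ℤ) (he : ∀ i, e i * e i = 1) :
    ∑ i, ∑ j, (if i = j then 0 else F i j) * e i * e j =
      ∑ i, ∑ j, F i j * e i * e j - ∑ i, F i i := by
  rw [← Finset.sum_sub_distrib]
  refine Finset.sum_congr rfl fun i _ => ?_
  have h1 : F i i = ∑ j, (if i = j then F i j * e i * e j else 0) := by
    rw [Finset.sum_ite_eq univ i]
    simp only [Finset.mem_univ, if_true]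
    rw [mul_assoc, he, mul_one]
  rw [h1, ← Finset.sum_sub_distrib]
  refine Finset.sum_congr rfl fun j _ => ?_
  by_cases hij : i = j
  · simp [hij]
  · simp [hij]

theorem B2_sym {w : V → V → ℤ} (hw : Sym w) (a b : V) : Sym (B2_w w a b) := by
  constructor
  · intro i j
    unfold B2_w
    by_cases hij : i = j
    · simp [hij]
    · rw [if_neg hij, if_neg (Ne.symm hij)]
      unfold B2_F
      rw [Finset.sum_comm]
      exact Finset.sum_congr rfl fun y _ => Finset.sum_congr rfl fun x _ => hw.symm x y
  · intro i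
    unfold B2_w
    simp

theorem B2_inn {w : V → V → ℤ} (hw : Sym w) {a b : V} (hab : a ≠ b) :
    inn (B2_w w a b) univ = inn w univ - 2 * w a b := by
  have h1 := B2_off (B2_F w a b) (fun _ => 1) (fun _ => by norm_num)
  have h2 := B2_sum w a b (fun _ => 1)
  simp only [mul_one] at h1 h2
  rw [h2, B2_diag hw hab] at h1
  exact h1

theorem B2_en {w : V → V → ℤ} (hw : Sym w) {a b : V} (hab : a ≠ b) (e : V → ℤ) (he : IsSign e) :
    en (B2_w w a b) e = en w (fun x => e (B2_pi a b x)) + 2 * w a b := by
  have he' : ∀ i, e i * e i = 1 := by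
    intro i
    rcases he i with h | h <;> rw [h] <;> norm_num
  have h1 := B2_off (B2_F w a b) e he'
  rw [B2_sum w a b e, B2_diag hw hab] at h1
  unfold en
  have h2 : ∑ i, ∑ j, B2_w w a b i j * e i * e j =
      ∑ i, ∑ j, (if i = j then 0 else B2_F w a b i j) * e i * e j := rfl
  rw [h2, h1]
  ring

end aux

/-- [RQ-BASE2]  No negative entries at triangular numbers.
Proof.  Suppose `w a b = -h`, `h ≥ 1` (`a ≠ b`).  Merge `b` into `a`: `π b = a`, `π x = x` otherwise,
`w₂ i j = 0` if `i = j`, else `∑_{x : π x = i} ∑_{y : π y = j} w x y` (a matrix on `V`).  `Sym w₂`,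
`inn w₂ univ = inn w univ - 2 w a b = 2 (C(k,2) + h)`, and `en w₂ e = en w (e ∘ π) + 2 w a b`, so
`Sb w₂ (s - h)` with `s = 2 (k²/4) - C(k,2) = k/2`.  `edwards`: `0 ≤ s - h` and
`C(k,2) + h ≤ (s - h)(2 (s - h) + 1) ≤ (s-1)(2s-1)`.  `k = 2j+1`, `s = j`: `j(2j+1) + 1 ≤ (j-1)(2j-1)`
false.  `k = 2j`, `s = j`: `j(2j-1) + 1 ≤ (j-1)(2j-1)` false. -/
theorem base_nonneg {l k : ℕ} (hk : 1 ≤ k) {w : V → V → ℤ}
    (h : Ex l ((k.choose 2 : ℕ) : ℤ) w ((k ^ 2 / 4 : ℕ) : ℤ)) (a b : V) : 0 ≤ w a b := by
  by_contra hneg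
  rw [not_le] at hneg
  have hab : a ≠ b := by
    rintro rfl
    rw [h.sym.diag] at hneg
    exact lt_irrefl _ hneg
  have hSb := Sb_of_le h.sym h.tot h.le
  set W : ℤ := ((k.choose 2 : ℕ) : ℤ) with hW
  set c : ℤ := ((k ^ 2 / 4 : ℕ) : ℤ) with hc
  have hSb2 : Sb (B2_w w a b) (2 * c - W + w a b) := by
    intro e he
    rw [B2_en h.sym hab e he]
    have h1 := hSb (fun x => e (B2_pi a b x)) (fun x => he _)
    linarith
  have hinn : inn (B2_w w a b) univ = 2 * (W - w a b) := by
    rw [B2_inn h.sym hab, h.tot]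
    ring
  obtain ⟨e1, e2⟩ := edwards (B2_sym h.sym a b) hSb2 hinn
  rcases Nat.even_or_odd' k with ⟨j, hj | hj⟩
  · have hWj : W = j * (2 * j - 1) := by
      rw [hW, hj]
      have h1 : (2 * j).choose 2 = j * (2 * j - 1) := by
        rw [Nat.choose_two_right, Nat.mul_assoc, Nat.mul_div_cancel_left _ (by norm_num)]
      rw [h1, Nat.cast_mul, Nat.cast_sub (by omega)]
      push_cast
      ring
    have hcj : c = j ^ 2 := by
      rw [hc, hj]
      have h1 : (2 * j) ^ 2 / 4 = j ^ 2 := by
        rw [mul_pow]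
        exact Nat.mul_div_cancel_left _ (by norm_num)
      rw [h1]
      push_cast
      ring
    have hs : 2 * c - W = j := by rw [hcj, hWj]; ring
    rw [hs] at e1 e2
    have hj1 : (1 : ℤ) ≤ j := by
      have : 1 ≤ j := by omega
      exact_mod_cast this
    have h3 : ((j : ℤ) + w a b) * (2 * (j + w a b) + 1) ≤ (j - 1) * (2 * (j - 1) + 1) := by
      have h4 : (j : ℤ) + w a b ≤ j - 1 := by linarith [Int.le_sub_one_of_lt hneg]
      exact mul_le_mul h4 (by linarith) (by linarith) (by linarith)
    rw [hWj] at e2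
    have h5 : w a b ≤ -1 := by linarith [Int.le_sub_one_of_lt hneg]
    nlinarith
  · have hWj : W = j * (2 * j + 1) := by
      rw [hW, hj]
      have h1 : (2 * j + 1).choose 2 = j * (2 * j + 1) := by
        rw [Nat.choose_two_right, Nat.add_sub_cancel, ← Nat.mul_assoc,
          Nat.mul_comm (2 * j + 1) 2, Nat.mul_assoc, Nat.mul_div_cancel_left _ (by norm_num),
          Nat.mul_comm]
      rw [h1]
      push_cast
      ring
    have hcj : c = j ^ 2 + j := by
      rw [hc, hj]
      have h1 : (2 * j + 1) ^ 2 / 4 = j ^ 2 + j := by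
        have : (2 * j + 1) ^ 2 = 4 * (j ^ 2 + j) + 1 := by ring
        rw [this]
        omega
      rw [h1]
      push_cast
      ring
    have hs : 2 * c - W = j := by rw [hcj, hWj]; ring
    rw [hs] at e1 e2
    have hj0 : (0 : ℤ) ≤ j := Int.natCast_nonneg j
    have h5 : w a b ≤ -1 := by linarith [Int.le_sub_one_of_lt hneg]
    have h3 : ((j : ℤ) + w a b) * (2 * (j + w a b) + 1) ≤ (j - 1) * (2 * (j - 1) + 1) := by
      have h4 : (j : ℤ) + w a b ≤ j - 1 := by linarith
      exact mul_le_mul h4 (by linarith) (by linarith) (by linarith)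
    rw [hWj] at e2
    nlinarith

end Pool.Agent.MP_710317_co.Rec
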