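import Pool.Agent.MP_710317_co.Rec.Base2

namespace Pool.Agent.MP_710317_co.Rec

open Finset Pool.Agent.MP_710317_co

set_option linter.unusedSectionVars false

variable {V : Type*} [Fintype V] [DecidableEq V]

/-- the graph of the entries equal to `1` -/
def Base3_H {w : V → V → ℤ} (hw : Sym w) : SimpleGraph V where
  Adj i j := w i j = 1
  symm := ⟨fun i j h => by rw [hw.symm j i]; exact h⟩
  loopless := ⟨fun i h => by rw [hw.diag i] at h; exact zero_ne_one h⟩

theorem Base3_ad {w : V → V → ℤ} (hw : Sym w) (h01 : ∀ i j, w i j = 0 ∨ w i j = 1) (i j : V) :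
    ad (Base3_H hw) i j = w i j := by
  rcases h01 i j with h | h
  · have h1 : ¬ (Base3_H hw).Adj i j := fun h2 => by
      have h3 : w i j = 1 := h2
      omega
    rw [ad_of_not_adj _ h1, h]
  · have h1 : (Base3_H hw).Adj i j := h
    rw [ad_of_adj _ h1, h]

theorem Base3_ord {w : V → V → ℤ} (hw : Sym w) (h01 : ∀ i j, w i j = 0 ∨ w i j = 1)
    (S : Finset V) : ord (Base3_H hw) S = inn w S := by
  unfold ord inn
  exact Finset.sum_congr rfl fun i _ => Finset.sum_congr rfl fun j _ => Base3_ad hw h01 i j

theorem Base3_le_one {l : ℕ} {w : V → V → ℤ} (hw : Sym w) (hm : Mk l w) (i j : V) :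
    w i j ≤ 1 := by
  obtain ⟨G, K, hGK⟩ := hm
  by_cases hij : i = j
  · subst hij
    rw [hw.diag i]
    norm_num
  · rw [hGK i j hij]
    have h1 : ad G i j ≤ 1 := by
      unfold ad
      split_ifs <;> norm_num
    have h2 : (0 : ℤ) ≤ (((univ.filter fun t => i ∈ K t ∧ j ∈ K t).card : ℕ) : ℤ) :=
      Int.natCast_nonneg _
    linarith

theorem Base3_sq (a b : ℤ) (h : a ^ 2 + b ^ 2 ≤ 8) (h2 : 4 ≤ a + b) : a = 2 ∧ b = 2 := by
  have h3 : (a - 2) ^ 2 + (b - 2) ^ 2 ≤ 0 := by nlinarith
  have h4 : (a - 2) ^ 2 = 0 := by nlinarith [sq_nonneg (a - 2), sq_nonneg (b - 2)]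
  have h5 : (b - 2) ^ 2 = 0 := by nlinarith [sq_nonneg (a - 2), sq_nonneg (b - 2)]
  have h6 := pow_eq_zero_iff (two_ne_zero) |>.1 h4
  have h7 := pow_eq_zero_iff (two_ne_zero) |>.1 h5
  constructor <;> linarith

/-- [RQ-BASE3]  A maximum cut with the difference of the complete graph.
Proof.  By `base_nonneg` and `Mk` (`w i j ≤ ad G i j ≤ 1`) the entries are `0` or `1`; let
`H.Adj i j ↔ w i j = 1`: `ad H = w`, `inn w S = ord H S`.  `k = 1`: `w = 0` (sum of non-negative entries
is `0`), `S = ∅`.
If `Col H (k-1)` fails, `complete_of_not_col` (`k ≥ 2`): `H` is complete on a set `C` of `k` vertices;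
take `S ⊆ C` with `k/2` vertices: the cut is `(k/2)(k - k/2) = k²/4` and the difference of the insides
is `0` or `± (k-1)` (twice the value).
If `Col H (k-1)` holds and `k` is odd, `cut_odd` gives a cut which is too large; `k` even `≥ 6`: `cut_even`
the same; `k = 2`: `Col H 1` means no edges but there is one edge.  `k = 4`: `upper` gives
`qval H ≤ val 4 = 2`; take `U` attaining `qval` (`exists_qval`): `e₁² + e₂² ≤ 2` and `e₁ + e₂ ≥ 6 - 4 = 2`
(`tot_split`, all cuts are `≤ 4`) give `e₁ = e₂ = 1`; so the cut of `U` is `4` and the difference `0`. -/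
theorem base_cut {l k : ℕ} (hk : 1 ≤ k) {w : V → V → ℤ}
    (h : Ex l ((k.choose 2 : ℕ) : ℤ) w ((k ^ 2 / 4 : ℕ) : ℤ)) :
    ∃ S, crs w S Sᶜ = ((k ^ 2 / 4 : ℕ) : ℤ) ∧
      |inn w S - inn w Sᶜ| = if Even k then 0 else (k : ℤ) - 1 := by
  have hw := h.sym
  have h01 : ∀ i j, w i j = 0 ∨ w i j = 1 := by
    intro i j
    have h1 := base_nonneg hk h i j
    have h2 := Base3_le_one hw h.marked i j
    omega
  set H := Base3_H hw with hH
  have hord : ∀ S, ord H S = inn w S := fun S => Base3_ord hw h01 S
  have htot : inn w univ = (k : ℤ) * (k - 1) := by rw [h.tot, two_choose]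
  have htotH : ord H univ = (k : ℤ) * (k - 1) := by rw [hord, htot]
  have hsp := fun S => tot_split hw S
  rcases Nat.lt_or_ge k 2 with hk2 | hk2
  · -- `k = 1`
    obtain rfl : k = 1 := by omega
    refine ⟨∅, ?_, ?_⟩
    · unfold crs
      simp
    · have h1 : inn w (∅ : Finset V)ᶜ = 0 := by
        rw [Finset.compl_empty, htot]
        norm_num
      have h2 : inn w (∅ : Finset V) = 0 := by
        unfold inn
        simp
      rw [h1, h2]
      simp
  by_cases hcol : Col H (k - 1)
  · rcases Nat.even_or_odd' k with ⟨j, hj | hj⟩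
    · -- `k = 2 j`
      rcases Nat.lt_or_ge j 2 with hj1 | hj2
      · -- `k = 2`
        exfalso
        obtain rfl : k = 2 := by omega
        obtain ⟨c, hc⟩ := hcol
        have h1 : ord H univ = 0 := by
          unfold ord
          refine Finset.sum_eq_zero fun u _ => Finset.sum_eq_zero fun v _ => ?_
          refine ad_of_not_adj _ fun huv => hc u v huv ?_
          exact Subsingleton.elim (α := Fin 1) _ _
        rw [htotH] at h1
        norm_num at h1
      · rcases Nat.lt_or_ge j 3 with hj3 | hj3
        · -- `k = 4`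
          obtain rfl : k = 4 := by omega
          have h1 := (upper H 4 (by norm_num) htotH).1
          have h2 : val 4 = 2 := by decide
          rw [h2] at h1
          obtain ⟨U, hU⟩ := exists_qval H
          rw [hord, hord] at hU
          have h3 : (qval H : ℤ) ≤ 2 := by exact_mod_cast h1
          have h4 := h.le U
          have h5 := hsp U
          rw [htot] at h5
          have h6 : ((4 ^ 2 / 4 : ℕ) : ℤ) = 4 := by norm_num
          rw [h6] at h4
          push_cast at h5
          obtain ⟨h7, h8⟩ := Base3_sq (inn w U) (inn w Uᶜ) (by linarith) (by linarith)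
          refine ⟨U, ?_, ?_⟩
          · rw [h6]
            rw [h7, h8] at h5
            linarith
          · rw [h7, h8]
            norm_num
        · -- `k ≥ 6`
          exfalso
          obtain ⟨i, rfl⟩ : ∃ i, j = i + 1 := ⟨j - 1, by omega⟩
          have e1 : k - 1 = 2 * i + 1 := by omega
          rw [e1] at hcol
          have e2 : ord H univ = (2 * i + 1 : ℕ) * (2 * i + 2) := by
            rw [htotH, hj]
            push_cast
            ring
          obtain ⟨U, hU⟩ := cut_even H i (by omega) e2 hcol
          rw [hord, hord, htotH] at hU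
          have h4 := h.le U
          have h5 := hsp U
          rw [htot] at h5
          have h6 : ((k ^ 2 / 4 : ℕ) : ℤ) = ((i : ℤ) + 1) ^ 2 := by
            have e3 : k ^ 2 / 4 = (i + 1) ^ 2 := by
              rw [hj, mul_pow, show (2 : ℕ) ^ 2 = 4 from rfl,
                Nat.mul_div_cancel_left _ (by norm_num)]
            rw [e3]
            push_cast
            ring
          rw [h6] at h4
          rw [hj] at h5 hU
          push_cast at h5 hU
          nlinarith
    · -- `k = 2 j + 1`
      exfalso
      have e1 : k - 1 = 2 * j := by omega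
      rw [e1] at hcol
      have e2 : ord H univ = (2 * j + 1 : ℕ) * (2 * j) := by
        rw [htotH, hj]
        push_cast
        ring
      obtain ⟨U, hU⟩ := cut_odd H j (by omega) e2 hcol
      rw [hord, hord, htotH] at hU
      have h4 := h.le U
      have h5 := hsp U
      rw [htot] at h5
      have h6 : ((k ^ 2 / 4 : ℕ) : ℤ) = (j : ℤ) ^ 2 + j := by
        have e3 : k ^ 2 / 4 = j ^ 2 + j := by
          rw [hj]
          have : (2 * j + 1) ^ 2 = 1 + 4 * (j ^ 2 + j) := by ring
          rw [this, Nat.add_mul_div_left _ _ (by norm_num)]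
          norm_num
        rw [e3]
        push_cast
        ring
      rw [h6] at h4
      rw [hj] at h5 hU
      push_cast at h5 hU
      nlinarith
  · obtain ⟨C, hC, hadj⟩ := complete_of_not_col H k hk2 htotH hcol
    obtain ⟨S, hSC, hS⟩ := Finset.exists_subset_card_eq (s := C) (n := k / 2)
      (by rw [hC]; omega)
    have h1 : inn w S = ((k / 2 : ℕ) : ℤ) ^ 2 - (k / 2 : ℕ) := by
      rw [← hord, ord_complete H C hadj S, Finset.inter_eq_left.2 hSC, hS]
    have h2 : inn w Sᶜ = ((k - k / 2 : ℕ) : ℤ) ^ 2 - (k - k / 2 : ℕ) := by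
      have e1 : (Sᶜ ∩ C).card = k - k / 2 := by
        rw [Finset.inter_comm Sᶜ, ← Finset.sdiff_eq_inter_compl,
          Finset.card_sdiff_of_subset hSC, hC, hS]
      rw [← hord, ord_complete H C hadj Sᶜ, e1]
    have h5 := hsp S
    rw [htot, h1, h2] at h5
    refine ⟨S, ?_, ?_⟩
    · rcases Nat.even_or_odd' k with ⟨j, hj | hj⟩
      · have e1 : k / 2 = j := by omega
        have e2 : k - j = j := by omega
        have e3 : k ^ 2 / 4 = j ^ 2 := by
          rw [hj, mul_pow, show (2 : ℕ) ^ 2 = 4 from rfl,
            Nat.mul_div_cancel_left _ (by norm_num)]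
        rw [e1, e2, hj] at h5
        rw [e3]
        push_cast at h5 ⊢
        linarith
      · have e1 : k / 2 = j := by omega
        have e2 : k - j = j + 1 := by omega
        have e3 : k ^ 2 / 4 = j ^ 2 + j := by
          rw [hj]
          have : (2 * j + 1) ^ 2 = 1 + 4 * (j ^ 2 + j) := by ring
          rw [this, Nat.add_mul_div_left _ _ (by norm_num)]
          norm_num
        rw [e1, e2, hj] at h5
        rw [e3]
        push_cast at h5 ⊢
        linarith
    · rw [h1, h2]
      rcases Nat.even_or_odd' k with ⟨j, hj | hj⟩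
      · have e1 : k / 2 = j := by omega
        have e2 : k - j = j := by omega
        have e3 : Even k := ⟨j, by omega⟩
        rw [e1, e2, if_pos e3, sub_self, abs_zero]
      · have e1 : k / 2 = j := by omega
        have e2 : k - j = j + 1 := by omega
        have e3 : ¬ Even k := by
          rw [Nat.not_even_iff_odd]
          exact ⟨j, hj⟩
        rw [e1, e2, if_neg e3, hj]
        have e4 : ((j : ℤ) ^ 2 - (j : ℕ)) - (((j + 1 : ℕ) : ℤ) ^ 2 - (j + 1 : ℕ)) =
            -(2 * (j : ℤ)) := by
          push_cast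
          ring
        rw [e4, abs_neg, abs_of_nonneg (by positivity)]
        push_cast
        ring

end Pool.Agent.MP_710317_co.Rec
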