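import Pool.Agent.MP_710317_co.Rec.Base3

namespace Pool.Agent.MP_710317_co.Rec

open Finset Pool.Agent.MP_710317_co

variable {V : Type*} [Fintype V] [DecidableEq V]

/-- [RQ-BASE4]  Values at triangular numbers.  Proof: `fl`: `base_lower`, and `consB` with `N = k`, `y = 0`.
`Dl ≤`: `of_mem_lowVals`, `base_cut`.  `Dl ≥`, `Bl ≤`: `consB` with `y = 0` and `mem_lowVals`,
`mem_highVals`.  `Bl ≥`: `of_mem_highVals`, `base_cut`. -/
theorem base_vals (l k : ℕ) (hk : 1 ≤ k) :
    fl l (k.choose 2) = k ^ 2 / 4 ∧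
    (Even k → Dl l (k.choose 2) = 0 ∧ Bl l (k.choose 2) = 0) ∧
    (Odd k → Dl l (k.choose 2) = (k - 1) / 2 ∧ Bl l (k.choose 2) = (k - 1) / 2) := by
  obtain ⟨w, hw, hcut⟩ := consB l k 0 (by omega)
  simp only [Nat.cast_zero, sub_zero] at hw
  have hfl : fl l (k.choose 2) = k ^ 2 / 4 := by
    apply le_antisymm (fl_le hw)
    obtain ⟨N, w', hw'⟩ := fl_spec l (k.choose 2)
    exact base_lower hk hw'
  have hDl : ∀ d, d ∈ lowVals l (k.choose 2) → 2 * (d : ℤ) ≤ if Even k then 0 else (k : ℤ) - 1 := by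
    intro d hd
    obtain ⟨N, w', hw', hd'⟩ := of_mem_lowVals hd
    rw [hfl] at hw' hd'
    obtain ⟨S, hS, hS'⟩ := base_cut hk hw'
    rw [← hS']
    exact hd' S hS
  have hBl : ∀ d, d ∈ highVals l (k.choose 2) →
      (if Even k then 0 else (k : ℤ) - 1) ≤ 2 * (d : ℤ) := by
    intro d hd
    obtain ⟨N, w', hw', hd'⟩ := of_mem_highVals hd
    rw [hfl] at hw' hd'
    obtain ⟨S, hS, hS'⟩ := base_cut hk hw'
    rw [← hS']
    exact hd' S hS
  have h1 := hDl _ (Dl_mem l (k.choose 2))
  have h2 := hBl _ (Bl_mem l (k.choose 2))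
  refine ⟨hfl, fun he => ?_, fun ho => ?_⟩
  · rw [if_pos he] at h1
    refine ⟨by omega, ?_⟩
    have h3 : 0 ∈ highVals l (k.choose 2) := by
      apply mem_highVals (w := w)
      · rw [hfl]; exact hw
      · intro S hS
        rw [hfl] at hS
        have := (hcut S hS).1 he
        simp only [Nat.cast_zero, mul_zero] at this ⊢
        exact this.le
    have := Bl_le h3
    omega
  · have hne : ¬ Even k := Nat.not_even_iff_odd.2 ho
    rw [if_neg hne] at h1 h2
    obtain ⟨m, rfl⟩ := ho
    have habs : ∀ S, crs w S Sᶜ = (((2 * m + 1) ^ 2 / 4 : ℕ) : ℤ) →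
        |inn w S - inn w Sᶜ| = 2 * (m : ℤ) := by
      intro S hS
      rcases (hcut S hS).2 ⟨m, rfl⟩ with h | h
      · rw [h]
        push_cast
        rw [show (2 * (m : ℤ) + 1 - 1 - 0) = 2 * (m : ℤ) by ring]
        exact abs_of_nonneg (by positivity)
      · rw [h]
        push_cast
        ring
    have h3 : m ∈ lowVals l ((2 * m + 1).choose 2) := by
      apply mem_lowVals (w := w)
      · rw [hfl]; exact hw
      · intro S hS
        rw [hfl] at hS
        exact (habs S hS).ge
    have h4 : m ∈ highVals l ((2 * m + 1).choose 2) := by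
      apply mem_highVals (w := w)
      · rw [hfl]; exact hw
      · intro S hS
        rw [hfl] at hS
        exact (habs S hS).le
    have h5 := le_Dl h3
    have h6 := Bl_le h4
    push_cast at h1 h2
    constructor <;> omega

end Pool.Agent.MP_710317_co.Rec
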