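import Pool.Agent.MP_710317_co.Rec.Cons1

namespace Pool.Agent.MP_710317_co.Rec

open Finset Pool.Agent.MP_710317_co

/-- numbers: `4 (n² / 4) = n²` or `n² - 1` -/
theorem ConsA2_sq (n : ℕ) : (Even n → 4 * ((n ^ 2 / 4 : ℕ) : ℤ) = (n : ℤ) ^ 2) ∧
    (Odd n → 4 * ((n ^ 2 / 4 : ℕ) : ℤ) = (n : ℤ) ^ 2 - 1) := by
  constructor
  · rintro ⟨m, rfl⟩
    have : (m + m) ^ 2 / 4 = m ^ 2 := by
      have : (m + m) ^ 2 = 4 * m ^ 2 := by ring
      rw [this]
      exact Nat.mul_div_cancel_left _ (by norm_num)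
    rw [this]
    push_cast
    ring
  · rintro ⟨m, rfl⟩
    have : (2 * m + 1) ^ 2 / 4 = m ^ 2 + m := by
      have : (2 * m + 1) ^ 2 = 4 * (m ^ 2 + m) + 1 := by ring
      rw [this]
      omega
    rw [this]
    push_cast
    ring

theorem ConsA2_le (n : ℕ) (k k' : ℤ) (h : k + k' = n) : k * k' ≤ ((n ^ 2 / 4 : ℕ) : ℤ) := by
  obtain ⟨h1, h2⟩ := ConsA2_sq n
  rcases Nat.even_or_odd n with hn | hn
  · have := h1 hn
    have h3 : 4 * (k * k') ≤ (n : ℤ) ^ 2 := by
      rw [← h]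
      nlinarith [sq_nonneg (k - k')]
    omega
  · have := h2 hn
    have h3 : 4 * (k * k') ≤ (n : ℤ) ^ 2 - 1 := by
      rw [← h]
      have h4 : k - k' ≠ 0 := by
        intro h5
        obtain ⟨m, rfl⟩ := hn
        push_cast at h
        omega
      have h5 : 1 ≤ (k - k') ^ 2 := by
        have : 0 < (k - k') ^ 2 := by positivity
        omega
      nlinarith
    omega

theorem ConsA2_eq (n : ℕ) (k k' : ℤ) (h : k + k' = n) (he : k * k' = ((n ^ 2 / 4 : ℕ) : ℤ)) :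
    (Even n → k = k') ∧ (Odd n → k = k' + 1 ∨ k' = k + 1) := by
  obtain ⟨h1, h2⟩ := ConsA2_sq n
  constructor
  · intro hn
    have h3 := h1 hn
    rw [← he, ← h] at h3
    have h4 : (k - k') ^ 2 = 0 := by nlinarith
    have h5 : k - k' = 0 := by
      exact pow_eq_zero_iff (two_ne_zero) |>.1 h4
    omega
  · intro hn
    have h3 := h2 hn
    rw [← he, ← h] at h3
    have h4 : (k - k') ^ 2 = 1 := by nlinarith
    have h6 : (k - k' - 1) * (k - k' + 1) = 0 := by nlinarith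
    rcases mul_eq_zero.1 h6 with h5 | h5
    · left; omega
    · right; omega

/-- [RQ-CONSA2]  The numbers of the construction `consA`.
Proof.  For `S'` let `k = |K' ∩ S'|`: `crs w' S' S'ᶜ = crs R S Sᶜ + k (n - k) ≤ c + n²/4`.  Equality forces
`crs R S Sᶜ = c` and `k (n - k) = n²/4`, i.e. `k ∈ {n/2, (n+1)/2}`, and then
`inn w' S' - inn w' S'ᶜ = inn R S - inn R Sᶜ + (k(k-1) - (n-k)(n-k-1))` where the bracket is `0` for `n`
even and `± (n-1)` for `n` odd. -/
theorem consA2 {V : Type*} [Fintype V] [DecidableEq V] {l n : ℕ} {r c : ℤ} {R : V → V → ℤ}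
    (h : Ex (l + 1) r R c) (hn : 3 * (2 * c - r) ≤ n) :
    ∃ w' : V ⊕ Fin n → V ⊕ Fin n → ℤ,
      Ex l (((n.choose 2 : ℕ) : ℤ) + r) w' (((n ^ 2 / 4 : ℕ) : ℤ) + c) ∧
      ∀ S' : Finset (V ⊕ Fin n), crs w' S' S'ᶜ = ((n ^ 2 / 4 : ℕ) : ℤ) + c →
        ∃ S : Finset V, crs R S Sᶜ = c ∧
          (Even n → inn w' S' - inn w' S'ᶜ = inn R S - inn R Sᶜ) ∧
          (Odd n → inn w' S' - inn w' S'ᶜ = inn R S - inn R Sᶜ + ((n : ℤ) - 1) ∨
            inn w' S' - inn w' S'ᶜ = inn R S - inn R Sᶜ - ((n : ℤ) - 1)) := by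
  obtain ⟨w', R', K', hK, hw, hsym, hMk, hsymR, htot, hS⟩ := consA h hn
  have hw' : w' = fun i j => R' i j + Jm K' i j := by
    funext i j
    exact hw i j
  have hcrs : ∀ S T : Finset (V ⊕ Fin n), crs w' S T = crs R' S T + crs (Jm K') S T := by
    intro S T
    rw [hw']
    unfold crs
    simp only [Finset.sum_add_distrib]
  have hinn : ∀ S : Finset (V ⊕ Fin n), inn w' S = inn R' S + inn (Jm K') S := by
    intro S
    rw [inn_eq_crs, inn_eq_crs, inn_eq_crs, hcrs]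
  have hk : ∀ S' : Finset (V ⊕ Fin n), ((K' ∩ S').card : ℤ) + ((K' \ S').card : ℤ) = n := by
    intro S'
    have h1 := Finset.card_inter_add_card_sdiff K' S'
    rw [hK] at h1
    exact_mod_cast h1
  refine ⟨w', ⟨hsym, hMk, htot, ?_⟩, ?_⟩
  · intro S'
    obtain ⟨S, h1, -, -⟩ := hS S'
    rw [hcrs, h1, crs_Jm]
    have h2 := h.le S
    have h3 := ConsA2_le n _ _ (hk S')
    linarith
  · intro S' hS'
    obtain ⟨S, h1, h2, h3⟩ := hS S'
    rw [hcrs, h1, crs_Jm] at hS'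
    have h4 := h.le S
    have h5 := ConsA2_le n _ _ (hk S')
    obtain ⟨h6, h7⟩ := ConsA2_eq n _ _ (hk S') (by linarith)
    have h8 : K' ∩ S'ᶜ = K' \ S' := by
      ext x
      simp
    have h9 : inn w' S' - inn w' S'ᶜ = inn R S - inn R Sᶜ +
        (((K' ∩ S').card : ℤ) - ((K' \ S').card : ℤ)) * ((n : ℤ) - 1) := by
      have h10 : ((K' \ S').card : ℤ) = n - ((K' ∩ S').card : ℤ) := by
        have := hk S'
        linarith
      rw [hinn, hinn, h2, h3, inn_Jm, inn_Jm, h8, h10]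
      ring
    refine ⟨S, by linarith, ?_, ?_⟩
    · intro he
      rw [h9, h6 he]
      ring
    · intro ho
      rcases h7 ho with h10 | h10
      · left
        rw [h9, h10]
        ring
      · right
        rw [h9, h10]
        ring

end Pool.Agent.MP_710317_co.Rec
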