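import Pool.Agent.MP_710317_co.Rec.Cons2

namespace Pool.Agent.MP_710317_co.Rec

open Finset Pool.Agent.MP_710317_co

/-- the centre of the star -/
def Cons3_z {N : ℕ} (i : Fin N) : ℤ := if i.val = 0 then 1 else 0

/-- the leaves of the star -/
def Cons3_q {N : ℕ} (y : ℕ) (i : Fin N) : ℤ := if i.val ≠ 0 ∧ i.val ≤ y then 1 else 0

/-- the adjacency matrix of the star -/
def Cons3_E {N : ℕ} (y : ℕ) (i j : Fin N) : ℤ :=
  Cons3_z i * Cons3_q y j + Cons3_q y i * Cons3_z j

theorem Cons3_sumz {N : ℕ} (hN : 0 < N) : ∑ i : Fin N, Cons3_z i = 1 := by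
  unfold Cons3_z
  rw [Finset.sum_eq_single (⟨0, hN⟩ : Fin N)]
  · simp
  · intro b _ hb
    rw [if_neg]
    intro h
    exact hb (Fin.ext h)
  · intro h
    exact absurd (Finset.mem_univ _) h

theorem Cons3_sumq {N y : ℕ} (hy : y < N) : ∑ i : Fin N, Cons3_q y i = y := by
  unfold Cons3_q
  rw [Finset.sum_boole]
  norm_cast
  have h1 : (Finset.univ.filter fun i : Fin N => i.val ≠ 0 ∧ i.val ≤ y).card =
      (Finset.Ioc 0 y).card := by
    refine Finset.card_bij (fun i _ => i.val) ?_ ?_ ?_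
    · intro i hi
      rw [Finset.mem_filter] at hi
      rw [Finset.mem_Ioc]
      omega
    · intro i _ j _ h
      exact Fin.ext h
    · intro m hm
      rw [Finset.mem_Ioc] at hm
      exact ⟨⟨m, by omega⟩, by rw [Finset.mem_filter]; exact ⟨Finset.mem_univ _, by simp; omega⟩, rfl⟩
  rw [h1, Nat.card_Ioc, Nat.sub_zero]

theorem Cons3_crs {N : ℕ} (y : ℕ) (S T : Finset (Fin N)) :
    crs (Cons3_E y) S T = (∑ i ∈ S, Cons3_z i) * (∑ j ∈ T, Cons3_q y j) +
      (∑ i ∈ S, Cons3_q y i) * (∑ j ∈ T, Cons3_z j) := by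
  unfold crs Cons3_E
  rw [Finset.sum_mul_sum, Finset.sum_mul_sum, ← Finset.sum_add_distrib]
  exact Finset.sum_congr rfl fun i _ => Finset.sum_add_distrib

theorem Cons3_sym {N : ℕ} (y : ℕ) : Sym (Cons3_E (N := N) y) := by
  constructor
  · intro i j
    unfold Cons3_E
    ring
  · intro i
    unfold Cons3_E Cons3_z Cons3_q
    by_cases h : i.val = 0 <;> simp [h]

theorem Cons3_E01 {N : ℕ} (y : ℕ) (i j : Fin N) : Cons3_E y i j = 0 ∨ Cons3_E y i j = 1 := by
  unfold Cons3_E Cons3_z Cons3_q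
  by_cases h : i.val = 0 <;> by_cases h' : j.val = 0
  · simp [h, h']
  · by_cases h2 : j.val ≤ y <;> simp [h, h', h2]
  · by_cases h2 : i.val ≤ y <;> simp [h, h', h2]
  · simp [h, h']

theorem Cons3_nonneg {N : ℕ} (y : ℕ) (S : Finset (Fin N)) :
    0 ≤ ∑ i ∈ S, Cons3_z i ∧ 0 ≤ ∑ i ∈ S, Cons3_q y i := by
  constructor
  · refine Finset.sum_nonneg fun i _ => ?_
    unfold Cons3_z
    split_ifs <;> norm_num
  · refine Finset.sum_nonneg fun i _ => ?_
    unfold Cons3_q
    split_ifs <;> norm_num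

/-- arithmetic of the balanced cuts -/
theorem Cons3_arith (N : ℕ) (k k' : ℤ) (hk : k + k' = N) :
    k * k' ≤ ((N ^ 2 / 4 : ℕ) : ℤ) ∧
      (k * k' = ((N ^ 2 / 4 : ℕ) : ℤ) → (Even N → k = k') ∧
        (Odd N → k - k' = 1 ∨ k - k' = -1)) := by
  rcases Nat.even_or_odd N with h | h
  · obtain ⟨m, rfl⟩ := h
    have h1 : (m + m) ^ 2 / 4 = m ^ 2 := by
      rw [show (m + m) ^ 2 = m ^ 2 * 4 by ring]
      exact Nat.mul_div_cancel _ (by norm_num)
    rw [h1]
    push_cast at hk ⊢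
    have h2 : k * k' = (m : ℤ) ^ 2 - (k - m) ^ 2 := by
      have : k' = m + m - k := by linarith
      rw [this]
      ring
    constructor
    · rw [h2]
      nlinarith [sq_nonneg (k - m)]
    · intro h3
      constructor
      · intro _
        have h4 : (k - m) ^ 2 = 0 := by linarith
        have h5 := pow_eq_zero_iff two_ne_zero |>.1 h4
        linarith
      · intro h4
        exact absurd h4 (by rw [Nat.not_odd_iff_even]; exact ⟨m, rfl⟩)
  · obtain ⟨m, rfl⟩ := h
    have h1 : (2 * m + 1) ^ 2 / 4 = m ^ 2 + m := by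
      rw [show (2 * m + 1) ^ 2 = 1 + (m ^ 2 + m) * 4 by ring]
      rw [Nat.add_mul_div_right _ _ (by norm_num)]
      norm_num
    rw [h1]
    push_cast at hk ⊢
    have h2 : k * k' = (m : ℤ) ^ 2 + m - (k - m) * (k - m - 1) := by
      have : k' = 2 * m + 1 - k := by linarith
      rw [this]
      ring
    have h3 : 0 ≤ (k - m) * (k - m - 1) := by
      rcases le_or_gt (k - m) 0 with h | h
      · nlinarith
      · have : 0 ≤ k - m - 1 := by omega
        positivity
    constructor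
    · rw [h2]
      linarith
    · intro h4
      constructor
      · intro h5
        exact absurd h5 (by rw [Nat.not_even_iff_odd]; exact ⟨m, rfl⟩)
      · intro _
        have h5 : (k - m) * (k - m - 1) = 0 := by linarith
        rcases mul_eq_zero.1 h5 with h6 | h6
        · right; linarith
        · left; linarith

/-- [RQ-CONSB]  The complete graph on `N` vertices minus a star with `y < N` edges.
Proof.  `V = Fin N`, vertex `0` is not joined to `1, …, y`; all marks empty.  `w = Jm univ - E`,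
`E` the adjacency matrix of the star.  A cut with `|S| = k` has `crs w = k (N - k) - crs E S Sᶜ ≤ N²/4`;
equality forces `k ∈ {N/2, (N+1)/2}` and `crs E S Sᶜ = 0`, i.e. all of `0, …, y` on one side, so
`inn E S - inn E Sᶜ = ± 2 y` and `inn w S - inn w Sᶜ = (k(k-1) - (N-k)(N-k-1)) ∓ 2 y`. -/
theorem consB (l N y : ℕ) (hy : y < N) :
    ∃ w : Fin N → Fin N → ℤ, Ex l (((N.choose 2 : ℕ) : ℤ) - y) w ((N ^ 2 / 4 : ℕ) : ℤ) ∧
      ∀ S : Finset (Fin N), crs w S Sᶜ = ((N ^ 2 / 4 : ℕ) : ℤ) →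
        (Even N → |inn w S - inn w Sᶜ| = 2 * (y : ℤ)) ∧
        (Odd N → |inn w S - inn w Sᶜ| = |((N : ℤ) - 1) - 2 * y| ∨
          |inn w S - inn w Sᶜ| = ((N : ℤ) - 1) + 2 * y) := by
  classical
  have hN : 0 < N := by omega
  have hcard : ∀ S : Finset (Fin N), (S.card : ℤ) + (Sᶜ.card : ℤ) = N := by
    intro S
    have := Finset.card_add_card_compl S
    rw [Fintype.card_fin] at this
    exact_mod_cast this
  have hz : ∀ S : Finset (Fin N), ∑ i ∈ S, Cons3_z i + ∑ i ∈ Sᶜ, Cons3_z i = 1 := fun S => by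
    rw [Finset.sum_add_sum_compl, Cons3_sumz hN]
  have hq : ∀ S : Finset (Fin N), ∑ i ∈ S, Cons3_q y i + ∑ i ∈ Sᶜ, Cons3_q y i = y := fun S => by
    rw [Finset.sum_add_sum_compl, Cons3_sumq hy]
  have hcrsJ : ∀ S : Finset (Fin N), crs (Jm univ) S Sᶜ = (S.card : ℤ) * (Sᶜ.card : ℤ) := by
    intro S
    rw [crs_Jm, Finset.univ_inter, ← Finset.compl_eq_univ_sdiff]
  have hinnJ : ∀ S : Finset (Fin N), inn (Jm univ) S = (S.card : ℤ) * (S.card - 1) := by
    intro S
    rw [inn_Jm, Finset.univ_inter]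
  have hinnE : ∀ S : Finset (Fin N), inn (Cons3_E y) S =
      2 * ((∑ i ∈ S, Cons3_z i) * (∑ j ∈ S, Cons3_q y j)) := by
    intro S
    rw [inn_eq_crs, Cons3_crs]
    ring
  refine ⟨fun i j => Jm univ i j - Cons3_E y i j, ⟨sym_sub (Jm_sym _) (Cons3_sym y), ?_, ?_, ?_⟩, ?_⟩
  · refine ⟨⟨fun i j => i ≠ j ∧ Cons3_E y i j = 0, ?_, ?_⟩, fun _ => ∅, ?_⟩
    · refine ⟨fun i j h => ⟨h.1.symm, ?_⟩⟩
      rw [← (Cons3_sym y).symm i j]
      exact h.2
    · exact ⟨fun i h => h.1 rfl⟩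
    · intro i j hij
      have h1 : (Jm (univ : Finset (Fin N)) i j) = 1 := by
        unfold Jm
        rw [if_pos ⟨hij, Finset.mem_univ _, Finset.mem_univ _⟩]
      beta_reduce
      rw [h1]
      unfold ad
      rcases Cons3_E01 y i j with h2 | h2
      · rw [if_pos ⟨hij, h2⟩, h2]
        simp
      · rw [if_neg (fun h => one_ne_zero (h2.symm.trans h.2)), h2]
        simp
  · rw [inn_sub, hinnJ, hinnE, Cons3_sumz hN, Cons3_sumq hy, Finset.card_univ, Fintype.card_fin]
    have h1 : 2 * ((N.choose 2 : ℕ) : ℤ) = (N : ℤ) * (N - 1) := by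
      have h2 : N.choose 2 * 2 = N * (N - 1) := by
        rw [Nat.choose_two_right]
        exact Nat.div_mul_cancel (Nat.even_mul_pred_self N).two_dvd
      have h3 := congrArg (fun x : ℕ => (x : ℤ)) h2
      push_cast [Nat.cast_sub (show 1 ≤ N by omega)] at h3
      linarith
    linarith
  · intro S
    rw [crs_sub, hcrsJ, Cons3_crs]
    have h1 := (Cons3_arith N _ _ (hcard S)).1
    obtain ⟨h2, h3⟩ := Cons3_nonneg y S
    obtain ⟨h4, h5⟩ := Cons3_nonneg y Sᶜ
    have h6 := mul_nonneg h2 h5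
    have h7 := mul_nonneg h3 h4
    linarith
  · intro S hS
    rw [crs_sub, hcrsJ, Cons3_crs] at hS
    have h1 := Cons3_arith N _ _ (hcard S)
    obtain ⟨h2, h3⟩ := Cons3_nonneg y S
    obtain ⟨h4, h5⟩ := Cons3_nonneg y Sᶜ
    have h6 := mul_nonneg h2 h5
    have h7 := mul_nonneg h3 h4
    have h8 : (S.card : ℤ) * (Sᶜ.card : ℤ) = ((N ^ 2 / 4 : ℕ) : ℤ) := by linarith [h1.1]
    have h9 : (∑ i ∈ S, Cons3_z i) * (∑ i ∈ Sᶜ, Cons3_q y i) = 0 := by linarith [h1.1]
    have h10 : (∑ i ∈ S, Cons3_q y i) * (∑ i ∈ Sᶜ, Cons3_z i) = 0 := by linarith [h1.1]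
    have hzS := hz S
    have hqS := hq S
    rw [inn_sub, inn_sub, hinnJ, hinnJ, hinnE, hinnE]
    have hcS := hcard S
    set Z := ∑ i ∈ S, Cons3_z i with hZ
    set Z' := ∑ i ∈ Sᶜ, Cons3_z i with hZ'
    set Q := ∑ i ∈ S, Cons3_q y i with hQ
    set Q' := ∑ i ∈ Sᶜ, Cons3_q y i with hQ'
    set k : ℤ := (S.card : ℤ) with hk
    set k' : ℤ := (Sᶜ.card : ℤ) with hk'
    have hval : k * (k - 1) - 2 * (Z * Q) - (k' * (k' - 1) - 2 * (Z' * Q')) =
        (k - k') * (N - 1) - 2 * (Z * Q - Z' * Q') := by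
      rw [← hcS]
      ring
    rw [hval]
    have hZZ : Z * Q - Z' * Q' = y ∨ Z * Q - Z' * Q' = -y := by
      have h11 : (Z = 1 ∧ Z' = 0) ∨ (Z = 0 ∧ Z' = 1) := by omega
      rcases h11 with ⟨e1, e2⟩ | ⟨e1, e2⟩
      · left
        rw [e1, one_mul] at h9
        rw [e1, e2, h9]
        rw [h9] at hqS
        linarith
      · right
        rw [e2, mul_one] at h10
        rw [e1, e2, h10]
        rw [h10] at hqS
        linarith
    constructor
    · intro hE
      rw [(h1.2 h8).1 hE, sub_self, zero_mul, zero_sub, abs_neg, abs_mul]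
      rcases hZZ with h | h
      · rw [h]; simp
      · rw [h]; simp
    · intro hO
      have hN1 : (0 : ℤ) ≤ (N : ℤ) - 1 := by omega
      have hpos : |((N : ℤ) - 1) + 2 * y| = ((N : ℤ) - 1) + 2 * y := abs_of_nonneg (by omega)
      rcases (h1.2 h8).2 hO with h | h <;> rcases hZZ with h' | h' <;> rw [h, h']
      · left
        congr 1
        ring
      · right
        rw [← hpos]
        congr 1
        ring
      · right
        rw [← hpos, ← abs_neg]
        congr 1
        ring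
      · left
        rw [← abs_neg]
        congr 1
        ring

end Pool.Agent.MP_710317_co.Rec
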