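import Pool.Agent.MP_710317_co.Rec.Vals
import Pool.Agent.MP_710317_co.Rec.Cons

namespace Pool.Agent.MP_710317_co.Rec

open Finset Pool.Agent.MP_710317_co

variable {V : Type*} [Fintype V] [DecidableEq V]

/-- [RQ-BASE1]  `f l (C(k,2)) ≥ k²/4`.
Proof.  `Sb w (2c - C(k,2))` (`Sb_of_le`), `edwards`: `y = 2c - C(k,2)`, `0 ≤ y`, `C(k,2) ≤ y (2y+1)`.
`k = 2j+1`: `j(2j+1) ≤ y(2y+1)` gives `y ≥ j`, `2 c ≥ j(2j+1) + j`.  `k = 2j`: `j(2j-1) ≤ y(2y+1)` and
`(j-1)(2j-1) < j(2j-1)` give `y ≥ j` (for `j ≥ 1`), `2 c ≥ j (2j-1) + j = 2 j²`. -/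
theorem base_lower {l k c : ℕ} (hk : 1 ≤ k) {w : V → V → ℤ}
    (h : Ex l ((k.choose 2 : ℕ) : ℤ) w (c : ℤ)) : k ^ 2 / 4 ≤ c := by
  obtain ⟨h1, h2⟩ := edwards h.sym (Sb_of_le h.sym h.tot h.le) h.tot
  obtain ⟨j, hj | hj⟩ := Nat.even_or_odd' k
  · subst hj
    obtain ⟨i, rfl⟩ : ∃ i, j = i + 1 := ⟨j - 1, by omega⟩
    have e1 : (2 * (i + 1)).choose 2 = (i + 1) * (2 * i + 1) := by
      rw [Nat.choose_two_right, show 2 * (i + 1) - 1 = 2 * i + 1 by omega,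
        show 2 * (i + 1) * (2 * i + 1) = 2 * ((i + 1) * (2 * i + 1)) by ring]
      exact Nat.mul_div_cancel_left _ (by norm_num)
    have e2 : (2 * (i + 1)) ^ 2 / 4 = (i + 1) ^ 2 := by
      rw [show (2 * (i + 1)) ^ 2 = 4 * (i + 1) ^ 2 by ring]
      exact Nat.mul_div_cancel_left _ (by norm_num)
    rw [e1] at h1 h2
    rw [e2]
    push_cast at h1 h2
    set y : ℤ := 2 * (c : ℤ) - ((i : ℤ) + 1) * (2 * i + 1) with hy
    have h3 : (i : ℤ) + 1 ≤ y := by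
      by_contra hc
      push Not at hc
      have h4 : y ≤ i := by omega
      have h5 : y * (2 * y + 1) ≤ i * (2 * i + 1) := by
        have hi : (0 : ℤ) ≤ i := Int.natCast_nonneg i
        nlinarith
      nlinarith [Int.natCast_nonneg i]
    have h6 : ((i : ℤ) + 1) ^ 2 ≤ c := by nlinarith
    exact_mod_cast h6
  · subst hj
    have e1 : (2 * j + 1).choose 2 = j * (2 * j + 1) := by
      rw [Nat.choose_two_right, show 2 * j + 1 - 1 = 2 * j by omega,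
        show (2 * j + 1) * (2 * j) = 2 * (j * (2 * j + 1)) by ring]
      exact Nat.mul_div_cancel_left _ (by norm_num)
    have e2 : (2 * j + 1) ^ 2 / 4 = j * (j + 1) := by
      rw [show (2 * j + 1) ^ 2 = 1 + 4 * (j * (j + 1)) by ring, Nat.add_mul_div_left _ _ (by norm_num)]
      norm_num
    rw [e1] at h1 h2
    rw [e2]
    push_cast at h1 h2
    set y : ℤ := 2 * (c : ℤ) - (j : ℤ) * (2 * j + 1) with hy
    have h3 : (j : ℤ) ≤ y := by
      by_contra hc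
      push Not at hc
      nlinarith [Int.natCast_nonneg j]
    have h6 : (j : ℤ) * (j + 1) ≤ c := by nlinarith
    exact_mod_cast h6

end Pool.Agent.MP_710317_co.Rec
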