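import Pool.Agent.MP_710317_co.Rec.Defs

namespace Pool.Agent.MP_710317_co.Rec

open Finset Pool.Agent.MP_710317_co

variable {V : Type*}

theorem crs_comm {w : V → V → ℤ} (hw : Sym w) (S T : Finset V) : crs w S T = crs w T S := by
  unfold crs
  rw [Finset.sum_comm]
  exact Finset.sum_congr rfl fun i _ => Finset.sum_congr rfl fun j _ => hw.symm j i

theorem inn_eq_crs (w : V → V → ℤ) (S : Finset V) : inn w S = crs w S S := rfl

variable [Fintype V] [DecidableEq V]

theorem crs_univ_left (w : V → V → ℤ) (S T : Finset V) :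
    crs w univ T = crs w S T + crs w Sᶜ T := by
  unfold crs
  rw [Finset.sum_add_sum_compl]

theorem crs_univ_right (w : V → V → ℤ) (S T : Finset V) :
    crs w T univ = crs w T S + crs w T Sᶜ := by
  unfold crs
  rw [← Finset.sum_add_distrib]
  exact Finset.sum_congr rfl fun i _ => (Finset.sum_add_sum_compl S _).symm

theorem tot_split {w : V → V → ℤ} (hw : Sym w) (S : Finset V) :
    inn w univ = inn w S + inn w Sᶜ + 2 * crs w S Sᶜ := by
  rw [inn_eq_crs, crs_univ_left w S, crs_univ_right w S S, crs_univ_right w S Sᶜ,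
    crs_comm hw Sᶜ S, inn_eq_crs, inn_eq_crs]
  ring

/-- twice the surplus of a cut -/
theorem en_eq {w : V → V → ℤ} (hw : Sym w) (e : V → ℤ) (he : IsSign e) :
    en w e = 4 * crs w (univ.filter fun i => e i = 1) (univ.filter fun i => e i = 1)ᶜ
      - inn w univ := by
  set S := univ.filter fun i => e i = 1 with hS
  have h1 : ∀ i ∈ S, e i = 1 := fun i hi => by simpa [hS] using hi
  have h2 : ∀ i ∈ Sᶜ, e i = -1 := fun i hi => by
    have : ¬ e i = 1 := by simpa [hS] using hi
    rcases he i with h | h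
    · exact absurd h this
    · exact h
  have key : ∑ i, ∑ j, w i j * e i * e j = inn w S + inn w Sᶜ - 2 * crs w S Sᶜ := by
    rw [← Finset.sum_add_sum_compl S]
    have a1 : ∀ i ∈ S, ∑ j, w i j * e i * e j = ∑ j ∈ S, w i j - ∑ j ∈ Sᶜ, w i j := by
      intro i hi
      rw [← Finset.sum_add_sum_compl S, sub_eq_add_neg, ← Finset.sum_neg_distrib]
      congr 1
      · exact Finset.sum_congr rfl fun j hj => by rw [h1 i hi, h1 j hj]; ring
      · exact Finset.sum_congr rfl fun j hj => by rw [h1 i hi, h2 j hj]; ring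
    have a2 : ∀ i ∈ Sᶜ, ∑ j, w i j * e i * e j = - ∑ j ∈ S, w i j + ∑ j ∈ Sᶜ, w i j := by
      intro i hi
      rw [← Finset.sum_add_sum_compl S, ← Finset.sum_neg_distrib]
      congr 1
      · exact Finset.sum_congr rfl fun j hj => by rw [h2 i hi, h1 j hj]; ring
      · exact Finset.sum_congr rfl fun j hj => by rw [h2 i hi, h2 j hj]; ring
    rw [Finset.sum_congr rfl a1, Finset.sum_congr rfl a2, Finset.sum_sub_distrib,
      Finset.sum_add_distrib, Finset.sum_neg_distrib]
    have a3 : ∑ i ∈ Sᶜ, ∑ j ∈ S, w i j = crs w S Sᶜ := by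
      rw [crs_comm hw]; rfl
    have a4 : ∑ i ∈ S, ∑ j ∈ Sᶜ, w i j = crs w S Sᶜ := rfl
    rw [a3, a4]
    unfold inn
    ring
  unfold en
  rw [key, tot_split hw S]
  ring

theorem Sb_of_le {w : V → V → ℤ} (hw : Sym w) {c W : ℤ} (hW : inn w univ = 2 * W)
    (h : ∀ S, crs w S Sᶜ ≤ c) : Sb w (2 * c - W) := by
  intro e he
  rw [en_eq hw e he, hW]
  have := h (univ.filter fun i => e i = 1)
  linarith

theorem le_of_Sb {w : V → V → ℤ} (hw : Sym w) {s W : ℤ} (hW : inn w univ = 2 * W)
    (h : Sb w s) (S : Finset V) : 2 * crs w S Sᶜ ≤ W + s := by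
  have he : IsSign (fun i => if i ∈ S then (1 : ℤ) else -1) := by
    intro i
    by_cases hi : i ∈ S
    · left; simp [hi]
    · right; simp [hi]
  have h1 := h _ he
  rw [en_eq hw _ he] at h1
  have h2 : (univ.filter fun i => (if i ∈ S then (1 : ℤ) else -1) = 1) = S := by
    ext i
    by_cases hi : i ∈ S <;> simp [hi]
  rw [h2, hW] at h1
  linarith

end Pool.Agent.MP_710317_co.Rec
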