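import Pool.Agent.MP_710317_co.Rec.BridgeDefs

namespace Pool.Agent.MP_710317_co.Rec

open Finset Pool.Agent.MP_710317_co

variable {V : Type*} [Fintype V] [DecidableEq V]

/-- [RQ-FIN]  Transport to `Fin N`.  Proof: `w' i j = w (φ i) (φ j)` with `φ : Fin (card V) ≃ V`; the
graph and the marks are transported along `φ` (`SimpleGraph.comap`, `Finset.map`/`filter`); sums are
reindexed. -/
theorem transport {l : ℕ} {r c : ℤ} {w : V → V → ℤ} (h : Ex l r w c) :
    ∃ (N : ℕ) (w' : Fin N → Fin N → ℤ), Ex l r w' c ∧ ∀ S' : Finset (Fin N), ∃ S : Finset V,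
      crs w' S' S'ᶜ = crs w S Sᶜ ∧ inn w' S' = inn w S ∧ inn w' S'ᶜ = inn w Sᶜ := by
  classical
  let φ : Fin (Fintype.card V) ≃ V := (Fintype.equivFin V).symm
  have hcrs : ∀ S T : Finset (Fin (Fintype.card V)), crs (fun i j => w (φ i) (φ j)) S T =
      crs w (S.map φ.toEmbedding) (T.map φ.toEmbedding) := by
    intro S T
    unfold crs
    rw [Finset.sum_map]
    apply Finset.sum_congr rfl
    intro i _
    rw [Finset.sum_map]
    rfl
  have hinn : ∀ S : Finset (Fin (Fintype.card V)), inn (fun i j => w (φ i) (φ j)) S =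
      inn w (S.map φ.toEmbedding) := fun S => hcrs S S
  have hcompl : ∀ S : Finset (Fin (Fintype.card V)),
      Sᶜ.map φ.toEmbedding = (S.map φ.toEmbedding)ᶜ := by
    intro S
    ext v
    simp only [Finset.mem_map, Finset.mem_compl, Equiv.coe_toEmbedding]
    constructor
    · rintro ⟨a, ha, rfl⟩ ⟨b, hb, hab⟩
      exact ha (φ.injective hab ▸ hb)
    · intro hv
      refine ⟨φ.symm v, fun hS => hv ⟨_, hS, φ.apply_symm_apply v⟩, φ.apply_symm_apply v⟩
  have huniv : (univ : Finset (Fin (Fintype.card V))).map φ.toEmbedding = univ := by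
    ext v
    simp only [Finset.mem_map, Finset.mem_univ, true_and, Equiv.coe_toEmbedding, iff_true]
    exact ⟨φ.symm v, φ.apply_symm_apply v⟩
  refine ⟨Fintype.card V, fun i j => w (φ i) (φ j), ⟨?_, ?_, ?_, ?_⟩, ?_⟩
  · exact ⟨fun i j => h.sym.symm _ _, fun i => h.sym.diag _⟩
  · obtain ⟨G, K, hGK⟩ := h.marked
    refine ⟨G.comap φ, fun t => univ.filter fun i => φ i ∈ K t, fun i j hij => ?_⟩
    have h1 := hGK (φ i) (φ j) (fun hh => hij (φ.injective hh))
    show w (φ i) (φ j) = _
    rw [h1]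
    have e1 : ad (G.comap φ) i j = ad G (φ i) (φ j) := rfl
    rw [e1]
    congr 3
    ext t
    simp only [Finset.mem_filter, Finset.mem_univ, true_and]
  · rw [hinn, huniv]
    exact h.tot
  · intro S
    rw [hcrs, hcompl]
    exact h.le _
  · intro S'
    refine ⟨S'.map φ.toEmbedding, ?_, ?_, ?_⟩
    · rw [hcrs, hcompl]
    · rw [hinn]
    · rw [hinn, hcompl]

end Pool.Agent.MP_710317_co.Rec
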