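import Pool.Agent.MP_710317_co.Rec.Bridge1
import Pool.Agent.MP_710317_co.Rec.Bridge2

namespace Pool.Agent.MP_710317_co.Rec

open Finset Pool.Agent.MP_710317_co

/-- [RQ-VALS]  The sets of the definition in terms of matrices (on an arbitrary finite type). -/
theorem mem_cutVals {V : Type*} [Fintype V] [DecidableEq V] {l r c : ℕ} {w : V → V → ℤ}
    (h : Ex l (r : ℤ) w (c : ℤ)) : c ∈ cutVals l r := by
  obtain ⟨N, w', h', -⟩ := transport h
  obtain ⟨G, K, rfl⟩ := exists_mat h'.sym h'.marked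
  refine ⟨N, G, K, ?_, fun S => ?_⟩
  · have h1 := h'.tot
    rw [mat_inn] at h1
    linarith
  · have h1 := h'.le S
    rw [mat_crs] at h1
    exact h1

theorem of_mem_cutVals {l r c : ℕ} (h : c ∈ cutVals l r) :
    ∃ (N : ℕ) (w : Fin N → Fin N → ℤ), Ex l (r : ℤ) w (c : ℤ) := by
  obtain ⟨N, G, K, h1, h2⟩ := h
  refine ⟨N, mat G K, mat_sym G K, mat_Mk G K, ?_, fun S => ?_⟩
  · rw [mat_inn, h1]
  · rw [mat_crs]
    exact h2 S

theorem mem_lowVals {V : Type*} [Fintype V] [DecidableEq V] {l r d : ℕ} {w : V → V → ℤ}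
    (h : Ex l (r : ℤ) w (fl l r : ℤ))
    (hd : ∀ S, crs w S Sᶜ = fl l r → 2 * (d : ℤ) ≤ |inn w S - inn w Sᶜ|) : d ∈ lowVals l r := by
  obtain ⟨N, w', h', hS⟩ := transport h
  obtain ⟨G, K, rfl⟩ := exists_mat h'.sym h'.marked
  refine ⟨N, G, K, ?_, fun S => ?_, fun S hcut => ?_⟩
  · have h1 := h'.tot
    rw [mat_inn] at h1
    linarith
  · have h1 := h'.le S
    rw [mat_crs] at h1
    exact h1
  · obtain ⟨S0, e1, e2, e3⟩ := hS S
    rw [mat_crs, hcut] at e1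
    have h2 := hd S0 e1.symm
    rw [← e2, ← e3, mat_inn, mat_inn, ← mul_sub, abs_mul, abs_two] at h2
    linarith

theorem of_mem_lowVals {l r d : ℕ} (h : d ∈ lowVals l r) :
    ∃ (N : ℕ) (w : Fin N → Fin N → ℤ), Ex l (r : ℤ) w (fl l r : ℤ) ∧
      ∀ S, crs w S Sᶜ = fl l r → 2 * (d : ℤ) ≤ |inn w S - inn w Sᶜ| := by
  obtain ⟨N, G, K, h1, h2, h3⟩ := h
  refine ⟨N, mat G K, ⟨mat_sym G K, mat_Mk G K, ?_, fun S => ?_⟩, fun S hcut => ?_⟩
  · rw [mat_inn, h1]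
  · rw [mat_crs]
    exact h2 S
  · rw [mat_crs] at hcut
    have h4 := h3 S hcut
    rw [mat_inn, mat_inn, ← mul_sub, abs_mul, abs_two]
    linarith

theorem mem_highVals {V : Type*} [Fintype V] [DecidableEq V] {l r d : ℕ} {w : V → V → ℤ}
    (h : Ex l (r : ℤ) w (fl l r : ℤ))
    (hd : ∀ S, crs w S Sᶜ = fl l r → |inn w S - inn w Sᶜ| ≤ 2 * (d : ℤ)) : d ∈ highVals l r := by
  obtain ⟨N, w', h', hS⟩ := transport h
  obtain ⟨G, K, rfl⟩ := exists_mat h'.sym h'.marked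
  refine ⟨N, G, K, ?_, fun S => ?_, fun S hcut => ?_⟩
  · have h1 := h'.tot
    rw [mat_inn] at h1
    linarith
  · have h1 := h'.le S
    rw [mat_crs] at h1
    exact h1
  · obtain ⟨S0, e1, e2, e3⟩ := hS S
    rw [mat_crs, hcut] at e1
    have h2 := hd S0 e1.symm
    rw [← e2, ← e3, mat_inn, mat_inn, ← mul_sub, abs_mul, abs_two] at h2
    linarith

theorem of_mem_highVals {l r d : ℕ} (h : d ∈ highVals l r) :
    ∃ (N : ℕ) (w : Fin N → Fin N → ℤ), Ex l (r : ℤ) w (fl l r : ℤ) ∧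
      ∀ S, crs w S Sᶜ = fl l r → |inn w S - inn w Sᶜ| ≤ 2 * (d : ℤ) := by
  obtain ⟨N, G, K, h1, h2, h3⟩ := h
  refine ⟨N, mat G K, ⟨mat_sym G K, mat_Mk G K, ?_, fun S => ?_⟩, fun S hcut => ?_⟩
  · rw [mat_inn, h1]
  · rw [mat_crs]
    exact h2 S
  · rw [mat_crs] at hcut
    have h4 := h3 S hcut
    rw [mat_inn, mat_inn, ← mul_sub, abs_mul, abs_two]
    linarith

end Pool.Agent.MP_710317_co.Rec
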