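import Pool.Agent.MP_710317_co.Rec.BridgeDefs

namespace Pool.Agent.MP_710317_co.Rec

open Finset Pool.Agent.MP_710317_co

variable {V : Type*} [Fintype V] [DecidableEq V]

omit [Fintype V] in
theorem Bridge1_pairs (K S : Finset V) :
    ∑ i ∈ S, ∑ j ∈ S, (if i ≠ j ∧ i ∈ K ∧ j ∈ K then (1 : ℤ) else 0) =
      2 * (((K ∩ S).card.choose 2 : ℕ) : ℤ) := by
  have h0 : ∀ (c : ℤ), ∑ i ∈ S, (if i ∈ K then c else 0) = ((K ∩ S).card : ℤ) * c := by
    intro c
    rw [← Finset.sum_filter, Finset.sum_const, nsmul_eq_mul]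
    congr 3
    ext v
    simp [and_comm]
  have h1 : ∀ i ∈ S, ∑ j ∈ S, (if i ≠ j ∧ i ∈ K ∧ j ∈ K then (1 : ℤ) else 0) =
      if i ∈ K then (((K ∩ S).card : ℤ) - 1) else 0 := by
    intro i hi
    by_cases hK : i ∈ K
    · rw [if_pos hK]
      have h2 : ∀ j ∈ S, (if i ≠ j ∧ i ∈ K ∧ j ∈ K then (1 : ℤ) else 0) =
          (if j ∈ K then 1 else 0) - (if i = j then 1 else 0) := by
        intro j _
        by_cases hij : i = j
        · subst hij
          simp [hK]
        · simp [hij, hK]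
      rw [Finset.sum_congr rfl h2, Finset.sum_sub_distrib, h0 1, Finset.sum_ite_eq, if_pos hi]
      ring
    · rw [if_neg hK]
      refine Finset.sum_eq_zero fun j _ => ?_
      rw [if_neg (fun h => hK h.2.1)]
  rw [Finset.sum_congr rfl h1, h0, two_choose]

/-- [RQ-BRIDGE]  Bookkeeping between graphs with marks and matrices.
`mat_inn`: `ord_eq_inside` gives `∑_{i,j∈S} ad G i j = 2 inside G S`; for every `t` the number of ordered
pairs `i ≠ j` in `K t ∩ S` is `2 C(|K t ∩ S|, 2)` (`Finset.offDiag_card`, `two_choose`). -/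
theorem mat_sym (G : SimpleGraph V) {l : ℕ} (K : Fin l → Finset V) : Sym (mat G K) := by
  refine ⟨fun i j => ?_, fun i => if_pos rfl⟩
  unfold mat
  by_cases h : i = j
  · rw [if_pos h, if_pos h.symm]
  · rw [if_neg h, if_neg (fun k => h k.symm), ad_comm]
    congr 3
    ext t
    simp [and_comm]

theorem mat_Mk (G : SimpleGraph V) {l : ℕ} (K : Fin l → Finset V) : Mk l (mat G K) :=
  ⟨G, K, fun _ _ h => if_neg h⟩

theorem mat_inn (G : SimpleGraph V) {l : ℕ} (K : Fin l → Finset V) (S : Finset V) :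
    inn (mat G K) S = 2 * exIn G K S := by
  have h1 : ∀ i j, mat G K i j = ad G i j -
      ∑ t, (if i ≠ j ∧ i ∈ K t ∧ j ∈ K t then (1 : ℤ) else 0) := by
    intro i j
    unfold mat
    by_cases h : i = j
    · subst h
      rw [if_pos rfl, ad_self]
      simp
    · rw [if_neg h]
      congr 1
      rw [← Finset.sum_filter, Finset.sum_const, nsmul_eq_mul, mul_one]
      congr 2
      ext t
      simp [h]
  have h2 : inn (mat G K) S = ord G S -
      ∑ t, ∑ i ∈ S, ∑ j ∈ S, (if i ≠ j ∧ i ∈ K t ∧ j ∈ K t then (1 : ℤ) else 0) := by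
    unfold inn ord
    rw [Finset.sum_comm (s := univ), ← Finset.sum_sub_distrib]
    refine Finset.sum_congr rfl fun i _ => ?_
    rw [Finset.sum_comm (s := univ), ← Finset.sum_sub_distrib]
    exact Finset.sum_congr rfl fun j _ => h1 i j
  rw [h2, ord_eq_inside]
  unfold exIn
  rw [mul_sub, Finset.mul_sum]
  congr 1
  exact Finset.sum_congr rfl fun t _ => Bridge1_pairs (K t) S

theorem mat_crs (G : SimpleGraph V) {l : ℕ} (K : Fin l → Finset V) (S : Finset V) :
    crs (mat G K) S Sᶜ = exCut G K S := by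
  have h := tot_split (mat_sym G K) S
  rw [mat_inn, mat_inn, mat_inn] at h
  unfold exCut
  linarith

theorem exists_mat {l : ℕ} {w : V → V → ℤ} (hw : Sym w) (hM : Mk l w) :
    ∃ (G : SimpleGraph V) (K : Fin l → Finset V), w = mat G K := by
  obtain ⟨G, K, h⟩ := hM
  refine ⟨G, K, ?_⟩
  funext i j
  unfold mat
  by_cases hij : i = j
  · rw [if_pos hij, hij, hw.diag]
  · rw [if_neg hij, h i j hij]

end Pool.Agent.MP_710317_co.Rec
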