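import Pool.Agent.MP_710317_co.Rec.Basic

namespace Pool.Agent.MP_710317_co.Rec

open Finset Pool.Agent.MP_710317_co

/-- the excess matrix of a graph over marked sets -/
noncomputable def mat {V : Type*} [DecidableEq V] (G : SimpleGraph V) {l : ℕ}
    (K : Fin l → Finset V) (i j : V) : ℤ :=
  if i = j then 0 else ad G i j - (((univ.filter fun t => i ∈ K t ∧ j ∈ K t).card : ℕ) : ℤ)

end Pool.Agent.MP_710317_co.Rec
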