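import Pool.Agent.MP_710317_co.Rec.Gen

namespace Pool.Agent.MP_710317_co.Rec

open Finset Pool.Agent.MP_710317_co

variable {V : Type*} [Fintype V] [DecidableEq V]

/-- sum over the moved points of an involution -/
theorem Cliq_sum (P Pp : Finset V) (τ : V → V) (hτ : ∀ i, τ (τ i) = i) (hP : ∀ i ∈ P, τ i ∈ P)
    (hPp : Pp ⊆ P) (hx : ∀ i ∈ P, (i ∈ Pp ↔ τ i ∉ Pp)) (f : V → ℤ) :
    ∑ i ∈ P, f i = ∑ q ∈ Pp, (f q + f (τ q)) := by
  classical
  rw [← Finset.sum_sdiff hPp, add_comm, Finset.sum_add_distrib]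
  congr 1
  refine Finset.sum_nbij' τ τ ?_ ?_ ?_ ?_ ?_
  · intro i hi
    rw [Finset.mem_sdiff] at hi
    by_contra h
    exact hi.2 ((hx i hi.1).2 h)
  · intro i hi
    rw [Finset.mem_sdiff]
    exact ⟨hP i (hPp hi), (hx i (hPp hi)).1 hi⟩
  · intro i _; exact hτ i
  · intro i _; exact hτ i
  · intro i _; rw [hτ i]

/-- splitting the energy -/
theorem Cliq_en {w : V → V → ℤ} (hw : Sym w) (P : Finset V) (e : V → ℤ) :
    en w e = - (∑ x ∈ Pᶜ, ∑ y ∈ Pᶜ, w x y * e x * e y) -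
      2 * (∑ q ∈ P, e q * ∑ x ∈ Pᶜ, w x q * e x) - ∑ x ∈ P, ∑ y ∈ P, w x y * e x * e y := by
  unfold en
  have h1 : ∑ i, ∑ j, w i j * e i * e j =
      (∑ x ∈ Pᶜ, ∑ y ∈ Pᶜ, w x y * e x * e y) + (∑ x ∈ Pᶜ, ∑ y ∈ P, w x y * e x * e y) +
      ((∑ x ∈ P, ∑ y ∈ Pᶜ, w x y * e x * e y) + ∑ x ∈ P, ∑ y ∈ P, w x y * e x * e y) := by
    rw [← Finset.sum_add_sum_compl P, add_comm]
    congr 1
    · rw [← Finset.sum_add_distrib]
      refine Finset.sum_congr rfl fun i _ => ?_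
      rw [← Finset.sum_add_sum_compl P, add_comm]
    · rw [← Finset.sum_add_distrib]
      refine Finset.sum_congr rfl fun i _ => ?_
      rw [← Finset.sum_add_sum_compl P, add_comm]
  have h2 : ∑ x ∈ Pᶜ, ∑ y ∈ P, w x y * e x * e y = ∑ q ∈ P, e q * ∑ x ∈ Pᶜ, w x q * e x := by
    rw [Finset.sum_comm]
    refine Finset.sum_congr rfl fun q _ => ?_
    rw [Finset.mul_sum]
    refine Finset.sum_congr rfl fun x _ => ?_
    ring
  have h3 : ∑ x ∈ P, ∑ y ∈ Pᶜ, w x y * e x * e y = ∑ q ∈ P, e q * ∑ x ∈ Pᶜ, w x q * e x := by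
    refine Finset.sum_congr rfl fun q _ => ?_
    rw [Finset.mul_sum]
    refine Finset.sum_congr rfl fun x _ => ?_
    rw [hw.symm q x]
    ring
  rw [h1, h2, h3]
  ring

open Classical in
/-- [RQ-CLIQ]  Pairs inside a clique `Q`: the pairs count, and pairs whose two columns outside `Q`
differ count twice.

Proof.  `P = {q ∈ Q : τ q ≠ q}`, `X = Pᶜ`.  Choose `P⁺ ⊆ P` containing exactly one point of each pair
`{q, τ q}` (e.g. transfer a linear order from `Fin (card V)` and take `q < τ q`, or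
`Finset` induction).  `gen_lemma` with `ι = {q // q ∈ P⁺}`, `g q x = w x q - w x (τ q)` and this `X`
gives signs `e`.  Put `e' = e` on `X`, `e' q = -1` if `0 ≤ ∑_{x∈X} g q x e x` else `1` and
`e' (τ q) = - e' q` for `q ∈ P⁺`.  Then
`en w e' = -∑_{x,y∈X} w e e + 2 ∑_{q∈P⁺} |∑_{x∈X} g q x e x| + 2 |P⁺|`: the terms `q`-`τ q` give
`-2 w q (τ q) e' q e' (τ q) = 2`, and for `q ≠ q' ∈ P⁺` the four terms between `{q, τ q}` and
`{q', τ q'}` are `e' q e' q' (1 - 1 - 1 + 1) = 0` as all these entries are `1`.  A fixed point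
`x ∈ X ∩ Q` has `g q x = 1 - 1 = 0`, so `{∃ x ∈ X, g q x ≠ 0} = {∃ u ∉ Q, w u q ≠ w u (τ q)}`.  Hence
`2 s ≥ en w e' ≥ 2 |P⁺| + 2 #{q ∈ P⁺ : split}` and `|P| = 2 |P⁺|`, `#{q ∈ Q : split} = 2 #{q ∈ P⁺ :
split}` (a split `q` is not a fixed point, and `q` is split iff `τ q` is). -/
theorem clique_pairs {w : V → V → ℤ} (hw : Sym w) {s : ℤ} (hs : Sb w s) (Q : Finset V)
    (hQ : ∀ a ∈ Q, ∀ b ∈ Q, a ≠ b → w a b = 1) (τ : V → V) (hτ : ∀ i, τ (τ i) = i)
    (hτQ : ∀ i ∈ Q, τ i ∈ Q) :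
    (((Q.filter fun q => τ q ≠ q).card : ℕ) : ℤ) +
      (((Q.filter fun q => ∃ u, u ∉ Q ∧ w u q ≠ w u (τ q)).card : ℕ) : ℤ) ≤ 2 * s := by
  set P : Finset V := Q.filter fun q => τ q ≠ q with hPdef
  have hPQ : P ⊆ Q := Finset.filter_subset _ _
  have hmemP : ∀ i, i ∈ P ↔ i ∈ Q ∧ τ i ≠ i := fun i => by rw [hPdef, Finset.mem_filter]
  have hPτ : ∀ i ∈ P, τ i ∈ P := by
    intro i hi
    rw [hmemP] at hi ⊢
    refine ⟨hτQ i hi.1, ?_⟩
    rw [hτ i]
    exact fun h => hi.2 h.symm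
  set f0 : V → ℕ := fun v => (Fintype.equivFin V v : ℕ) with hf0
  have hf0inj : ∀ a b, f0 a = f0 b → a = b := by
    intro a b h
    exact (Fintype.equivFin V).injective (Fin.ext h)
  set Pp : Finset V := P.filter fun q => f0 q < f0 (τ q) with hPp
  have hPpP : Pp ⊆ P := Finset.filter_subset _ _
  have hx : ∀ i ∈ P, (i ∈ Pp ↔ τ i ∉ Pp) := by
    intro i hi
    have h1 : τ i ∈ P := hPτ i hi
    have h2 : f0 i ≠ f0 (τ i) := fun h => ((hmemP i).1 hi).2 (hf0inj _ _ h).symm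
    have hmemPp : ∀ i, i ∈ Pp ↔ i ∈ P ∧ f0 i < f0 (τ i) := fun i => Finset.mem_filter
    rw [hmemPp, hmemPp, hτ i]
    constructor
    · rintro ⟨_, h⟩ ⟨_, h'⟩
      omega
    · intro h
      refine ⟨hi, ?_⟩
      by_contra h'
      exact h ⟨h1, by omega⟩
  obtain ⟨e, he, hgen⟩ := gen_lemma hw (fun q x => if q ∈ Pp then w x q - w x (τ q) else 0) Pᶜ
  -- the new signs
  set t : V → ℤ := fun q => ∑ x ∈ Pᶜ, (w x q - w x (τ q)) * e x with ht
  set sg : V → ℤ := fun q => if 0 ≤ t q then -1 else 1 with hsg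
  set e' : V → ℤ := fun v => if v ∈ Pp then sg v else if v ∈ P then - sg (τ v) else e v with he'
  have hsgt : ∀ q, sg q * t q = - |t q| := by
    intro q
    simp only [hsg]
    split_ifs with h
    · rw [abs_of_nonneg h]; ring
    · rw [abs_of_neg (by omega)]; ring
  have hsg1 : ∀ q, sg q = 1 ∨ sg q = -1 := by
    intro q
    simp only [hsg]
    split_ifs <;> simp
  have he'sign : IsSign e' := by
    intro v
    simp only [he']
    split_ifs
    · exact hsg1 v
    · rcases hsg1 (τ v) with h | h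
      · right; rw [h]
      · left; rw [h]; norm_num
    · exact he v
  have he'X : ∀ x ∈ Pᶜ, e' x = e x := by
    intro x hx'
    rw [Finset.mem_compl] at hx'
    have h1 : x ∉ Pp := fun h => hx' (hPpP h)
    simp only [he', if_neg h1, if_neg hx']
  have he'p : ∀ q ∈ Pp, e' q = sg q := by
    intro q hq
    simp only [he', if_pos hq]
  have he'τ : ∀ q ∈ Pp, e' (τ q) = - sg q := by
    intro q hq
    have h1 : τ q ∉ Pp := (hx q (hPpP hq)).1 hq
    have h2 : τ q ∈ P := hPτ q (hPpP hq)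
    simp only [he', if_neg h1, if_pos h2, hτ q]
  have hen := Cliq_en hw P e'
  have hbound := hs e' he'sign
  -- first term
  have hT1 : ∑ x ∈ Pᶜ, ∑ y ∈ Pᶜ, w x y * e' x * e' y = ∑ x ∈ Pᶜ, ∑ y ∈ Pᶜ, w x y * e x * e y :=
    Finset.sum_congr rfl fun x hx' => Finset.sum_congr rfl fun y hy' => by
      rw [he'X x hx', he'X y hy']
  -- second term
  have hT2 : ∑ q ∈ P, e' q * ∑ x ∈ Pᶜ, w x q * e' x = - ∑ q ∈ Pp, |t q| := by
    rw [Cliq_sum P Pp τ hτ hPτ hPpP hx, ← Finset.sum_neg_distrib]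
    refine Finset.sum_congr rfl fun q hq => ?_
    rw [he'p q hq, he'τ q hq, ← hsgt q]
    have h1 : t q = ∑ x ∈ Pᶜ, w x q * e' x - ∑ x ∈ Pᶜ, w x (τ q) * e' x := by
      rw [← Finset.sum_sub_distrib]
      refine Finset.sum_congr rfl fun x hx' => ?_
      rw [he'X x hx']
      ring
    rw [h1]
    ring
  -- third term
  have hT3 : ∑ x ∈ P, ∑ y ∈ P, w x y * e' x * e' y = - 2 * (Pp.card : ℤ) := by
    have h1 : ∀ x ∈ P, ∑ y ∈ P, w x y * e' x * e' y = e' x * (∑ y ∈ P, e' y) - 1 := by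
      intro x hxP
      have h2 : ∑ y ∈ P, e' y = e' x + ∑ y ∈ P.erase x, e' y :=
        (Finset.add_sum_erase P e' hxP).symm
      have h3 : ∑ y ∈ P, w x y * e' x * e' y = w x x * e' x * e' x +
          ∑ y ∈ P.erase x, w x y * e' x * e' y :=
        (Finset.add_sum_erase P (fun y => w x y * e' x * e' y) hxP).symm
      have h4 : ∑ y ∈ P.erase x, w x y * e' x * e' y = e' x * ∑ y ∈ P.erase x, e' y := by
        rw [Finset.mul_sum]
        refine Finset.sum_congr rfl fun y hy => ?_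
        rw [Finset.mem_erase] at hy
        rw [hQ x (hPQ hxP) y (hPQ hy.2) (fun h => hy.1 h.symm)]
        ring
      have h5 : e' x * e' x = 1 := by
        rcases he'sign x with h | h <;> rw [h] <;> norm_num
      rw [h3, h4, h2, hw.diag x]
      linear_combination - h5
    have h6 : ∑ y ∈ P, e' y = 0 := by
      rw [Cliq_sum P Pp τ hτ hPτ hPpP hx]
      refine Finset.sum_eq_zero fun q hq => ?_
      rw [he'p q hq, he'τ q hq]
      ring
    rw [Finset.sum_congr rfl h1, h6]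
    have h7 : (∑ x ∈ P, (e' x * 0 - 1) : ℤ) = - (P.card : ℤ) := by
      simp
    rw [h7]
    have h8 : (P.card : ℤ) = 2 * (Pp.card : ℤ) := by
      have h9 := Cliq_sum P Pp τ hτ hPτ hPpP hx (fun _ => 1)
      simp only [Finset.sum_const, nsmul_eq_mul, mul_one] at h9
      rw [h9]
      norm_num
      ring
    rw [h8]
    ring
  have hPcard : (P.card : ℤ) = 2 * (Pp.card : ℤ) := by
    have h9 := Cliq_sum P Pp τ hτ hPτ hPpP hx (fun _ => 1)
    simp only [Finset.sum_const, nsmul_eq_mul, mul_one] at h9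
    rw [h9]
    norm_num
    ring
  -- the sum over the pairs
  have hsumabs : ∑ u, |∑ x ∈ Pᶜ, (if u ∈ Pp then w x u - w x (τ u) else 0) * e x| =
      ∑ q ∈ Pp, |t q| := by
    symm
    rw [← Finset.sum_subset (Finset.subset_univ Pp)]
    · refine Finset.sum_congr rfl fun q hq => ?_
      simp only [if_pos hq]
      rfl
    · intro u _ hu
      simp [if_neg hu]
  -- counting the split pairs
  have hsplit : (((Q.filter fun q => ∃ u, u ∉ Q ∧ w u q ≠ w u (τ q)).card : ℕ) : ℤ) ≤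
      2 * (((univ.filter fun u => ∃ x ∈ Pᶜ,
        (if u ∈ Pp then w x u - w x (τ u) else 0) ≠ 0).card : ℕ) : ℤ) := by
    set A := univ.filter fun u => ∃ x ∈ Pᶜ, (if u ∈ Pp then w x u - w x (τ u) else 0) ≠ 0 with hA
    have hsub : (Q.filter fun q => ∃ u, u ∉ Q ∧ w u q ≠ w u (τ q)) ⊆ A ∪ A.image τ := by
      intro q hq
      rw [Finset.mem_filter] at hq
      obtain ⟨hqQ, u, hu, hne⟩ := hq
      have hqP : q ∈ P := by
        rw [hmemP]
        refine ⟨hqQ, fun h => hne ?_⟩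
        rw [h]
      have huX : u ∈ Pᶜ := by
        rw [Finset.mem_compl]
        exact fun h => hu (hPQ h)
      rw [Finset.mem_union]
      by_cases hqp : q ∈ Pp
      · left
        rw [hA, Finset.mem_filter]
        refine ⟨Finset.mem_univ _, u, huX, ?_⟩
        rw [if_pos hqp]
        intro h
        exact hne (by linarith)
      · right
        have hτp : τ q ∈ Pp := by
          by_contra h
          exact hqp ((hx q hqP).2 h)
        rw [Finset.mem_image]
        refine ⟨τ q, ?_, hτ q⟩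
        rw [hA, Finset.mem_filter]
        refine ⟨Finset.mem_univ _, u, huX, ?_⟩
        rw [if_pos hτp, hτ q]
        intro h
        exact hne (by linarith)
    have h1 := Finset.card_le_card hsub
    have h2 := Finset.card_union_le A (A.image τ)
    have h3 : (A.image τ).card ≤ A.card := Finset.card_image_le
    have h4 : (Q.filter fun q => ∃ u, u ∉ Q ∧ w u q ≠ w u (τ q)).card ≤ 2 * A.card := by omega
    exact_mod_cast h4
  rw [hsumabs] at hgen
  rw [hT1, hT2, hT3] at hen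
  linarith

end Pool.Agent.MP_710317_co.Rec
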