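import Pool.Agent.MP_710317_co.Rec.Clq1

namespace Pool.Agent.MP_710317_co.Rec

open Finset Pool.Agent.MP_710317_co

variable {V : Type*} [Fintype V] [DecidableEq V]

/-- [RQ-NEG]  A maximal matching of negative entries.
Proof.  Among the involutions `τ` with `∀ i, τ i ≠ i → w i (τ i) ≤ -1` (`id` is one) choose one with
the most non-fixed points `Z = {i : τ i ≠ i}`.  If `i, j ∉ Z` and `w i j ≤ -1` (so `i ≠ j`) exchange
them: contradiction.  `opt_matching`: `cw w c ≤ ∑ w x (τ x) ≤ - |Z|`. -/
theorem exists_neg_cover {w : V → V → ℤ} (hw : Sym w) {c : V → V} (hc : Opt w c) :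
    ∃ Z : Finset V, ((Z.card : ℕ) : ℤ) ≤ - cw w c ∧ ∀ i, i ∉ Z → ∀ j, j ∉ Z → 0 ≤ w i j := by
  classical
  obtain ⟨τ, hτ, hmax⟩ := Finset.exists_max_image
    (univ.filter fun τ : V → V => (∀ i, τ (τ i) = i) ∧ ∀ i, τ i ≠ i → w i (τ i) ≤ -1)
    (fun τ => (univ.filter fun i => τ i ≠ i).card)
    ⟨id, Finset.mem_filter.2 ⟨Finset.mem_univ _, fun _ => rfl, fun i hi => absurd rfl hi⟩⟩
  obtain ⟨hinv, hnz⟩ := (Finset.mem_filter.1 hτ).2
  refine ⟨univ.filter fun i => τ i ≠ i, ?_, ?_⟩
  · have h1 := opt_matching hw hc τ hinv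
    have h2 : ∑ x, w x (τ x) ≤ ∑ x, (if τ x ≠ x then (-1 : ℤ) else 0) := by
      refine Finset.sum_le_sum (fun x _ => ?_)
      by_cases hx : τ x = x
      · rw [if_neg (not_not.2 hx), hx, hw.diag]
      · rw [if_pos hx]
        exact hnz x hx
    have h3 : ∑ x, (if τ x ≠ x then (-1 : ℤ) else 0) =
        -((univ.filter fun i => τ i ≠ i).card : ℤ) := by
      rw [← Finset.sum_filter, Finset.sum_const, nsmul_eq_mul]
      ring
    linarith
  · intro u hu v hv
    have hu1 : τ u = u := by
      by_contra h
      exact hu (Finset.mem_filter.2 ⟨Finset.mem_univ _, h⟩)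
    have hv1 : τ v = v := by
      by_contra h
      exact hv (Finset.mem_filter.2 ⟨Finset.mem_univ _, h⟩)
    by_contra hlt
    have huv : w u v ≤ -1 := by omega
    have hne : u ≠ v := by
      rintro rfl
      rw [hw.diag] at hlt
      exact hlt le_rfl
    let τ' : V → V := fun i => if i = u then v else if i = v then u else τ i
    have t1 : τ' u = v := if_pos rfl
    have t2 : τ' v = u := by
      show (if v = u then v else if v = v then u else τ v) = u
      rw [if_neg hne.symm, if_pos rfl]
    have t3 : ∀ i, i ≠ u → i ≠ v → τ' i = τ i := by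
      intro i h h'
      show (if i = u then v else if i = v then u else τ i) = τ i
      rw [if_neg h, if_neg h']
    have hmem : τ' ∈ univ.filter fun τ : V → V =>
        (∀ i, τ (τ i) = i) ∧ ∀ i, τ i ≠ i → w i (τ i) ≤ -1 := by
      refine Finset.mem_filter.2 ⟨Finset.mem_univ _, ?_, ?_⟩
      · intro i
        by_cases hiu : i = u
        · rw [hiu, t1, t2]
        · by_cases hiv : i = v
          · rw [hiv, t2, t1]
          · rw [t3 i hiu hiv, t3 (τ i)]
            · exact hinv i
            · intro h
              apply hiu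
              rw [← hinv i, h, hu1]
            · intro h
              apply hiv
              rw [← hinv i, h, hv1]
      · intro i hi
        by_cases hiu : i = u
        · rw [hiu, t1]; exact huv
        · by_cases hiv : i = v
          · rw [hiv, t2, hw.symm]; exact huv
          · rw [t3 i hiu hiv] at hi ⊢
            exact hnz i hi
    have hlt' : (univ.filter fun i => τ i ≠ i).card < (univ.filter fun i => τ' i ≠ i).card := by
      apply Finset.card_lt_card
      rw [Finset.ssubset_iff_of_subset]
      · refine ⟨u, Finset.mem_filter.2 ⟨Finset.mem_univ _, ?_⟩, ?_⟩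
        · rw [t1]; exact hne.symm
        · intro h
          exact (Finset.mem_filter.1 h).2 hu1
      · intro i hi
        have hi' := (Finset.mem_filter.1 hi).2
        refine Finset.mem_filter.2 ⟨Finset.mem_univ _, ?_⟩
        rw [t3 i]
        · exact hi'
        · rintro rfl; exact hi' hu1
        · rintro rfl; exact hi' hv1
    exact absurd (hmax τ' hmem) (not_le.2 hlt')

end Pool.Agent.MP_710317_co.Rec
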