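import Pool.Agent.MP_710317_co.Rec.Clq2

namespace Pool.Agent.MP_710317_co.Rec

open Finset Pool.Agent.MP_710317_co

variable {V : Type*} [Fintype V] [DecidableEq V]

/-- [RQ-ONES]  Proof.  `cw w c = 2 h` (`cw_even`).  `Sb (quot w c) (s + h)` by `quot_en`.  With
`N = card` of the used colours, `j = N/2`:
(1) `odd_average`: `inn w univ - 2 h ≤ 2 (2 j + 1) (s + h)`.
(2) `max_pairing` with `ω = quot w c` (`≥ 1` off the diagonal by `opt_between`), bound by
`pair_bound`: a set `T0` of used colours with pairwise weight `1` and `2 j + (N - |T0|) ≤ 2 (s + h)`.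
Map `T0` to a `Finset V`. -/
theorem ones_classes {w : V → V → ℤ} (hw : Sym w) {s : ℤ} (hs : Sb w s) {c : V → V}
    (hc : Opt w c) :
    ∃ (j : ℕ) (T0 : Finset V), T0 ⊆ univ.image c ∧
      (∀ k ∈ T0, ∀ k' ∈ T0, k ≠ k' →
        ∑ x ∈ univ.filter (fun x => c x = k), wc w c x k' = 1) ∧
      2 * (j : ℤ) ≤ (univ.image c).card ∧
      2 * (j : ℤ) + (((univ.image c).card : ℤ) - (T0.card : ℤ)) ≤ 2 * s + cw w c ∧
      inn w univ - cw w c ≤ (2 * (j : ℤ) + 1) * (2 * s + cw w c) := by
  classical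
  obtain ⟨h, hh⟩ := cw_even hw c
  have hsb : Sb (quot w c) (s + h) := by
    intro e he
    rw [quot_en w c e he, hh]
    have := hs (fun x => e ⟨c x, mem_image_of_mem c (mem_univ x)⟩) (fun x => he _)
    linarith
  have hqs := quot_sym hw c
  have hodd := odd_average hqs hsb
  rw [quot_inn, Fintype.card_coe] at hodd
  obtain ⟨T, hT1, hT2⟩ := max_pairing (quot w c) hqs.symm hqs.diag
    (fun i j hij => by
      have hij' : (i : V) ≠ j := fun h' => hij (Subtype.ext h')
      have := opt_between hw hc i j i.2 j.2 hij'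
      unfold quot
      rw [if_neg hij]
      exact this)
    (s + h) (fun τ hτ => pair_bound hqs hsb τ hτ)
  rw [Fintype.card_coe] at hT2
  refine ⟨(univ.image c).card / 2, T.map ⟨Subtype.val, Subtype.val_injective⟩, ?_, ?_, ?_, ?_, ?_⟩
  · intro k hk
    obtain ⟨k', _, rfl⟩ := Finset.mem_map.1 hk
    exact k'.2
  · intro k hk k' hk' hne
    obtain ⟨a, ha, rfl⟩ := Finset.mem_map.1 hk
    obtain ⟨b, hb, rfl⟩ := Finset.mem_map.1 hk'
    have hab : a ≠ b := fun h' => hne (by rw [h'])
    have := hT1 a ha b hb hab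
    unfold quot at this
    rw [if_neg hab] at this
    exact this
  · have : 2 * ((univ.image c).card / 2) ≤ (univ.image c).card := Nat.mul_div_le _ _
    exact_mod_cast this
  · rw [Finset.card_map, hh]
    linarith
  · rw [hh] at hodd ⊢
    refine hodd.trans (le_of_eq ?_)
    ring

end Pool.Agent.MP_710317_co.Rec
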