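import Pool.Agent.MP_710317_co.Rec.Clq3

namespace Pool.Agent.MP_710317_co.Rec

open Finset Pool.Agent.MP_710317_co

variable {V : Type*} [Fintype V] [DecidableEq V]

/-- [RQ-CLQ]  Proof.  Take `c` with `Opt w c` (`exists_opt`), `j, T0` from `ones_classes`, `Z` from
`exists_neg_cover`; `cw w c ≤ 0` (`Opt.low` with `c' = id`; `cw w id = ∑ w i i = 0`).
Let `T1 = {k ∈ T0 : no x with c x = k is in Z}`; `|T1| ≥ |T0| - |Z|` (`k ∈ T0 \ T1` has some
`x ∈ Z` with `c x = k`: `T0 \ T1 ⊆ Z.image c`).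
For `k ∈ T1`: the entries inside the class are `≥ 0` and `wc w c x k ≤ 0` (`opt_own`), so they are all
`0`; `opt_dissolve` gives `x_k` with `c x_k = k` and `1 ≤ wc w c x_k k'` for all used `k' ≠ k`.
For `k ≠ k'` in `T1`: `1 = ∑_{x : c x = k} wc w c x k'`, all terms are `≥ 0` (entries between the two
classes are `≥ 0`), the term of `x_k` is `≥ 1`; so `wc w c x_k k' = 1` and `wc w c x k' = 0` for the
other `x` of the class.  `wc w c x_k k' = ∑_{y : c y = k'} w x_k y = 1`; for `y ≠ x_{k'}` of colour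
`k'`, `wc w c y k = 0` (same argument with `k, k'` exchanged), whose terms are `≥ 0`, so
`w x_k y = 0`.  Hence `w x_k x_{k'} = 1`.
`Q = T1.image (k ↦ x_k)` (injective as `c x_k = k`), `|Q| = |T1| ≥ |T0| + cw w c
≥ |image| + 2 j - 2 s ≥ 4 j - 2 s`.  And `2 W ≤ (2 j + 1) 2 s + (2 j + 2) cw w c ≤ (2 j + 1) 2 s`,
`2 j ≤ 2 s + cw w c ≤ 2 s` (as `|T0| ≤ |image|`). -/
theorem clique_lemma {w : V → V → ℤ} (hw : Sym w) {s W : ℤ} (hs : Sb w s)
    (hW : inn w univ = 2 * W) :
    ∃ (j : ℕ) (Q : Finset V), (j : ℤ) ≤ s ∧ W ≤ (2 * (j : ℤ) + 1) * s ∧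
      4 * (j : ℤ) ≤ (Q.card : ℤ) + 2 * s ∧ ∀ a ∈ Q, ∀ b ∈ Q, a ≠ b → w a b = 1 := by
  obtain ⟨c, hc⟩ := exists_opt w
  have hcw : cw w c ≤ 0 := by
    have h1 := hc.low id
    have h2 : cw w (id : V → V) = 0 := by
      unfold cw
      refine Finset.sum_eq_zero fun i _ => ?_
      refine Finset.sum_eq_zero fun j _ => ?_
      simp only [id]
      split_ifs with h
      · rw [h, hw.diag]
      · rfl
    rw [h2] at h1
    exact h1
  obtain ⟨j, T0, hT0, hones, hj1, hj2, hj3⟩ := ones_classes hw hs hc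
  obtain ⟨Z, hZ1, hZ2⟩ := exists_neg_cover hw hc
  let T1 : Finset V := T0.filter fun k => ∀ x, c x = k → x ∉ Z
  have hT1 : ∀ k, k ∈ T1 ↔ k ∈ T0 ∧ ∀ x, c x = k → x ∉ Z := fun k => by simp [T1]
  have hcard : T0.card ≤ T1.card + Z.card := by
    have h1 : T0 \ T1 ⊆ Z.image c := by
      intro k hk
      rw [Finset.mem_sdiff, hT1] at hk
      obtain ⟨hk1, hk2⟩ := hk
      have h3 : ¬ ∀ x, c x = k → x ∉ Z := fun h => hk2 ⟨hk1, h⟩
      push Not at h3
      obtain ⟨x, hx1, hx2⟩ := h3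
      exact Finset.mem_image.mpr ⟨x, hx2, hx1⟩
    have h2 : (T0 \ T1).card ≤ Z.card := (Finset.card_le_card h1).trans Finset.card_image_le
    have h3 := Finset.card_le_card_sdiff_add_card (s := T0) (t := T1)
    omega
  have hinner : ∀ k ∈ T1, ∀ x y, c x = k → c y = k → w x y = 0 := by
    intro k hk x y hx hy
    rw [hT1] at hk
    have h1 := opt_own hw hc x
    rw [hx] at h1
    unfold wc at h1
    have h2 : ∀ z ∈ univ.filter (fun z => c z = k), 0 ≤ w x z := by
      intro z hz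
      rw [Finset.mem_filter] at hz
      exact hZ2 x (hk.2 x hx) z (hk.2 z hz.2)
    have h3 : ∑ z ∈ univ.filter (fun z => c z = k), w x z = 0 :=
      le_antisymm h1 (Finset.sum_nonneg h2)
    exact (Finset.sum_eq_zero_iff_of_nonneg h2).mp h3 y (by simp [hy])
  have hdis : ∀ k ∈ T1, ∃ x, c x = k ∧ ∀ k' ∈ univ.image c, k' ≠ k → 1 ≤ wc w c x k' := by
    intro k hk
    exact opt_dissolve hw hc k (hT0 ((hT1 k).mp hk).1) (hinner k hk)
  choose! r hr1 hr2 using hdis
  have hnn : ∀ k ∈ T1, ∀ k' ∈ T1, ∀ x, c x = k → 0 ≤ wc w c x k' := by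
    intro k hk k' hk' x hx
    unfold wc
    refine Finset.sum_nonneg fun z hz => ?_
    rw [Finset.mem_filter] at hz
    exact hZ2 x (((hT1 k).mp hk).2 x hx) z (((hT1 k').mp hk').2 z hz.2)
  have hAB : ∀ k ∈ T1, ∀ k' ∈ T1, k ≠ k' → wc w c (r k) k' = 1 ∧
      ∀ x, c x = k → x ≠ r k → wc w c x k' = 0 := by
    intro k hk k' hk' hkk
    have h1 := hones k ((hT1 k).mp hk).1 k' ((hT1 k').mp hk').1 hkk
    have hmem : r k ∈ univ.filter (fun x => c x = k) := by simp [hr1 k hk]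
    rw [← Finset.add_sum_erase _ _ hmem] at h1
    have h2 := hr2 k hk k' (hT0 ((hT1 k').mp hk').1) hkk.symm
    have h3 : ∀ x ∈ (univ.filter (fun x => c x = k)).erase (r k), 0 ≤ wc w c x k' := by
      intro x hx
      rw [Finset.mem_erase, Finset.mem_filter] at hx
      exact hnn k hk k' hk' x hx.2.2
    have h4 := Finset.sum_nonneg h3
    refine ⟨by linarith, ?_⟩
    have h5 : ∑ x ∈ (univ.filter (fun x => c x = k)).erase (r k), wc w c x k' = 0 := by linarith
    intro x hx hxr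
    refine (Finset.sum_eq_zero_iff_of_nonneg h3).mp h5 x ?_
    rw [Finset.mem_erase, Finset.mem_filter]
    exact ⟨hxr, Finset.mem_univ _, hx⟩
  have hone : ∀ k ∈ T1, ∀ k' ∈ T1, k ≠ k' → w (r k) (r k') = 1 := by
    intro k hk k' hk' hkk
    have h1 := (hAB k hk k' hk' hkk).1
    unfold wc at h1
    rw [Finset.sum_eq_single (r k')] at h1
    · exact h1
    · intro y hy hyr
      rw [Finset.mem_filter] at hy
      have h2 := (hAB k' hk' k hk hkk.symm).2 y hy.2 hyr
      unfold wc at h2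
      have h3 : ∀ z ∈ univ.filter (fun z => c z = k), 0 ≤ w y z := by
        intro z hz
        rw [Finset.mem_filter] at hz
        exact hZ2 y (((hT1 k').mp hk').2 y hy.2) z (((hT1 k).mp hk).2 z hz.2)
      rw [hw.symm]
      exact (Finset.sum_eq_zero_iff_of_nonneg h3).mp h2 (r k) (by simp [hr1 k hk])
    · intro h
      exact absurd (by simp [hr1 k' hk']) h
  have hinj : Set.InjOn r (T1 : Set V) := by
    intro a ha b hb hab
    rw [← hr1 a ha, ← hr1 b hb, hab]
  refine ⟨j, T1.image r, ?_, ?_, ?_, ?_⟩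
  · have h1 : (T0.card : ℤ) ≤ ((univ.image c).card : ℤ) := by
      exact_mod_cast Finset.card_le_card hT0
    linarith
  · rw [hW] at hj3
    nlinarith [mul_nonneg (Nat.cast_nonneg (α := ℤ) j) (neg_nonneg.mpr hcw)]
  · rw [Finset.card_image_of_injOn hinj]
    have h1 : (T0.card : ℤ) ≤ (T1.card : ℤ) + (Z.card : ℤ) := by exact_mod_cast hcard
    linarith
  · intro a ha b hb hab
    obtain ⟨k, hk, rfl⟩ := Finset.mem_image.mp ha
    obtain ⟨k', hk', rfl⟩ := Finset.mem_image.mp hb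
    exact hone k hk k' hk' (fun h => hab (by rw [h]))

end Pool.Agent.MP_710317_co.Rec
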