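import Pool.Agent.MP_710317_co.Rec.ClqDefs

namespace Pool.Agent.MP_710317_co.Rec

open Finset Pool.Agent.MP_710317_co

variable {V : Type*} [Fintype V] [DecidableEq V]

/-- the colouring with values in the used colours -/
def Quot_c (c : V → V) (x : V) : {k // k ∈ univ.image c} :=
  ⟨c x, mem_image_of_mem c (mem_univ x)⟩

theorem Quot_c_eq (c : V → V) (x : V) (k : {k // k ∈ univ.image c}) :
    Quot_c c x = k ↔ c x = k := by
  constructor
  · intro h
    rw [← h]
    rfl
  · intro h
    exact Subtype.ext h

theorem Quot_fiber (w : V → V → ℤ) (c : V → V)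
    (F : {k // k ∈ univ.image c} → {k // k ∈ univ.image c} → ℤ) :
    ∑ k, ∑ k', quot w c k k' * F k k' =
      ∑ x, ∑ y, (if c x = c y then 0 else w x y) * F (Quot_c c x) (Quot_c c y) := by
  have h1 : ∀ k, ∑ k', quot w c k k' * F k k' = ∑ x ∈ univ.filter (fun x => Quot_c c x = k),
      ∑ y, (if c x = c y then 0 else w x y) * F (Quot_c c x) (Quot_c c y) := by
    intro k
    have h2 : ∀ k', quot w c k k' * F k k' = ∑ x ∈ univ.filter (fun x => Quot_c c x = k),
        ∑ y ∈ univ.filter (fun y => Quot_c c y = k'),
        (if c x = c y then 0 else w x y) * F (Quot_c c x) (Quot_c c y) := by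
      intro k'
      have h3 : ∑ x ∈ univ.filter (fun x => Quot_c c x = k),
          ∑ y ∈ univ.filter (fun y => Quot_c c y = k'),
          (if c x = c y then 0 else w x y) * F (Quot_c c x) (Quot_c c y) =
          ∑ x ∈ univ.filter (fun x => Quot_c c x = k),
          ∑ y ∈ univ.filter (fun y => Quot_c c y = k'),
          (if k = k' then 0 else w x y) * F k k' := by
        refine Finset.sum_congr rfl (fun x hx => Finset.sum_congr rfl (fun y hy => ?_))
        rw [Finset.mem_filter] at hx hy
        rw [hx.2, hy.2]
        have e1 : (c x = c y) ↔ (k = k') := by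
          rw [← hx.2, ← hy.2]
          constructor
          · intro h
            exact Subtype.ext h
          · intro h
            exact congrArg Subtype.val h
        simp only [e1]
      rw [h3]
      unfold quot wc
      by_cases hk : k = k'
      · simp [hk]
      · simp only [if_neg hk]
        rw [Finset.sum_mul]
        refine Finset.sum_congr ?_ (fun x _ => ?_)
        · ext x
          simp only [Finset.mem_filter, Finset.mem_univ, true_and]
          exact (Quot_c_eq c x k).symm
        · rw [Finset.sum_mul]
          refine Finset.sum_congr ?_ (fun y _ => rfl)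
          ext y
          simp only [Finset.mem_filter, Finset.mem_univ, true_and]
          exact (Quot_c_eq c y k').symm
    rw [Finset.sum_congr rfl (fun k' _ => h2 k'), Finset.sum_comm]
    refine Finset.sum_congr rfl (fun x _ => ?_)
    exact Finset.sum_fiberwise univ (Quot_c c) _
  rw [Finset.sum_congr rfl (fun k _ => h1 k)]
  exact Finset.sum_fiberwise univ (Quot_c c) _

/-- [RQ-QUOT]  Proofs: double sums; symmetry of `quot` is symmetry of `w`.
`quot_en`: group `∑_{x,y} w x y e(c x) e(c y)` by the colours of `x`, `y`; the pairs with equal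
colours give `cw w c` (`e² = 1`), the others `∑_{k≠k'} quot k k' e k e k'`.
`quot_inn` is the same with `e = 1`.  `cw_even`: a double sum of a symmetric function with zero
diagonal is even (`Finset.induction_on` over the vertex set, or pair `i < j` with `j < i`). -/
theorem quot_sym {w : V → V → ℤ} (hw : Sym w) (c : V → V) : Sym (quot w c) := by
  constructor
  · intro k k'
    unfold quot wc
    by_cases hk : k = k'
    · subst hk
      rfl
    · rw [if_neg hk, if_neg (fun h => hk h.symm), Finset.sum_comm]
      exact Finset.sum_congr rfl fun y _ => Finset.sum_congr rfl fun x _ => hw.symm x y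
  · intro k
    unfold quot
    rw [if_pos rfl]

theorem quot_en (w : V → V → ℤ) (c : V → V) (e : {k // k ∈ univ.image c} → ℤ) (he : IsSign e) :
    en (quot w c) e = en w (fun x => e ⟨c x, mem_image_of_mem c (mem_univ x)⟩) + cw w c := by
  have h1 := Quot_fiber w c (fun k k' => e k * e k')
  have h2 : ∀ x y : V, (if c x = c y then 0 else w x y) * (e (Quot_c c x) * e (Quot_c c y)) =
      w x y * e (Quot_c c x) * e (Quot_c c y) - (if c x = c y then w x y else 0) := by
    intro x y
    by_cases hxy : c x = c y
    · have h3 : Quot_c c x = Quot_c c y := Subtype.ext hxy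
      have h4 : e (Quot_c c y) * e (Quot_c c y) = 1 := by
        rcases he (Quot_c c y) with h | h <;> rw [h] <;> norm_num
      rw [if_pos hxy, if_pos hxy, h3, mul_assoc, h4]
      ring
    · rw [if_neg hxy, if_neg hxy]
      ring
  have h3 : ∑ x, ∑ y, (if c x = c y then 0 else w x y) * (e (Quot_c c x) * e (Quot_c c y)) =
      ∑ x, ∑ y, w x y * e (Quot_c c x) * e (Quot_c c y) - cw w c := by
    unfold cw
    rw [← Finset.sum_sub_distrib]
    refine Finset.sum_congr rfl (fun x _ => ?_)
    rw [← Finset.sum_sub_distrib]
    exact Finset.sum_congr rfl (fun y _ => h2 x y)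
  have h4 : ∑ k, ∑ k', quot w c k k' * e k * e k' = ∑ k, ∑ k', quot w c k k' * (e k * e k') :=
    Finset.sum_congr rfl (fun k _ => Finset.sum_congr rfl (fun k' _ => mul_assoc _ _ _))
  unfold en
  rw [h4, h1, h3]
  change -(∑ x, ∑ y, w x y * e (Quot_c c x) * e (Quot_c c y) - cw w c) =
    -(∑ x, ∑ y, w x y * e (Quot_c c x) * e (Quot_c c y)) + cw w c
  ring

theorem quot_inn (w : V → V → ℤ) (c : V → V) :
    inn (quot w c) univ = inn w univ - cw w c := by
  have h1 := Quot_fiber w c (fun _ _ => 1)
  simp only [mul_one] at h1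
  unfold inn cw
  rw [h1, ← Finset.sum_sub_distrib]
  refine Finset.sum_congr rfl (fun x _ => ?_)
  rw [← Finset.sum_sub_distrib]
  refine Finset.sum_congr rfl (fun y _ => ?_)
  by_cases hxy : c x = c y
  · rw [if_pos hxy, if_pos hxy]
    ring
  · rw [if_neg hxy, if_neg hxy]
    ring

theorem Quot_even {w : V → V → ℤ} (hw : Sym w) (S : Finset V) :
    ∃ h : ℤ, ∑ i ∈ S, ∑ j ∈ S, w i j = 2 * h := by
  induction S using Finset.induction_on with
  | empty => exact ⟨0, by simp⟩
  | insert a S ha ih =>
    obtain ⟨h, hh⟩ := ih
    refine ⟨h + ∑ j ∈ S, w a j, ?_⟩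
    rw [Finset.sum_insert ha, Finset.sum_insert ha, hw.diag a]
    have h1 : ∑ i ∈ S, ∑ j ∈ insert a S, w i j = ∑ i ∈ S, (w a i + ∑ j ∈ S, w i j) := by
      refine Finset.sum_congr rfl (fun i _ => ?_)
      rw [Finset.sum_insert ha, hw.symm i a]
    rw [h1, Finset.sum_add_distrib, hh]
    ring

theorem cw_even {w : V → V → ℤ} (hw : Sym w) (c : V → V) : ∃ h : ℤ, cw w c = 2 * h := by
  apply Quot_even (w := fun i j => if c i = c j then w i j else 0)
  constructor
  · intro i j
    by_cases h : c i = c j
    · simp [h, hw.symm i j]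
    · simp [h, Ne.symm h]
  · intro i
    simp [hw.diag i]

end Pool.Agent.MP_710317_co.Rec
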