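import Mathlib

namespace Pool.Agent.MP_710317_co.Rec

open Finset

section maxp
variable {C : Type*} [Fintype C] [DecidableEq C]

theorem maxp_diff (ω : C → C → ℤ) (τ τ' : C → C) (i j : C) (hij : i ≠ j)
    (h : ∀ x, x ≠ i → x ≠ j → τ' x = τ x) :
    ∑ x, ω x (τ' x) = ∑ x, ω x (τ x) + (ω i (τ' i) - ω i (τ i)) + (ω j (τ' j) - ω j (τ j)) := by
  have h1 : ∑ x, (ω x (τ' x) - ω x (τ x)) = ∑ x ∈ ({i, j} : Finset C), (ω x (τ' x) - ω x (τ x)) := by
    symm
    apply Finset.sum_subset (Finset.subset_univ _)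
    intro x _ hx
    rw [Finset.mem_insert, Finset.mem_singleton, not_or] at hx
    rw [h x hx.1 hx.2, sub_self]
  rw [Finset.sum_sub_distrib, Finset.sum_pair hij] at h1
  linarith

/-- make `i` and `τ i` fixed points -/
theorem maxp_cut (ω : C → C → ℤ) (hsym : ∀ i j, ω i j = ω j i) (hdiag : ∀ i, ω i i = 0)
    (τ : C → C) (hτ : ∀ x, τ (τ x) = x) (i : C) :
    ∃ τ' : C → C, (∀ x, τ' (τ' x) = x) ∧ τ' i = i ∧ τ' (τ i) = τ i ∧
      (∀ x, x ≠ i → x ≠ τ i → τ' x = τ x) ∧
      ∑ x, ω x (τ' x) = ∑ x, ω x (τ x) - 2 * ω i (τ i) := by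
  by_cases hi : τ i = i
  · exact ⟨τ, hτ, hi, by rw [hi, hi], fun _ _ _ => rfl, by rw [hi, hdiag]; ring⟩
  · refine ⟨fun x => if x = i ∨ x = τ i then x else τ x, ?_, ?_, ?_, ?_, ?_⟩
    · intro x
      by_cases hx : x = i ∨ x = τ i
      · simp only [hx, if_true]
      · have hx' : ¬ (τ x = i ∨ τ x = τ i) := by
          rintro (h | h)
          · exact hx (Or.inr (by rw [← h, hτ]))
          · exact hx (Or.inl (by rw [← hτ x, h, hτ]))
        simp only [hx, hx', if_false, hτ]
    · simp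
    · simp
    · intro x h1 h2
      simp [h1, h2]
    · rw [maxp_diff ω τ _ i (τ i) (Ne.symm hi) (fun x h1 h2 => by simp [h1, h2])]
      simp only [true_or, or_true, if_true]
      rw [hτ, hdiag, hdiag, hsym (τ i) i]
      ring

/-- join two fixed points -/
theorem maxp_join (ω : C → C → ℤ) (hsym : ∀ i j, ω i j = ω j i) (hdiag : ∀ i, ω i i = 0)
    (τ : C → C) (hτ : ∀ x, τ (τ x) = x) (i j : C) (hij : i ≠ j) (hi : τ i = i) (hj : τ j = j) :
    ∃ τ' : C → C, (∀ x, τ' (τ' x) = x) ∧
      (∀ x, x ≠ i → x ≠ j → τ' x = τ x) ∧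
      ∑ x, ω x (τ' x) = ∑ x, ω x (τ x) + 2 * ω i j := by
  refine ⟨fun x => if x = i then j else if x = j then i else τ x, ?_, ?_, ?_⟩
  · intro x
    by_cases hx : x = i
    · subst hx
      simp [hij.symm]
    · by_cases hx' : x = j
      · subst hx'
        simp [hx]
      · have h1 : τ x ≠ i := by
          intro h
          exact hx (by rw [← hτ x, h, hi])
        have h2 : τ x ≠ j := by
          intro h
          exact hx' (by rw [← hτ x, h, hj])
        simp [hx, hx', h1, h2, hτ]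
  · intro x h1 h2
    simp [h1, h2]
  · rw [maxp_diff ω τ _ i j hij (fun x h1 h2 => by simp [h1, h2])]
    simp only [if_true, hij.symm, if_false]
    rw [hi, hj, hdiag, hdiag, hsym j i]
    ring

end maxp

/-- [RQ-MAXP]  Combinatorial lemma on a largest weight pairing.

Proof.  The set of involutions `τ : C → C` is finite and contains `id`: choose `τ` with the largest
`Φ τ = ∑ i, ω i (τ i)`.  `T0 = {i : ω i (τ i) ≤ 1}`.
(1) `τ` has at most one fixed point: if `i ≠ j` are fixed, exchange them (`τ' i = j`, `τ' j = i`):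
`Φ` grows by `2 ω i j ≥ 2`.
(2) `i ≠ j` in `T0` have `ω i j = 1`: suppose `ω i j ≥ 2`.  Then `τ i ≠ j` (as `ω i (τ i) ≤ 1`),
`τ j ≠ i`.  Let `i' = τ i`, `j' = τ j` and let `τ'` exchange `i, j` and send `i' ↦ j'`, `j' ↦ i'` if
`i' ≠ i` and `j' ≠ j`; fix `j'` if `i' = i`, `j' ≠ j`; fix `i'` if `j' = j`, `i' ≠ i`; (both fixed is
case (1)); and `τ' = τ` elsewhere.  The change of `Φ` is at least `2*2 + 2*1 - 2*1 - 2*1 > 0` in the
first case (old: `2 ω i i' + 2 ω j j' ≤ 4`, new: `2 ω i j + 2 ω i' j' ≥ 6`) and `≥ 4 - 2 > 0` in the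
others.  Contradiction.
(3) `Φ τ ≥ 2 (|C| - |T0|) + (|T0| - #fixed)` (points outside `T0` have `ω i (τ i) ≥ 2`, non-fixed
points `≥ 1`, fixed points `= 0`, and they lie in `T0`), `#fixed ≤ 1` and `|C| - #fixed` is even
(`Function.Involutive` / `Equiv.Perm` parity: `Equiv.Perm.card_fixedPoints_modEq` or
`Function.Involutive.card_fixedPoints...`), so `|C| - #fixed = 2 (|C|/2)`.  And `Φ τ ≤ 2 s`. -/
theorem max_pairing {C : Type*} [Fintype C] [DecidableEq C] (ω : C → C → ℤ)
    (hsym : ∀ i j, ω i j = ω j i) (hdiag : ∀ i, ω i i = 0) (h1 : ∀ i j, i ≠ j → 1 ≤ ω i j)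
    (s : ℤ) (h : ∀ τ : C → C, (∀ i, τ (τ i) = i) → ∑ i, ω i (τ i) ≤ 2 * s) :
    ∃ T0 : Finset C, (∀ i ∈ T0, ∀ j ∈ T0, i ≠ j → ω i j = 1) ∧
      2 * ((Fintype.card C / 2 : ℕ) : ℤ) + ((Fintype.card C : ℤ) - (T0.card : ℤ)) ≤ 2 * s := by
  classical
  obtain ⟨τ, hτm, hmax⟩ := Finset.exists_max_image
    ((univ : Finset (C → C)).filter fun τ => ∀ i, τ (τ i) = i) (fun τ => ∑ i, ω i (τ i))
    ⟨id, by simp⟩
  have hτ : ∀ x, τ (τ x) = x := (Finset.mem_filter.1 hτm).2
  have hmax' : ∀ τ' : C → C, (∀ x, τ' (τ' x) = x) → ∑ i, ω i (τ' i) ≤ ∑ i, ω i (τ i) := by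
    intro τ' h'
    exact hmax τ' (Finset.mem_filter.2 ⟨Finset.mem_univ _, h'⟩)
  have hinj : ∀ x y, τ x = τ y → x = y := fun x y hxy => by rw [← hτ x, hxy, hτ]
  let T0 : Finset C := univ.filter fun i => ω i (τ i) ≤ 1
  have hT0 : ∀ i, i ∈ T0 ↔ ω i (τ i) ≤ 1 := fun i => by simp [T0]
  refine ⟨T0, ?_, ?_⟩
  · intro i hi j hj hij
    rw [hT0] at hi hj
    by_contra hne
    have h2 : 2 ≤ ω i j := by
      have := h1 i j hij
      omega
    have hij1 : τ i ≠ j := by
      intro h'
      rw [h'] at hi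
      omega
    have hji1 : τ j ≠ i := by
      intro h'
      exact hij1 (by rw [← h', hτ])
    have hii' : τ i ≠ τ j := fun h' => hij (hinj _ _ h')
    obtain ⟨τa, ha, hai, hai', hax, hasum⟩ := maxp_cut ω hsym hdiag τ hτ i
    have haj : τa j = τ j := hax j hij.symm (Ne.symm hij1)
    obtain ⟨τb, hb, hbj, hbj', hbx, hbsum⟩ := maxp_cut ω hsym hdiag τa ha j
    rw [haj] at hbj' hbx hbsum
    have hbi : τb i = i := by rw [hbx i hij (Ne.symm hji1), hai]
    obtain ⟨τc, hc, hcx, hcsum⟩ := maxp_join ω hsym hdiag τb hb i j hij hbi hbj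
    have hC := hmax' τc hc
    by_cases hfi : τ i = i
    · rw [hfi, hdiag] at hasum
      omega
    · by_cases hfj : τ j = j
      · rw [hfj, hdiag] at hbsum
        omega
      · have hci : τc (τ i) = τ i := by
          rw [hcx (τ i) hfi hij1, hbx (τ i) hij1 hii', hai']
        have hcj : τc (τ j) = τ j := by
          rw [hcx (τ j) hji1 hfj, hbj']
        obtain ⟨τd, hd, -, hdsum⟩ := maxp_join ω hsym hdiag τc hc (τ i) (τ j) hii' hci hcj
        have hD := hmax' τd hd
        have := h1 (τ i) (τ j) hii'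
        omega
  · have hfix : (univ.filter fun x => τ x = x).card ≤ 1 := by
      rw [Finset.card_le_one]
      intro a ha b hb
      by_contra hab
      have ha' : τ a = a := (Finset.mem_filter.1 ha).2
      have hb' : τ b = b := (Finset.mem_filter.1 hb).2
      obtain ⟨τc, hc, -, hcsum⟩ := maxp_join ω hsym hdiag τ hτ a b hab ha' hb'
      have hC := hmax' τc hc
      have := h1 a b hab
      omega
    have hpar : Fintype.card C ≡ (univ.filter fun x => τ x = x).card [MOD 2] := by
      have : Fact (Nat.Prime 2) := ⟨Nat.prime_two⟩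
      have h3 := Equiv.Perm.card_fixedPoints_modEq (f := (τ : Function.End C)) (p := 2) (n := 1) (by
        funext x
        exact hτ x)
      have h4 : Fintype.card (Function.fixedPoints (τ : Function.End C)) =
          (univ.filter fun x => τ x = x).card := by
        rw [Fintype.card_subtype]
        congr 1
      rwa [h4] at h3
    have hlow : (∑ x : C, ((if x ∈ T0 then 0 else 1) + (if τ x = x then 0 else 1) : ℤ)) ≤
        ∑ x, ω x (τ x) := by
      refine Finset.sum_le_sum fun x _ => ?_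
      by_cases hx : x ∈ T0
      · by_cases hxf : τ x = x
        · simp only [hx, if_true, hxf, hdiag]
          omega
        · have := h1 x (τ x) (Ne.symm hxf)
          simp only [hx, if_true, hxf, if_false]
          omega
      · have h3 : 2 ≤ ω x (τ x) := by
          rw [hT0] at hx
          omega
        simp only [hx, if_false]
        split_ifs <;> omega
    have h5 : (∑ x : C, ((if x ∈ T0 then 0 else 1) + (if τ x = x then 0 else 1) : ℤ)) =
        ((Fintype.card C : ℤ) - (T0.card : ℤ)) +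
          ((Fintype.card C : ℤ) - ((univ.filter fun x => τ x = x).card : ℤ)) := by
      rw [Finset.sum_add_distrib]
      congr 1
      · have h6 : ∑ x : C, (if x ∈ T0 then (0 : ℤ) else 1) =
            ∑ x : C, ((1 : ℤ) - if x ∈ T0 then 1 else 0) := by
          refine Finset.sum_congr rfl fun x _ => ?_
          split_ifs <;> simp
        rw [h6, Finset.sum_sub_distrib]
        simp
      · have h6 : ∑ x : C, (if τ x = x then (0 : ℤ) else 1) =
            ∑ x : C, ((1 : ℤ) - if τ x = x then 1 else 0) := by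
          refine Finset.sum_congr rfl fun x _ => ?_
          split_ifs <;> simp
        rw [h6, Finset.sum_sub_distrib]
        simp
    have h7 := h τ hτ
    rw [h5] at hlow
    unfold Nat.ModEq at hpar
    omega

end Pool.Agent.MP_710317_co.Rec
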