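import Pool.Agent.MP_710317_co.Rec.Pair

namespace Pool.Agent.MP_710317_co.Rec

open Finset Pool.Agent.MP_710317_co

/-- [RQ-ODD]  Averaging over `M = 2 (N/2) + 1` near-perfect matchings of `N ≤ M` points.

Proof.  Let `C` have `N` points and `φ : C → ZMod M` be injective (`N ≤ M`).  For `c : ZMod M` let
`τ c i` be the point `i'` with `φ i' = c - φ i` if there is one, and `i` otherwise.  `τ c` is an
involution, so `∑ i, w i (τ c i) ≤ 2 s` by `pair_bound`.  Sum over the `M` values of `c`: for
`i ≠ i'` exactly one `c` (namely `φ i + φ i'`) has `τ c i = i'`, and `w i i = 0`, so the sum of the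
left sides is `inn w univ`.  (Write `w i (τ c i) = ∑ i', if φ i + φ i' = c then w i i' else 0`, valid
as `w i i = 0`.) -/
theorem odd_average {C : Type*} [Fintype C] [DecidableEq C] {w : C → C → ℤ} (hw : Sym w) {s : ℤ}
    (hs : Sb w s) :
    inn w univ ≤ 2 * (2 * ((Fintype.card C / 2 : ℕ) : ℤ) + 1) * s := by
  classical
  obtain ⟨M, hM⟩ : ∃ M : ℕ, M = 2 * (Fintype.card C / 2) + 1 := ⟨_, rfl⟩
  haveI : NeZero M := ⟨by omega⟩
  obtain ⟨φ, hφ⟩ : ∃ φ : C → ZMod M, Function.Injective φ := by
    have h1 : Fintype.card C ≤ Fintype.card (ZMod M) := by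
      rw [ZMod.card]; omega
    obtain ⟨f⟩ := Function.Embedding.nonempty_of_card_le h1
    exact ⟨f, f.injective⟩
  have hτ : ∀ c : ZMod M, ∃ τ : C → C, (∀ i, τ (τ i) = i) ∧
      ∀ i, w i (τ i) = ∑ i', if φ i + φ i' = c then w i i' else 0 := by
    intro c
    refine ⟨fun i => if h : ∃ i', φ i' = c - φ i then h.choose else i, ?_, ?_⟩
    · intro i
      by_cases h : ∃ i', φ i' = c - φ i
      · have h1 := h.choose_spec
        simp only [dif_pos h]
        have h2 : ∃ i', φ i' = c - φ h.choose := ⟨i, by rw [h1]; ring⟩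
        rw [dif_pos h2]
        apply hφ
        rw [h2.choose_spec, h1]
        ring
      · simp only [dif_neg h]
    · intro i
      by_cases h : ∃ i', φ i' = c - φ i
      · have h1 := h.choose_spec
        simp only [dif_pos h]
        rw [Finset.sum_eq_single h.choose]
        · rw [if_pos]
          rw [h1]; ring
        · intro j _ hj
          rw [if_neg]
          intro h3
          apply hj
          apply hφ
          rw [h1, ← h3]; ring
        · intro h3; exact absurd (Finset.mem_univ _) h3
      · simp only [dif_neg h]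
        rw [hw.diag]
        symm
        apply Finset.sum_eq_zero
        intro j _
        rw [if_neg]
        intro h3
        exact h ⟨j, by rw [← h3]; ring⟩
  choose τ hτ1 hτ2 using hτ
  have h3 : ∑ c : ZMod M, ∑ i, w i (τ c i) ≤ ∑ _c : ZMod M, 2 * s :=
    Finset.sum_le_sum fun c _ => pair_bound hw hs (τ c) (hτ1 c)
  have h4 : ∑ c : ZMod M, ∑ i, w i (τ c i) = inn w univ := by
    simp only [hτ2]
    rw [Finset.sum_comm]
    unfold inn
    apply Finset.sum_congr rfl
    intro i _
    rw [Finset.sum_comm]
    apply Finset.sum_congr rfl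
    intro j _
    rw [Finset.sum_ite_eq]
    simp
  rw [h4, Finset.sum_const, Finset.card_univ, ZMod.card, nsmul_eq_mul] at h3
  rw [hM] at h3
  push_cast at h3 ⊢
  linarith

end Pool.Agent.MP_710317_co.Rec
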