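import Pool.Agent.MP_710317_co.Rec.Part
import Pool.Agent.MP_710317_co.Rec.OddA
import Pool.Agent.MP_710317_co.Rec.MaxP

namespace Pool.Agent.MP_710317_co.Rec

open Finset Pool.Agent.MP_710317_co

variable {V : Type*} [Fintype V] [DecidableEq V]

/-- the weights between the classes of `c` (on the used colours) -/
def quot (w : V → V → ℤ) (c : V → V) (k k' : {k // k ∈ univ.image c}) : ℤ :=
  if k = k' then 0 else ∑ x ∈ univ.filter (fun x => c x = k), wc w c x (k' : V)

end Pool.Agent.MP_710317_co.Rec
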