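import Pool.Agent.MP_710317_co.Rec.Supp1

namespace Pool.Agent.MP_710317_co.Rec

open Finset Pool.Agent.MP_710317_co

variable {V : Type*} [Fintype V] [DecidableEq V]

/-- [RQ-SIGNPAIR]  Matchings with signs: `∑ |w i (τ i)| ≤ 2 s`.
Proof.  As `pair_bound`, with `e b = - e a` if `w a b ≥ 0` and `e b = e a` if `w a b < 0`.  (Or apply
`pair_bound` to the matrix `w' i j = w i j * d i * d j` where `d` is a sign vector with
`w i (τ i) * d i * d (τ i) = |w i (τ i)|`: `Sb w' s` holds as `en w' e = en w (d * e)`.) -/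
theorem abs_pair_bound {w : V → V → ℤ} (hw : Sym w) {s : ℤ} (hs : Sb w s) (τ : V → V)
    (hτ : ∀ i, τ (τ i) = i) : ∑ i, |w i (τ i)| ≤ 2 * s := by
  classical
  let g := Fintype.equivFin V
  obtain ⟨d, hd⟩ : ∃ d : V → ℤ, d = fun i => if g i < g (τ i) ∧ w i (τ i) < 0 then -1 else 1 :=
    ⟨_, rfl⟩
  have hd1 : IsSign d := by
    intro i
    rw [hd]
    by_cases h : g i < g (τ i) ∧ w i (τ i) < 0
    · right; simp only [if_pos h]
    · left; simp only [if_neg h]
  have hd2 : ∀ i, w i (τ i) * d i * d (τ i) = |w i (τ i)| := by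
    intro i
    by_cases hi : τ i = i
    · rw [hi, hw.diag]; simp
    · have hne : g i ≠ g (τ i) := fun h => hi (g.injective h).symm
      have e1 : d i = if g i < g (τ i) ∧ w i (τ i) < 0 then -1 else 1 := by rw [hd]
      have e2 : d (τ i) = if g (τ i) < g i ∧ w i (τ i) < 0 then -1 else 1 := by
        rw [hd]
        simp only [hτ]
        rw [hw.symm (τ i) i]
      rcases lt_or_gt_of_ne hne with h | h
      · have e3 : d (τ i) = 1 := by rw [e2, if_neg (fun h' => absurd h'.1 (not_lt.2 h.le))]
        rw [e3, e1]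
        by_cases h3 : w i (τ i) < 0
        · rw [if_pos ⟨h, h3⟩, abs_of_neg h3]; ring
        · rw [if_neg (fun h' => h3 h'.2), abs_of_nonneg (not_lt.1 h3)]; ring
      · have e3 : d i = 1 := by rw [e1, if_neg (fun h' => absurd h'.1 (not_lt.2 h.le))]
        rw [e3, e2]
        by_cases h3 : w i (τ i) < 0
        · rw [if_pos ⟨h, h3⟩, abs_of_neg h3]; ring
        · rw [if_neg (fun h' => h3 h'.2), abs_of_nonneg (not_lt.1 h3)]; ring
  have hsym : Sym (fun i j => w i j * d i * d j) :=
    ⟨fun i j => by rw [hw.symm i j]; ring, fun i => by rw [hw.diag]; ring⟩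
  have hSb : Sb (fun i j => w i j * d i * d j) s := by
    intro e he
    have h1 : IsSign (fun i => d i * e i) := by
      intro i
      rcases hd1 i with h | h <;> rcases he i with h' | h' <;> simp only [h, h'] <;> norm_num
    have h2 : en (fun i j => w i j * d i * d j) e = en w (fun i => d i * e i) := by
      unfold en
      congr 1
      apply Finset.sum_congr rfl
      intro i _
      apply Finset.sum_congr rfl
      intro j _
      ring
    rw [h2]
    exact hs _ h1
  have h3 := pair_bound hsym hSb τ hτ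
  calc ∑ i, |w i (τ i)| = ∑ i, w i (τ i) * d i * d (τ i) :=
        Finset.sum_congr rfl fun i _ => (hd2 i).symm
    _ ≤ 2 * s := h3

end Pool.Agent.MP_710317_co.Rec
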