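import Pool.Agent.MP_710317_co.Rec.Supp2

namespace Pool.Agent.MP_710317_co.Rec

open Finset Pool.Agent.MP_710317_co

variable {V : Type*} [Fintype V] [DecidableEq V]

/-- [RQ-SUPP]  The number of non-zero rows is at most `3 s`.
Proof.  Choose an involution `τ` with `τ i ≠ i → w i (τ i) ≠ 0` (predicate) and with the largest
number of non-fixed points (exists: `id` has the property, finitely many functions).  Let
`M = {i : τ i ≠ i}`; `abs_pair_bound` gives `|M| ≤ ∑ |w i (τ i)| ≤ 2 s`.  Let
`I = {i : τ i = i ∧ ∃ u, w i u ≠ 0}`.  For `u ≠ v` in `I` we have `w u v = 0` (otherwise put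
`τ u = v, τ v = u`), also `w u u = 0`; so `|I| ≤ s` by `indep_bound`.  Every non-zero row is in
`M ∪ I`. -/
theorem support_bound {w : V → V → ℤ} (hw : Sym w) {s : ℤ} (hs : Sb w s) :
    (((univ.filter fun v => ∃ u, w v u ≠ 0).card : ℕ) : ℤ) ≤ 3 * s := by
  classical
  obtain ⟨τ, hτ, hmax⟩ := Finset.exists_max_image
    (univ.filter fun τ : V → V => (∀ i, τ (τ i) = i) ∧ ∀ i, τ i ≠ i → w i (τ i) ≠ 0)
    (fun τ => (univ.filter fun i => τ i ≠ i).card)
    ⟨id, Finset.mem_filter.2 ⟨Finset.mem_univ _, fun _ => rfl, fun i hi => absurd rfl hi⟩⟩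
  obtain ⟨hinv, hnz⟩ := (Finset.mem_filter.1 hτ).2
  set M := univ.filter fun i => τ i ≠ i with hM
  set I := univ.filter fun i => τ i = i ∧ ∃ u, w i u ≠ 0 with hI
  have h1 : (M.card : ℤ) ≤ 2 * s := by
    refine le_trans ?_ (abs_pair_bound hw hs τ hinv)
    have h2 : (M.card : ℤ) ≤ ∑ i ∈ M, |w i (τ i)| := by
      have : (M.card : ℤ) = ∑ _i ∈ M, (1 : ℤ) := by simp
      rw [this]
      exact Finset.sum_le_sum (fun i hi => Int.one_le_abs (hnz i (Finset.mem_filter.1 hi).2))
    exact h2.trans (Finset.sum_le_sum_of_subset_of_nonneg (Finset.subset_univ _)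
      (fun _ _ _ => abs_nonneg _))
  have h3 : (I.card : ℤ) ≤ s := by
    refine indep_bound hw hs I ?_ (fun u hu => (Finset.mem_filter.1 hu).2.2)
    intro u hu v hv
    by_contra huv
    have hne : u ≠ v := by
      rintro rfl
      exact huv (hw.diag u)
    have hu1 := (Finset.mem_filter.1 hu).2.1
    have hv1 := (Finset.mem_filter.1 hv).2.1
    let τ' : V → V := fun i => if i = u then v else if i = v then u else τ i
    have t1 : τ' u = v := if_pos rfl
    have t2 : τ' v = u := by
      show (if v = u then v else if v = v then u else τ v) = u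
      rw [if_neg hne.symm, if_pos rfl]
    have t3 : ∀ i, i ≠ u → i ≠ v → τ' i = τ i := by
      intro i h h'
      show (if i = u then v else if i = v then u else τ i) = τ i
      rw [if_neg h, if_neg h']
    have hmem : τ' ∈ univ.filter fun τ : V → V =>
        (∀ i, τ (τ i) = i) ∧ ∀ i, τ i ≠ i → w i (τ i) ≠ 0 := by
      refine Finset.mem_filter.2 ⟨Finset.mem_univ _, ?_, ?_⟩
      · intro i
        by_cases hiu : i = u
        · rw [hiu, t1, t2]
        · by_cases hiv : i = v
          · rw [hiv, t2, t1]
          · rw [t3 i hiu hiv, t3 (τ i)]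
            · exact hinv i
            · intro h
              apply hiu
              rw [← hinv i, h, hu1]
            · intro h
              apply hiv
              rw [← hinv i, h, hv1]
      · intro i hi
        by_cases hiu : i = u
        · rw [hiu, t1]; exact huv
        · by_cases hiv : i = v
          · rw [hiv, t2, hw.symm]; exact huv
          · rw [t3 i hiu hiv] at hi ⊢
            exact hnz i hi
    have hlt : M.card < (univ.filter fun i => τ' i ≠ i).card := by
      apply Finset.card_lt_card
      rw [Finset.ssubset_iff_of_subset]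
      · refine ⟨u, Finset.mem_filter.2 ⟨Finset.mem_univ _, ?_⟩, ?_⟩
        · rw [t1]; exact hne.symm
        · intro h
          exact (Finset.mem_filter.1 h).2 hu1
      · intro i hi
        have hi' := (Finset.mem_filter.1 hi).2
        refine Finset.mem_filter.2 ⟨Finset.mem_univ _, ?_⟩
        rw [t3 i]
        · exact hi'
        · rintro rfl; exact hi' hu1
        · rintro rfl; exact hi' hv1
    exact absurd (hmax τ' hmem) (not_le.2 hlt)
  have h4 : (univ.filter fun v => ∃ u, w v u ≠ 0) ⊆ M ∪ I := by
    intro v hv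
    have hv' := (Finset.mem_filter.1 hv).2
    by_cases hvf : τ v = v
    · exact Finset.mem_union_right _ (Finset.mem_filter.2 ⟨Finset.mem_univ _, hvf, hv'⟩)
    · exact Finset.mem_union_left _ (Finset.mem_filter.2 ⟨Finset.mem_univ _, hvf⟩)
  have h5 : (univ.filter fun v => ∃ u, w v u ≠ 0).card ≤ M.card + I.card :=
    (Finset.card_le_card h4).trans (Finset.card_union_le _ _)
  have h6 : (((univ.filter fun v => ∃ u, w v u ≠ 0).card : ℕ) : ℤ) ≤ (M.card : ℤ) + (I.card : ℤ) := by
    exact_mod_cast h5
  linarith

end Pool.Agent.MP_710317_co.Rec
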