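import Pool.Agent.MP_710317_co.Rec.Split
import Pool.Agent.MP_710317_co.Rec.Supp

namespace Pool.Agent.MP_710317_co.Rec

open Finset Pool.Agent.MP_710317_co

/-- the matrix `R` extended by zero -/
def ConsA_R {V : Type*} {n : ℕ} (R : V → V → ℤ) : V ⊕ Fin n → V ⊕ Fin n → ℤ
  | Sum.inl u, Sum.inl v => R u v
  | _, _ => 0

theorem ConsA_R_inr {V : Type*} {n : ℕ} (R : V → V → ℤ) (i : Fin n) (y : V ⊕ Fin n) :
    ConsA_R R (Sum.inr i) y = 0 := by
  cases y <;> rfl

theorem ConsA_sum {V : Type*} {n : ℕ} (f : V ⊕ Fin n → ℤ) (hf : ∀ i, f (Sum.inr i) = 0)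
    (S : Finset (V ⊕ Fin n)) : ∑ x ∈ S, f x = ∑ u ∈ S.toLeft, f (Sum.inl u) := by
  conv_lhs => rw [← Finset.toLeft_disjSum_toRight (u := S)]
  rw [Finset.sum_disjSum]
  rw [Finset.sum_eq_zero (s := S.toRight) (fun i _ => hf i), add_zero]

theorem ConsA_crs {V : Type*} {n : ℕ} (R : V → V → ℤ) (S T : Finset (V ⊕ Fin n)) :
    crs (ConsA_R R) S T = crs R S.toLeft T.toLeft := by
  unfold crs
  rw [ConsA_sum _ _ S]
  · refine Finset.sum_congr rfl (fun u _ => ?_)
    rw [ConsA_sum _ _ T]
    · rfl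
    · intro i
      rfl
  · intro i
    exact Finset.sum_eq_zero (fun y _ => ConsA_R_inr R i y)

theorem ConsA_compl {V : Type*} [Fintype V] [DecidableEq V] {n : ℕ} (S : Finset (V ⊕ Fin n)) :
    Sᶜ.toLeft = S.toLeftᶜ := by
  ext u
  simp

/-- the relation of the new graph -/
def ConsA_rel {V : Type*} {n : ℕ} (G : SimpleGraph V) (S0 LS : Finset V) (t : ℕ) :
    V ⊕ Fin n → V ⊕ Fin n → Prop
  | Sum.inl u, Sum.inl v => G.Adj u v ∧ u ∈ S0 ∧ v ∈ S0
  | Sum.inl u, Sum.inr i => u ∈ LS ∧ (i : ℕ) < t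
  | Sum.inr i, Sum.inl u => u ∈ LS ∧ (i : ℕ) < t
  | Sum.inr i, Sum.inr j => i ≠ j ∧ (i : ℕ) < t ∧ (j : ℕ) < t

/-- the new graph -/
def ConsA_G {V : Type*} {n : ℕ} (G : SimpleGraph V) (S0 LS : Finset V) (t : ℕ) :
    SimpleGraph (V ⊕ Fin n) where
  Adj := ConsA_rel G S0 LS t
  symm := by
    constructor
    intro x y h
    cases x with
    | inl u =>
      cases y with
      | inl v =>
        change G.Adj u v ∧ u ∈ S0 ∧ v ∈ S0 at h
        exact ⟨h.1.symm, h.2.2, h.2.1⟩
      | inr j =>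
        exact h
    | inr i =>
      cases y with
      | inl v =>
        exact h
      | inr j =>
        change i ≠ j ∧ (i : ℕ) < t ∧ (j : ℕ) < t at h
        exact ⟨h.1.symm, h.2.2, h.2.1⟩
  loopless := by
    constructor
    intro x h
    cases x with
    | inl u =>
      change G.Adj u u ∧ u ∈ S0 ∧ u ∈ S0 at h
      exact G.loopless.irrefl u h.1
    | inr i =>
      change i ≠ i ∧ (i : ℕ) < t ∧ (i : ℕ) < t at h
      exact h.1 rfl

theorem ConsA_ad {V : Type*} (G : SimpleGraph V) (u v : V) (P : Prop) [Decidable P]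
    (hP : G.Adj u v ↔ P) : ad G u v = if P then 1 else 0 := by
  by_cases h : G.Adj u v
  · rw [ad_of_adj G h, if_pos (hP.1 h)]
  · rw [ad_of_not_adj G h, if_neg (fun k => h (hP.2 k))]

/-- [RQ-CONSA]  Adding a complete graph on `n` vertices whose vertex set contains the vertices of the
last mark.
Proof.  `R` comes from `G`, marks `K 0, …, K l`; let `L = K (last)`.  `S0 =` the set of the non-zero
rows, `|S0| ≤ 3 (2 c - r) ≤ n` (`support_bound`, `Sb_of_le`).  `t = n - |L ∩ S0|`.
`V' = V ⊕ Fin n`, only the vertices `inr i` with `i < t` are used.  Graph `G'`: `inl u ~ inl v` iff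
`G u v ∧ u ∈ S0 ∧ v ∈ S0`; `inl u ~ inr i` iff `u ∈ L ∩ S0 ∧ i < t`; `inr i ~ inr j` iff `i ≠ j`,
`i, j < t`.  Marks `K' i = (K i ∩ S0).map inl` for `i < l` (`Fin.castSucc`).
`K' = (L ∩ S0).map inl ∪ {inr i : i < t}`, `|K'| = n`.  `R' (inl u) (inl v) = R u v`, `0`
otherwise.  Check `w' = R' + Jm K'` is the excess matrix of `G', K'`: for `u ≠ v ∈ S0`,
`ad G u v - #{i < l : u, v ∈ K i} = R u v + [u, v ∈ L]`; if `u ∉ S0` then `R u v = 0`.
For `S' ⊆ V'` take `S = {u : inl u ∈ S'}`. -/
theorem consA {V : Type*} [Fintype V] [DecidableEq V] {l n : ℕ} {r c : ℤ} {R : V → V → ℤ}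
    (h : Ex (l + 1) r R c) (hn : 3 * (2 * c - r) ≤ n) :
    ∃ (w' R' : V ⊕ Fin n → V ⊕ Fin n → ℤ) (K' : Finset (V ⊕ Fin n)), K'.card = n ∧
      (∀ i j, w' i j = R' i j + Jm K' i j) ∧ Sym w' ∧ Mk l w' ∧ Sym R' ∧
      inn w' univ = 2 * (((n.choose 2 : ℕ) : ℤ) + r) ∧
      ∀ S' : Finset (V ⊕ Fin n), ∃ S : Finset V, crs R' S' S'ᶜ = crs R S Sᶜ ∧
        inn R' S' = inn R S ∧ inn R' S'ᶜ = inn R Sᶜ := by
  obtain ⟨G, K, hGK⟩ := h.marked
  have hsupp := support_bound h.sym (Sb_of_le h.sym h.tot h.le)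
  set S0 : Finset V := univ.filter fun v => ∃ u, R v u ≠ 0 with hS0
  have hS0' : ∀ u, u ∉ S0 → ∀ v, R u v = 0 := by
    intro u hu v
    by_contra hne
    exact hu (by rw [hS0]; simp only [Finset.mem_filter, Finset.mem_univ, true_and]; exact ⟨v, hne⟩)
  set LS : Finset V := K (Fin.last l) ∩ S0 with hLS
  have hLScard : LS.card ≤ n := by
    have h1 : LS.card ≤ S0.card := Finset.card_le_card Finset.inter_subset_right
    have h2 : (S0.card : ℤ) ≤ n := hsupp.trans hn
    exact h1.trans (by exact_mod_cast h2)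
  set t : ℕ := n - LS.card with ht
  set T : Finset (Fin n) := univ.filter (fun i : Fin n => (i : ℕ) < t) with hT
  have hTcard : T.card = t := by
    rw [hT]
    have : (univ.filter (fun i : Fin n => (i : ℕ) < t)).card = min n t := by
      rw [Fin.card_filter_val_lt]
    rw [this]
    omega
  have hKcard : (LS.disjSum T).card = n := by
    rw [Finset.card_disjSum, hTcard]
    omega
  have hR' : Sym (ConsA_R (n := n) R) := by
    constructor
    · intro i j
      cases i <;> cases j
      · exact h.sym.symm _ _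
      · rfl
      · rfl
      · rfl
    · intro i
      cases i
      · exact h.sym.diag _
      · rfl
  have hJ := Jm_sym (LS.disjSum T)
  refine ⟨fun i j => ConsA_R R i j + Jm (LS.disjSum T) i j, ConsA_R R, LS.disjSum T, hKcard,
    fun i j => rfl, ?_, ?_, hR', ?_, ?_⟩
  · constructor
    · intro i j
      change ConsA_R R i j + Jm (LS.disjSum T) i j = ConsA_R R j i + Jm (LS.disjSum T) j i
      rw [hR'.symm i j, hJ.symm i j]
    · intro i
      change ConsA_R R i i + Jm (LS.disjSum T) i i = 0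
      rw [hR'.diag i, hJ.diag i, add_zero]
  · refine ⟨ConsA_G G S0 LS t, fun i => (K (Fin.castSucc i) ∩ S0).disjSum ∅, ?_⟩
    intro x y hxy
    classical
    change ConsA_R R x y + Jm (LS.disjSum T) x y = _
    cases x with
    | inl u =>
      cases y with
      | inl v =>
        have huv : u ≠ v := fun h => hxy (by rw [h])
        have e1 : ConsA_R (n := n) R (Sum.inl u) (Sum.inl v) = R u v := rfl
        have e2 : Jm (LS.disjSum T) (Sum.inl u) (Sum.inl v) = if u ∈ LS ∧ v ∈ LS then 1 else 0 := by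
          unfold Jm
          simp [huv]
        have e3 : (ConsA_G (n := n) G S0 LS t).Adj (Sum.inl u) (Sum.inl v) ↔
            (G.Adj u v ∧ u ∈ S0 ∧ v ∈ S0) := Iff.rfl
        have e4 : (univ.filter fun i : Fin l => (Sum.inl u : V ⊕ Fin n) ∈
            (K (Fin.castSucc i) ∩ S0).disjSum ∅ ∧ (Sum.inl v : V ⊕ Fin n) ∈
            (K (Fin.castSucc i) ∩ S0).disjSum ∅) =
            univ.filter fun i : Fin l => (u ∈ K (Fin.castSucc i) ∧ u ∈ S0) ∧
              (v ∈ K (Fin.castSucc i) ∧ v ∈ S0) := by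
          ext i
          simp
        rw [e1, e2, e4, ConsA_ad _ _ _ _ e3]
        by_cases hu : u ∈ S0
        · by_cases hv : v ∈ S0
          · rw [hGK u v huv, ConsA_ad G u v _ Iff.rfl]
            have e5 : (univ.filter fun t : Fin (l + 1) => u ∈ K t ∧ v ∈ K t).card =
                (univ.filter fun i : Fin l => u ∈ K (Fin.castSucc i) ∧
                  v ∈ K (Fin.castSucc i)).card +
                if u ∈ K (Fin.last l) ∧ v ∈ K (Fin.last l) then 1 else 0 := by
              rw [Finset.card_filter, Fin.sum_univ_castSucc, ← Finset.card_filter]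
            rw [e5]
            have e6 : (u ∈ LS ∧ v ∈ LS) ↔ (u ∈ K (Fin.last l) ∧ v ∈ K (Fin.last l)) := by
              rw [hLS]
              simp [hu, hv]
            simp only [e6, hu, hv, and_true]
            push_cast
            ring
          · have e5 : R u v = 0 := by
              rw [h.sym.symm u v]
              exact hS0' v hv u
            have e6 : v ∉ LS := by
              rw [hLS]
              simp [hv]
            simp [e5, e6, hv]
        · have e5 : R u v = 0 := hS0' u hu v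
          have e6 : u ∉ LS := by
            rw [hLS]
            simp [hu]
          simp [e5, e6, hu]
      | inr j =>
        have e1 : ConsA_R (n := n) R (Sum.inl u) (Sum.inr j) = 0 := rfl
        have e3 : (ConsA_G (n := n) G S0 LS t).Adj (Sum.inl u) (Sum.inr j) ↔
            (u ∈ LS ∧ (j : ℕ) < t) := Iff.rfl
        rw [e1, ConsA_ad _ _ _ _ e3]
        unfold Jm
        simp [hT]
    | inr i =>
      cases y with
      | inl v =>
        have e1 : ConsA_R (n := n) R (Sum.inr i) (Sum.inl v) = 0 := rfl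
        have e3 : (ConsA_G (n := n) G S0 LS t).Adj (Sum.inr i) (Sum.inl v) ↔
            (v ∈ LS ∧ (i : ℕ) < t) := Iff.rfl
        rw [e1, ConsA_ad _ _ _ _ e3]
        unfold Jm
        simp [hT, and_comm]
      | inr j =>
        have e1 : ConsA_R (n := n) R (Sum.inr i) (Sum.inr j) = 0 := rfl
        have e3 : (ConsA_G (n := n) G S0 LS t).Adj (Sum.inr i) (Sum.inr j) ↔
            (i ≠ j ∧ (i : ℕ) < t ∧ (j : ℕ) < t) := Iff.rfl
        rw [e1, ConsA_ad _ _ _ _ e3]
        unfold Jm
        simp [hT]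
  · have e1 : inn (fun i j => ConsA_R (n := n) R i j + Jm (LS.disjSum T) i j) univ =
        inn (ConsA_R (n := n) R) univ + inn (Jm (LS.disjSum T)) univ := by
      unfold inn
      simp only [Finset.sum_add_distrib]
    have e2 : inn (ConsA_R (n := n) R) univ = inn R univ := by
      rw [inn_eq_crs, ConsA_crs, inn_eq_crs]
      congr 1
      all_goals
        ext u
        simp
    rw [e1, e2, h.tot, inn_Jm, Finset.inter_univ, hKcard]
    have e3 : 2 * ((n.choose 2 : ℕ) : ℤ) = (n : ℤ) * ((n : ℤ) - 1) := by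
      have h1 := Nat.choose_two_right n
      have h2 : 2 * n.choose 2 = n * (n - 1) := by
        rw [h1]
        exact Nat.mul_div_cancel' (Nat.even_mul_pred_self n).two_dvd
      rcases Nat.eq_zero_or_pos n with h0 | h0
      · subst h0
        simp
      · have h3 : ((n - 1 : ℕ) : ℤ) = (n : ℤ) - 1 := by
          push_cast [Nat.cast_sub h0]
          ring
        rw [← h3]
        exact_mod_cast h2
    rw [mul_add, e3]
    ring
  · intro S'
    refine ⟨S'.toLeft, ?_, ?_, ?_⟩
    · rw [ConsA_crs, ConsA_compl]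
    · rw [inn_eq_crs, ConsA_crs, inn_eq_crs]
    · rw [inn_eq_crs, ConsA_crs, inn_eq_crs, ConsA_compl]

end Pool.Agent.MP_710317_co.Rec
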