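import Pool.Agent.MP_710317_co.Main

/-!
# Excess over marked complete graphs: definitions

`G` is a graph, `K 0, …, K (l-1)` are marked sets of vertices.  All numbers of edges are counted
in excess over the complete graphs on the marked sets.  For `l = 0` these are the usual notions.
-/

namespace Pool.Agent.MP_710317_co.Rec

open Finset Pool.Agent.MP_710317_co

/-! ## Definitions used in the final statement -/

/-- The number of edges of `G` inside `S`, minus the numbers of edges inside `S` of the complete
graphs on the marked sets `K i`. -/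
noncomputable def exIn {V : Type*} [DecidableEq V] (G : SimpleGraph V) {l : ℕ}
    (K : Fin l → Finset V) (S : Finset V) : ℤ :=
  (inside G (S : Set V) : ℤ) - ∑ i, (((K i ∩ S).card.choose 2 : ℕ) : ℤ)

/-- The number of edges of `G` between `S` and its complement, minus the numbers of such edges
of the complete graphs on the marked sets. -/
noncomputable def exCut {V : Type*} [Fintype V] [DecidableEq V] (G : SimpleGraph V) {l : ℕ}
    (K : Fin l → Finset V) (S : Finset V) : ℤ :=
  exIn G K univ - exIn G K S - exIn G K Sᶜ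

/-- The bounds `c` on all cuts of some graph of excess size `r` over `l` marked sets. -/
def cutVals (l r : ℕ) : Set ℕ :=
  {c | ∃ (N : ℕ) (G : SimpleGraph (Fin N)) (K : Fin l → Finset (Fin N)),
    exIn G K univ = r ∧ ∀ S, exCut G K S ≤ c}

/-- The least possible value of the largest excess cut, at excess size `r`. -/
noncomputable def fl (l r : ℕ) : ℕ := sInf (cutVals l r)

/-- The `d` such that some extremal graph has `|e(S) - e(Sᶜ)| ≥ d` for all its maximum cuts. -/
def lowVals (l r : ℕ) : Set ℕ :=
  {d | ∃ (N : ℕ) (G : SimpleGraph (Fin N)) (K : Fin l → Finset (Fin N)),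
    exIn G K univ = r ∧ (∀ S, exCut G K S ≤ fl l r) ∧
    ∀ S, exCut G K S = fl l r → (d : ℤ) ≤ |exIn G K S - exIn G K Sᶜ|}

/-- The largest (over the extremal graphs) least (over the maximum cuts) `|e(S) - e(Sᶜ)|`. -/
noncomputable def Dl (l r : ℕ) : ℕ := sSup (lowVals l r)

/-- The `d` such that some extremal graph has `|e(S) - e(Sᶜ)| ≤ d` for all its maximum cuts. -/
def highVals (l r : ℕ) : Set ℕ :=
  {d | ∃ (N : ℕ) (G : SimpleGraph (Fin N)) (K : Fin l → Finset (Fin N)),
    exIn G K univ = r ∧ (∀ S, exCut G K S ≤ fl l r) ∧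
    ∀ S, exCut G K S = fl l r → |exIn G K S - exIn G K Sᶜ| ≤ (d : ℤ)}

/-- The least (over the extremal graphs) largest (over the maximum cuts) `|e(S) - e(Sᶜ)|`. -/
noncomputable def Bl (l r : ℕ) : ℕ := sInf (highVals l r)

/-! ## Internal definitions: integer matrices -/

section Matrices

variable {V : Type*}

/-- symmetric with zero diagonal -/
structure Sym (w : V → V → ℤ) : Prop where
  symm : ∀ i j, w i j = w j i
  diag : ∀ i, w i i = 0

/-- sum over ordered pairs (twice the weight inside, for `S = T`) -/
def crs (w : V → V → ℤ) (S T : Finset V) : ℤ := ∑ i ∈ S, ∑ j ∈ T, w i j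

/-- twice the weight inside `S` -/
def inn (w : V → V → ℤ) (S : Finset V) : ℤ := ∑ i ∈ S, ∑ j ∈ S, w i j

/-- sign vectors -/
def IsSign (e : V → ℤ) : Prop := ∀ i, e i = 1 ∨ e i = -1

/-- twice the surplus of the cut given by the signs -/
def en [Fintype V] (w : V → V → ℤ) (e : V → ℤ) : ℤ := - ∑ i, ∑ j, w i j * e i * e j

/-- the surplus of every cut is at most `s` -/
def Sb [Fintype V] (w : V → V → ℤ) (s : ℤ) : Prop := ∀ e, IsSign e → en w e ≤ 2 * s

/-- `w` is the excess matrix of a graph over `l` complete graphs -/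
def Mk [DecidableEq V] (l : ℕ) (w : V → V → ℤ) : Prop :=
  ∃ (G : SimpleGraph V) (K : Fin l → Finset V), ∀ i j, i ≠ j →
    w i j = ad G i j - (((univ.filter fun t => i ∈ K t ∧ j ∈ K t).card : ℕ) : ℤ)

/-- `w` is an excess matrix of total weight `r` all whose cuts are at most `c` -/
structure Ex [Fintype V] [DecidableEq V] (l : ℕ) (r : ℤ) (w : V → V → ℤ) (c : ℤ) : Prop where
  sym : Sym w
  marked : Mk l w
  tot : inn w univ = 2 * r
  le : ∀ S, crs w S Sᶜ ≤ c

/-- the adjacency matrix of the complete graph on `K` -/
def Jm [DecidableEq V] (K : Finset V) (i j : V) : ℤ := if i ≠ j ∧ i ∈ K ∧ j ∈ K then 1 else 0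

end Matrices

end Pool.Agent.MP_710317_co.Rec
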