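import Pool.Agent.MP_710317_co.Rec.QId1

namespace Pool.Agent.MP_710317_co.Rec

open Finset Pool.Agent.MP_710317_co

/-- [RQ-QNUM2]  Surplus of the extremal graphs for `m ≥ C(10000, 2)`: `σ = 2 fl 0 m - m`.
Proof.  Let `n` be largest with `C(n,2) ≤ m`, `r = m - C(n,2) < n`, `n ≥ 10000`.  `rec_fl` with `l = 0` and
`num_fl 1 n r`: `σ ≤ n/2 + x`, `x ≤ n/40`; `σ ≤ 0.525 n`, `2 (m - fl 0 m) = m - σ ≥ n(n-1)/2 - 0.525 n`;
`(0.525 n + 2)² + 1 ≤ 0.276 n² + 2.1 n + 5 ≤ n(n-1)/2 - 0.525 n` for `n ≥ 10000`. -/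
theorem qnum2 (m : ℕ) (hm : (10000 : ℕ).choose 2 ≤ m) :
    fl 0 m ≤ m ∧ ((2 * (fl 0 m : ℤ) - m) + 2) ^ 2 + 1 ≤ 2 * ((m : ℤ) - fl 0 m) ∧
      30 * (2 * (fl 0 m : ℤ) - m) ≤ (m : ℤ) - fl 0 m := by
  -- the largest `n` with `C(n,2) ≤ m`
  obtain ⟨n, r, hn, hr, hmn⟩ : ∃ n r : ℕ, 10000 ≤ n ∧ r < n ∧ n.choose 2 + r = m := by
    have hex : ∃ n : ℕ, m < (n + 1).choose 2 := by
      refine ⟨m + 1, ?_⟩
      have h2 := Nat.choose_two_right (m + 1 + 1)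
      have h3 : (m + 1 + 1).choose 2 = (m + 1).choose 1 + (m + 1).choose 2 := rfl
      rw [h3, Nat.choose_one_right]
      omega
    classical
    set n := Nat.find hex with hn
    have h1 : m < (n + 1).choose 2 := Nat.find_spec hex
    have h2 : n.choose 2 ≤ m := by
      rcases Nat.eq_zero_or_pos n with h0 | h0
      · rw [h0]; simp
      · have := Nat.find_min hex (m := n - 1) (by omega)
        rw [not_lt] at this
        rwa [Nat.sub_add_cancel h0] at this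
    have h3 : (n + 1).choose 2 = n.choose 1 + n.choose 2 := rfl
    rw [Nat.choose_one_right] at h3
    refine ⟨n, m - n.choose 2, ?_, by omega, by omega⟩
    by_contra hcon
    have h4 : (n + 1).choose 2 ≤ (10000 : ℕ).choose 2 := Nat.choose_le_choose 2 (by omega)
    omega
  have hrec := rec_fl (l := 0) hn (by omega) hr
  obtain ⟨x, hx1, hx2, -⟩ := num_fl 1 n r hn hr
  rw [hmn] at hrec
  norm_num only at hrec
  have hcc : n.choose 2 * 2 = n * (n - 1) := by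
    rw [Nat.choose_two_right]
    exact Nat.div_mul_cancel (Nat.even_mul_pred_self n).two_dvd
  obtain ⟨k, rfl⟩ : ∃ k, n = k + 1 := ⟨n - 1, by omega⟩
  rw [Nat.add_sub_cancel] at hcc
  set q := (k + 1) ^ 2 / 4 with hq
  have hq1 : 4 * q ≤ (k + 1) ^ 2 := Nat.mul_div_le _ _
  have hq2 : (k + 1) ^ 2 < 4 * q + 4 := by omega
  set cc := (k + 1).choose 2 with hcc'
  set u := (k + 1 + 1) / 2 with hu
  have hu1 : k + 1 ≤ 2 * u := by omega
  set f1 := fl 1 r with hf1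
  set f := fl 0 m with hf
  -- the surplus
  obtain ⟨mn, hmn1⟩ : ∃ mn, mn = min u f1 := ⟨_, rfl⟩
  have hmn2 : f = q + mn := by rw [hmn1]; exact hrec
  have hmle : mn ≤ f1 := by rw [hmn1]; exact min_le_right _ _
  have hmcase : mn = u ∨ mn = f1 := by rw [hmn1]; exact min_choice _ _
  have hccz : (cc : ℤ) * 2 = (k + 1) * k := by exact_mod_cast hcc
  have hq1z : 4 * (q : ℤ) ≤ ((k : ℤ) + 1) ^ 2 := by exact_mod_cast hq1
  have hq2z : ((k : ℤ) + 1) ^ 2 < 4 * (q : ℤ) + 4 := by exact_mod_cast hq2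
  have hnz : (9999 : ℤ) ≤ k := by omega
  have hmz : (m : ℤ) = cc + r := by rw [← hmn]; push_cast; ring
  have hfz : (f : ℤ) = q + mn := by rw [hmn2]; push_cast; ring
  have hrz : (r : ℤ) < k + 1 := by exact_mod_cast hr
  have hr0 : (0 : ℤ) ≤ r := by positivity
  have hxz : 40 * (x : ℤ) + 40 ≤ k + 1 := by exact_mod_cast hx2
  have hx0 : (0 : ℤ) ≤ x := by positivity
  have hx1z : 2 * (f1 : ℤ) = r + x := by exact_mod_cast hx1
  obtain ⟨σ, hσ⟩ : ∃ σ : ℤ, σ = 2 * (f : ℤ) - m := ⟨_, rfl⟩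
  have hprod : ((k : ℤ) + 1) * 9999 ≤ ((k : ℤ) + 1) * k :=
    mul_le_mul_of_nonneg_left hnz (by linarith)
  have hup : 40 * σ ≤ 21 * (k + 1) - 40 := by
    have hm1 : (mn : ℤ) ≤ f1 := by exact_mod_cast hmle
    rw [hσ, hfz, hmz]
    linarith only [hm1, hx1z, hq1z, hccz, hxz]
  have hlo : 0 ≤ σ := by
    rcases hmcase with h | h
    · have h1 : (k : ℤ) + 1 ≤ 2 * mn := by rw [h]; exact_mod_cast hu1
      rw [hσ, hfz, hmz]
      linarith only [h1, hq2z, hccz, hrz, hnz]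
    · have h1 : 2 * (mn : ℤ) = r + x := by rw [h]; exact hx1z
      rw [hσ, hfz, hmz]
      linarith only [h1, hq2z, hccz, hx0, hnz]
  have h2m : 2 * ((m : ℤ) - f) = m - σ := by rw [hσ]; ring
  have hmbig : (k + 1) * (k : ℤ) ≤ 2 * m := by rw [hmz]; linarith
  have hsq : (σ + 2) ^ 2 ≤ (21 * ((k : ℤ) + 1) / 40 + 1) ^ 2 := by
    have h1 : σ ≤ 21 * ((k : ℤ) + 1) / 40 - 1 := by omega
    exact pow_le_pow_left₀ (by linarith) (by linarith) 2
  have hdiv : 40 * (21 * ((k : ℤ) + 1) / 40) ≤ 21 * ((k : ℤ) + 1) := by omega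
  have hsq2 : 1600 * (σ + 2) ^ 2 ≤ (21 * ((k : ℤ) + 1) + 40) ^ 2 := by
    have h1 : (40 * (σ + 2)) ^ 2 ≤ (21 * ((k : ℤ) + 1) + 40) ^ 2 :=
      pow_le_pow_left₀ (by linarith) (by linarith) 2
    linarith [h1, (by ring : (40 * (σ + 2)) ^ 2 = 1600 * (σ + 2) ^ 2)]
  refine ⟨?_, ?_, ?_⟩
  · have : (f : ℤ) ≤ m := by linarith only [h2m, hmbig, hup, hprod, hnz]
    exact_mod_cast this
  · rw [← hσ, h2m]
    linarith only [hsq2, hmbig, hup, hprod, hnz]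
  · rw [← hσ]
    linarith only [h2m, hmbig, hup, hprod, hnz]

end Pool.Agent.MP_710317_co.Rec
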