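import Pool.Agent.MP_710317_co.Rec.QId2

namespace Pool.Agent.MP_710317_co.Rec

open Finset Pool.Agent.MP_710317_co

/-- [RQ-QUP]  Upper bound for `qval`.
Proof.  `w = ad G` on `Fin N`: `Sym`, `Mk 0` (marks: none), `inn w univ = 2 m` (`ord_univ_eq`; `ord G = inn
(ad G)` by definition).  Let `c` be the largest cut of `w` (`Finset.exists_max_image`), so
`Ex 0 m w c`, `f = fl 0 m ≤ c` (`fl_le`).  For a cut `U` with inside numbers `e₁, e₂` (`inn w U = 2 e₁`):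
`4 qval ≤ (inn w U)² + (inn w Uᶜ)²` (`qval_le`) and
`2 ((inn w U)² + (inn w Uᶜ)²) = (inn w U + inn w Uᶜ)² + (inn w U - inn w Uᶜ)²
= (2 m - 2 crs w U Uᶜ)² + (..)²`.
If `c = f`: by definition of `Dl` not all maximum cuts can have `|inn w U - inn w Uᶜ| ≥ 2 (Dl 0 m + 1)`
(`mem_lowVals`, `le_Dl`), take one with `|..| < 2 (Dl + 1)`; as `inn` values are even
(`ord_eq_inside`), `|..| ≤ 2 Dl`; so `8 qval ≤ (2 (m-f))² + (2 Dl)²`.
If `c ≥ f + 1`: `U` a maximum cut, `flip_bound`: `|..| ≤ 2 (2c - m)`, so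
`8 qval ≤ 4 (m-c)² + 4 (2c-m)²`; also `e₁² + e₂² ≤ (e₁+e₂)²` gives `2 qval ≤ 2 (m-c)²`.  `qnum`, `qnum2`
with `M = m - f`, `σ = 2f - m`, `x = c - f`: `2 qval ≤ (m - f)²`. -/
theorem q_upper {N m : ℕ} (G : SimpleGraph (Fin N)) (hG : G.edgeSet.ncard = m)
    (hm : (10000 : ℕ).choose 2 ≤ m) :
    2 * qval G ≤ (m - fl 0 m) ^ 2 + (Dl 0 m) ^ 2 := by
  classical
  obtain ⟨hfm, hq2, hq30⟩ := qnum2 m hm
  set w := ad G with hw
  have hsym : Sym w := ⟨ad_comm G, ad_self G⟩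
  have hmk : Mk 0 w := ⟨G, fun i => i.elim0, fun i j _ => by simp [hw]⟩
  have htot : inn w univ = 2 * (m : ℤ) := ord_univ_eq G m hG
  obtain ⟨U, -, hU⟩ := Finset.exists_max_image (univ : Finset (Finset (Fin N)))
    (fun S => crs w S Sᶜ) ⟨∅, mem_univ _⟩
  have hU' : ∀ S, crs w S Sᶜ ≤ crs w U Uᶜ := fun S => hU S (mem_univ _)
  have hc0 : 0 ≤ crs w U Uᶜ := by
    have := hU' ∅
    simpa [crs] using this
  obtain ⟨c, hc⟩ := Int.eq_ofNat_of_zero_le hc0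
  have hex : Ex 0 (m : ℤ) w (c : ℤ) := ⟨hsym, hmk, htot, fun S => hc ▸ hU' S⟩
  have hfc : fl 0 m ≤ c := fl_le hex
  have hhalf := half_le 0 m
  -- the bound for a cut
  have key : ∀ S : Finset (Fin N), ∃ a b : ℕ, inn w S = 2 * (a : ℤ) ∧ inn w Sᶜ = 2 * (b : ℤ) ∧
      (m : ℤ) = a + b + crs w S Sᶜ ∧ (qval G : ℤ) ≤ (a : ℤ) ^ 2 + (b : ℤ) ^ 2 := by
    intro S
    refine ⟨inside G (S : Set (Fin N)), inside G ((Sᶜ : Finset (Fin N)) : Set (Fin N)),
      ord_eq_inside G S, ord_eq_inside G Sᶜ, ?_, ?_⟩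
    · have h1 := tot_split hsym S
      have h2 : inn w S = 2 * (inside G (S : Set (Fin N)) : ℤ) := ord_eq_inside G S
      have h3 : inn w Sᶜ = 2 * (inside G ((Sᶜ : Finset (Fin N)) : Set (Fin N)) : ℤ) :=
        ord_eq_inside G Sᶜ
      rw [htot, h2, h3] at h1
      linarith
    · have h1 := qval_le G S
      rw [ord_eq_inside G S, ord_eq_inside G Sᶜ] at h1
      nlinarith
  by_cases hcf : c = fl 0 m
  · subst hcf
    have hS : ∃ S, crs w S Sᶜ = fl 0 m ∧ |inn w S - inn w Sᶜ| < 2 * ((Dl 0 m + 1 : ℕ) : ℤ) := by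
      by_contra hcon
      push Not at hcon
      have h1 : Dl 0 m + 1 ∈ lowVals 0 m := mem_lowVals hex hcon
      have h2 := le_Dl h1
      omega
    obtain ⟨S, hS1, hS2⟩ := hS
    obtain ⟨a, b, ha, hb, hab, hq⟩ := key S
    rw [hS1] at hab
    rw [ha, hb, abs_lt] at hS2
    push_cast at hS2
    have h1 : |(a : ℤ) - b| ≤ (Dl 0 m : ℤ) := by
      rw [abs_le]
      constructor
      · linarith [hS2.1, hS2.2]
      · linarith [hS2.1, hS2.2]
    have h2 : ((a : ℤ) - b) ^ 2 ≤ (Dl 0 m : ℤ) ^ 2 := by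
      rw [← sq_abs ((a : ℤ) - b)]
      exact pow_le_pow_left₀ (abs_nonneg _) h1 2
    zify [hfm]
    have h3 : (m : ℤ) - (fl 0 m : ℕ) = a + b := by linarith
    rw [h3]
    nlinarith
  · have hcf' : fl 0 m + 1 ≤ c := by omega
    obtain ⟨a, b, ha, hb, hab, hq⟩ := key U
    rw [hc] at hab
    have hfl := flip_bound hsym htot (fun S => hc ▸ hU' S) U hc
    rw [ha, hb] at hfl
    have h1 : |(a : ℤ) - b| ≤ 2 * (c : ℤ) - m := by
      have h2 : (2 : ℤ) * a - 2 * b = 2 * ((a : ℤ) - b) := by ring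
      rw [h2, abs_mul, abs_of_nonneg (by norm_num : (0 : ℤ) ≤ 2)] at hfl
      linarith
    have h2 : ((a : ℤ) - b) ^ 2 ≤ (2 * (c : ℤ) - m) ^ 2 := by
      rw [← sq_abs ((a : ℤ) - b)]
      exact pow_le_pow_left₀ (abs_nonneg _) h1 2
    have ha0 : (0 : ℤ) ≤ a := Int.natCast_nonneg a
    have hb0 : (0 : ℤ) ≤ b := Int.natCast_nonneg b
    have hkey := qnum ((m : ℤ) - fl 0 m) (2 * (fl 0 m : ℤ) - m) ((c : ℤ) - fl 0 m)
      (by push_cast at *; omega) (by linarith) (by linarith) (by push_cast at *; omega)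
      (by have h5 : (c : ℤ) ≤ m := by
            rw [hab]
            have : ((c : ℕ) : ℤ) = Int.ofNat c := rfl
            linarith
          linarith)
    have hab' : (m : ℤ) = a + b + c := by
      rw [hab]
    have e1 : (m : ℤ) - fl 0 m - (c - fl 0 m) = a + b := by linarith
    have e2 : 2 * (fl 0 m : ℤ) - m + 2 * (c - fl 0 m) = 2 * c - m := by ring
    rw [e1, e2] at hkey
    have h3 : 2 * (qval G : ℤ) ≤ ((m : ℤ) - fl 0 m) ^ 2 := by
      rcases hkey with hkey | hkey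
      · nlinarith
      · nlinarith [mul_nonneg ha0 hb0]
    have h4 : (0 : ℤ) ≤ (Dl 0 m : ℤ) ^ 2 := sq_nonneg _
    zify [hfm]
    linarith

end Pool.Agent.MP_710317_co.Rec
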