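import Pool.Agent.MP_710317_co.Rec.QId3

namespace Pool.Agent.MP_710317_co.Rec

open Finset Pool.Agent.MP_710317_co

/-- [RQ-QLOW]  A graph attaining the value.
Proof.  `Dl_mem 0 m`: from the definition of `lowVals` (with `l = 0`: `exIn G K S = inside G S`) there are
`N`, `G` with `m` edges, all cuts `≤ f = fl 0 m`, and `|e₁ - e₂| ≥ Dl` for the cuts with `e₁ + e₂ = m - f`.
For any `U`: `e₁ + e₂ ≥ m - f`; if equal, `2 (e₁² + e₂²) = (e₁+e₂)² + (e₁-e₂)² ≥ (m-f)² + Dl²`;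
if `e₁ + e₂ ≥ m - f + 1`, `2 (e₁² + e₂²) ≥ (m-f+1)² ≥ (m-f)² + Dl²` as `Dl ≤ 2f - m` (`Dl_le`) and
`(2f-m)² ≤ 2 (m-f) + 1` (`qnum2`).  Use `exists_qval` (the minimum is attained) for `qval G`; together with
`q_upper` equality. -/
theorem q_lower {m : ℕ} (hm : (10000 : ℕ).choose 2 ≤ m) :
    ∃ (N : ℕ) (G : SimpleGraph (Fin N)), G.edgeSet.ncard = m ∧
      2 * qval G = (m - fl 0 m) ^ 2 + (Dl 0 m) ^ 2 := by
  classical
  obtain ⟨hfm, hq2, hq30⟩ := qnum2 m hm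
  obtain ⟨N, G, K, htot, hcut, hd⟩ := Dl_mem 0 m
  have hin : ∀ S : Finset (Fin N), exIn G K S = (inside G (S : Set (Fin N)) : ℤ) := by
    intro S
    simp [exIn]
  have hG : G.edgeSet.ncard = m := by
    rw [hin] at htot
    have h1 : inside G ((univ : Finset (Fin N)) : Set (Fin N)) = G.edgeSet.ncard := by
      unfold inside
      congr 1
      ext e
      simp
    rw [h1] at htot
    exact_mod_cast htot
  refine ⟨N, G, hG, ?_⟩
  have hup := q_upper G hG hm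
  refine le_antisymm hup ?_
  obtain ⟨U, hU⟩ := exists_qval G
  rw [ord_eq_inside G U, ord_eq_inside G Uᶜ] at hU
  have hcU := hcut U
  have hdU := hd U
  have hDl := Dl_le 0 m
  have hhalf := half_le 0 m
  unfold exCut at hcU hdU
  rw [htot, hin, hin] at hcU
  rw [htot, hin, hin] at hdU
  set a : ℕ := inside G (U : Set (Fin N)) with ha
  set b : ℕ := inside G ((Uᶜ : Finset (Fin N)) : Set (Fin N)) with hb
  have hq : (qval G : ℤ) = (a : ℤ) ^ 2 + (b : ℤ) ^ 2 := by nlinarith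
  zify [hfm]
  have hD : (Dl 0 m : ℤ) ≤ 2 * (fl 0 m : ℤ) - m := by omega
  have hD0 : (0 : ℤ) ≤ (Dl 0 m : ℤ) := Int.natCast_nonneg _
  by_cases hc : (m : ℤ) - a - b = fl 0 m
  · have h1 := hdU hc
    have h2 : (Dl 0 m : ℤ) ^ 2 ≤ ((a : ℤ) - b) ^ 2 := by
      rw [← sq_abs ((a : ℤ) - b)]
      exact pow_le_pow_left₀ hD0 h1 2
    have h3 : (m : ℤ) - (fl 0 m : ℕ) = a + b := by linarith
    rw [h3, hq]
    nlinarith
  · have h1 : (m : ℤ) - (fl 0 m : ℕ) + 1 ≤ a + b := by omega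
    have h2 : (0 : ℤ) ≤ (m : ℤ) - (fl 0 m : ℕ) := by omega
    have h3 : ((m : ℤ) - (fl 0 m : ℕ) + 1) ^ 2 ≤ ((a : ℤ) + b) ^ 2 :=
      pow_le_pow_left₀ (by linarith) h1 2
    have h4 : (Dl 0 m : ℤ) ^ 2 ≤ (2 * (fl 0 m : ℤ) - m) ^ 2 := pow_le_pow_left₀ hD0 hD 2
    have h5 : (0 : ℤ) ≤ 2 * (fl 0 m : ℤ) - m := by omega
    rw [hq]
    nlinarith [sq_nonneg ((a : ℤ) - b)]

end Pool.Agent.MP_710317_co.Rec
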