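import Pool.Agent.MP_710317_co.Rec.RecD
import Pool.Agent.MP_710317_co.Rec.Base
import Pool.Agent.MP_710317_co.Rec.QId

namespace Pool.Agent.MP_710317_co.Rec

open Finset Pool.Agent.MP_710317_co

theorem q_formula (m : ℕ) (hm : (10000 : ℕ).choose 2 ≤ m) :
    ∃ q, IsGreatest (qvalues m) q ∧ 2 * q = (m - fl 0 m) ^ 2 + (Dl 0 m) ^ 2 := by
  obtain ⟨N, G, hG, hq⟩ := q_lower hm
  refine ⟨qval G, ⟨⟨N, G, hG, rfl⟩, ?_⟩, hq⟩
  rintro x ⟨N', G', hG', rfl⟩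
  have := q_upper G' hG' hm
  omega

theorem main (l n r : ℕ) (hn : 10000 ≤ n) (hl : 2 * l ≤ n) (hr : r < n) :
    fl l (n.choose 2 + r) = n ^ 2 / 4 + min ((n + 1) / 2) (fl (l + 1) r) ∧
    (fl (l + 1) r < (n + 1) / 2 →
      (Even n → Dl l (n.choose 2 + r) = Dl (l + 1) r ∧
        Bl l (n.choose 2 + r) = Bl (l + 1) r) ∧
      (Odd n → Dl l (n.choose 2 + r) + Bl (l + 1) r = (n - 1) / 2 ∧
        Bl l (n.choose 2 + r) = (n - 1) / 2 + Bl (l + 1) r)) ∧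
    ((n + 1) / 2 < fl (l + 1) r →
      (Odd n → Dl l (n.choose 2 + r) = n - r ∧ Bl l (n.choose 2 + r) = n - r) ∧
      (Even n → Dl l (n.choose 2 + r) + (n - r) = n / 2 ∧
        Bl l (n.choose 2 + r) = n / 2 + (n - r))) ∧
    (fl (l + 1) r = (n + 1) / 2 →
      (Even n → Dl l (n.choose 2 + r) + (n - r) = n / 2 ∧
        Bl l (n.choose 2 + r) = Bl (l + 1) r) ∧
      (Odd n → Dl l (n.choose 2 + r) + Bl (l + 1) r = (n - 1) / 2 ∧
        Bl l (n.choose 2 + r) = n - r)) :=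
  ⟨rec_fl hn hl hr, rec_D1 hn hl hr, rec_D2 hn hl hr, rec_D3 hn hl hr⟩

end Pool.Agent.MP_710317_co.Rec
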