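import Pool.Agent.MP_710317_co.Rec.Basic

namespace Pool.Agent.MP_710317_co.Rec

open Finset Pool.Agent.MP_710317_co

variable {V : Type*} [Fintype V] [DecidableEq V]

theorem flipB_erase {w : V → V → ℤ} (hw : Sym w) (S : Finset V) {v : V} (hv : v ∈ S) :
    crs w (S.erase v) (S.erase v)ᶜ =
      crs w S Sᶜ + ∑ j ∈ S, w v j - ∑ j ∈ Sᶜ, w v j := by
  have h1 : (S.erase v)ᶜ = insert v Sᶜ := by
    ext x
    simp only [mem_compl, mem_erase, mem_insert]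
    tauto
  have hv' : v ∉ Sᶜ := by simpa using hv
  unfold crs
  rw [h1]
  have h2 : ∀ i ∈ S.erase v, ∑ j ∈ insert v Sᶜ, w i j = w v i + ∑ j ∈ Sᶜ, w i j := by
    intro i _
    rw [Finset.sum_insert hv', hw.symm i v]
  rw [Finset.sum_congr rfl h2, Finset.sum_add_distrib]
  have h3 := Finset.add_sum_erase S (fun i => w v i) hv
  have h4 := Finset.add_sum_erase S (fun i => ∑ j ∈ Sᶜ, w i j) hv
  rw [hw.diag v] at h3
  linarith

theorem flipB_inn {w : V → V → ℤ} (hw : Sym w) {c : ℤ}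
    (h : ∀ S, crs w S Sᶜ ≤ c) (S : Finset V) (hS : crs w S Sᶜ = c) : inn w S ≤ c := by
  have h1 : ∀ v ∈ S, ∑ j ∈ S, w v j ≤ ∑ j ∈ Sᶜ, w v j := by
    intro v hv
    have h2 := h (S.erase v)
    rw [flipB_erase hw S hv, hS] at h2
    linarith
  calc inn w S = ∑ v ∈ S, ∑ j ∈ S, w v j := rfl
    _ ≤ ∑ v ∈ S, ∑ j ∈ Sᶜ, w v j := Finset.sum_le_sum h1
    _ = crs w S Sᶜ := rfl
    _ = c := hS

/-- [RQ-FLIP]  At a maximum cut the two insides differ by at most the surplus.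
Proof.  For `v ∈ S` the cut of `S.erase v` is `crs w S Sᶜ + ∑_{j∈S} w v j - ∑_{j∈Sᶜ} w v j ≤ c`
(`w v v = 0`), so `∑_{j∈S} w v j ≤ ∑_{j∈Sᶜ} w v j`; sum over `v ∈ S`: `inn w S ≤ crs w S Sᶜ = c`.  The same
for `Sᶜ`: `inn w Sᶜ ≤ c`.  By `tot_split` `inn w S + inn w Sᶜ = 2 W - 2 c`. -/
theorem flip_bound {w : V → V → ℤ} (hw : Sym w) {c W : ℤ} (hW : inn w univ = 2 * W)
    (h : ∀ S, crs w S Sᶜ ≤ c) (S : Finset V) (hS : crs w S Sᶜ = c) :
    |inn w S - inn w Sᶜ| ≤ 2 * (2 * c - W) := by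
  have h1 := flipB_inn hw h S hS
  have h2 : inn w Sᶜ ≤ c := by
    apply flipB_inn hw h
    rw [compl_compl, crs_comm hw, hS]
  have h3 := tot_split hw S
  rw [hW, hS] at h3
  rw [abs_le]
  constructor <;> linarith

end Pool.Agent.MP_710317_co.Rec
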