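import Pool.Agent.MP_710317_co.Rec.Basic

namespace Pool.Agent.MP_710317_co.Rec

open Finset Pool.Agent.MP_710317_co

variable {V : Type*} [Fintype V] [DecidableEq V]

/-- [RQ-GEN]  `g u` (`u : ι`) are integer vectors.  There are signs `e` with
`-∑_{x,y ∈ X} w x y e x e y + 2 ∑_u |∑_{x ∈ X} g u x e x| ≥ 2 #{u : g u ≠ 0 on X}`.

Proof.  Induction on `X` (`Finset.induction_on`).  `X = ∅`: both sides `0` (any `e`).
Step `insert a X`, `a ∉ X`: take `e` from the induction hypothesis and consider the two sign
vectors `e⁺, e⁻` which agree with `e` off `a` and are `±1` at `a`.  The average of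
`-∑_{x,y ∈ insert a X} w e e` over the two is `-∑_{x,y ∈ X} w e e` (use `w a a = 0`, symmetry; the
cross term is `∓ 2 ∑_{x ∈ X} w a x e x`).  For every `u`, with `t = ∑_{x∈X} g u x e x` and
`δ = g u a`: `(|t + δ| + |t - δ|)/2 = max |t| |δ|`, which is `≥ |t|`, and if `u` is new
(`g u = 0` on `X`, so `t = 0`, and `δ ≠ 0`) it is `≥ 1 = |t| + 1`.  So the average of the left side
is `≥` (left side for `X`) `+ 2 #{new u} ≥ 2 #{u : g u ≠ 0 on insert a X}`; one of `e⁺, e⁻` is at
least the average. -/
theorem gen_lemma {w : V → V → ℤ} (hw : Sym w) {ι : Type*} [Fintype ι] [DecidableEq ι]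
    (g : ι → V → ℤ) (X : Finset V) :
    ∃ e : V → ℤ, IsSign e ∧
      2 * (((univ.filter fun u => ∃ x ∈ X, g u x ≠ 0).card : ℕ) : ℤ) ≤
        - (∑ x ∈ X, ∑ y ∈ X, w x y * e x * e y) + 2 * ∑ u, |∑ x ∈ X, g u x * e x| := by
  classical
  induction X using Finset.induction_on with
  | empty =>
    refine ⟨fun _ => 1, fun _ => Or.inl rfl, ?_⟩
    simp
  | insert a X ha ih =>
    obtain ⟨e, he, hX⟩ := ih
    set Q := ∑ x ∈ X, ∑ y ∈ X, w x y * e x * e y with hQ
    set C := ∑ y ∈ X, w a y * e y with hC
    set T : ι → ℤ := fun u => ∑ x ∈ X, g u x * e x with hT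
    have hne : ∀ x ∈ X, x ≠ a := fun x hx h => ha (h ▸ hx)
    have hupd : ∀ σ : ℤ, ∀ x ∈ X, Function.update e a σ x = e x := fun σ x hx =>
      Function.update_of_ne (hne x hx) _ _
    have hua : ∀ σ : ℤ, Function.update e a σ a = σ := fun σ => Function.update_self _ _ _
    have hQ' : ∀ σ : ℤ, ∑ x ∈ insert a X, ∑ y ∈ insert a X,
        w x y * Function.update e a σ x * Function.update e a σ y = Q + 2 * σ * C := by
      intro σ
      rw [Finset.sum_insert ha, Finset.sum_insert ha, hua, hw.diag a]
      have e1 : ∑ y ∈ X, w a y * σ * Function.update e a σ y = σ * C := by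
        rw [hC, Finset.mul_sum]
        refine Finset.sum_congr rfl (fun y hy => ?_)
        rw [hupd σ y hy]; ring
      have e2 : ∑ x ∈ X, ∑ y ∈ insert a X,
          w x y * Function.update e a σ x * Function.update e a σ y = σ * C + Q := by
        have e3 : ∀ x ∈ X, ∑ y ∈ insert a X,
            w x y * Function.update e a σ x * Function.update e a σ y =
            σ * (w a x * e x) + ∑ y ∈ X, w x y * e x * e y := by
          intro x hx
          rw [Finset.sum_insert ha, hua, hupd σ x hx, hw.symm x a]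
          have e4 : ∑ y ∈ X, w x y * e x * Function.update e a σ y =
              ∑ y ∈ X, w x y * e x * e y :=
            Finset.sum_congr rfl (fun y hy => by rw [hupd σ y hy])
          rw [e4]; ring
        rw [Finset.sum_congr rfl e3, Finset.sum_add_distrib, ← Finset.mul_sum]
      rw [e1, e2]; ring
    have hT' : ∀ σ : ℤ, ∀ u, ∑ x ∈ insert a X, g u x * Function.update e a σ x =
        T u + g u a * σ := by
      intro σ u
      rw [Finset.sum_insert ha, hua, add_comm]
      congr 1
      exact Finset.sum_congr rfl (fun x hx => by rw [hupd σ x hx])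
    have hsign : ∀ σ : ℤ, (σ = 1 ∨ σ = -1) → IsSign (Function.update e a σ) := by
      intro σ hσ i
      by_cases hi : i = a
      · rw [hi, hua]; exact hσ
      · rw [Function.update_of_ne hi]; exact he i
    have hpt : ∀ u, 2 * |T u| + 2 * (if (∀ x ∈ X, g u x = 0) ∧ g u a ≠ 0 then (1 : ℤ) else 0) ≤
        |T u + g u a * 1| + |T u + g u a * (-1)| := by
      intro u
      have h1 := abs_add_le (T u + g u a * 1) (T u + g u a * (-1))
      have h2 : T u + g u a * 1 + (T u + g u a * (-1)) = 2 * T u := by ring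
      rw [h2, abs_mul, abs_two] at h1
      split_ifs with hnew
      · have ht : T u = 0 := Finset.sum_eq_zero (fun x hx => by rw [hnew.1 x hx, zero_mul])
        rw [ht]
        have h3 : 1 ≤ |g u a| := Int.one_le_abs hnew.2
        have h4 : |(0 : ℤ) + g u a * 1| = |g u a| := by rw [zero_add, mul_one]
        have h5 : |(0 : ℤ) + g u a * (-1)| = |g u a| := by
          rw [zero_add, mul_neg, mul_one, abs_neg]
        rw [h4, h5, abs_zero]
        linarith
      · linarith
    have hsum := Finset.sum_le_sum (fun u (_ : u ∈ (Finset.univ : Finset ι)) => hpt u)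
    rw [Finset.sum_add_distrib, Finset.sum_add_distrib, ← Finset.mul_sum, ← Finset.mul_sum,
      Finset.sum_boole] at hsum
    have hcard : (univ.filter fun u => ∃ x ∈ insert a X, g u x ≠ 0).card ≤
        (univ.filter fun u => ∃ x ∈ X, g u x ≠ 0).card +
        (univ.filter fun u => (∀ x ∈ X, g u x = 0) ∧ g u a ≠ 0).card := by
      refine (Finset.card_le_card ?_).trans (Finset.card_union_le _ _)
      intro u hu
      obtain ⟨x, hx, hgx⟩ := (Finset.mem_filter.1 hu).2
      simp only [Finset.mem_union, Finset.mem_filter, Finset.mem_univ, true_and]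
      by_cases hall : ∀ x ∈ X, g u x = 0
      · right
        refine ⟨hall, ?_⟩
        rcases Finset.mem_insert.1 hx with rfl | hx
        · exact hgx
        · exact absurd (hall x hx) hgx
      · left
        by_contra hno
        exact hall (fun x hx => by
          by_contra hg
          exact hno ⟨x, hx, hg⟩)
    have hcard' : (((univ.filter fun u => ∃ x ∈ insert a X, g u x ≠ 0).card : ℕ) : ℤ) ≤
        (((univ.filter fun u => ∃ x ∈ X, g u x ≠ 0).card : ℕ) : ℤ) +
        (((univ.filter fun u => (∀ x ∈ X, g u x = 0) ∧ g u a ≠ 0).card : ℕ) : ℤ) := by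
      exact_mod_cast hcard
    by_cases hbig : 2 * (((univ.filter fun u => ∃ x ∈ insert a X, g u x ≠ 0).card : ℕ) : ℤ) ≤
        -(Q + 2 * 1 * C) + 2 * ∑ u, |T u + g u a * 1|
    · refine ⟨Function.update e a 1, hsign 1 (Or.inl rfl), ?_⟩
      rw [hQ' 1]
      simp only [hT' 1]
      exact hbig
    · refine ⟨Function.update e a (-1), hsign (-1) (Or.inr rfl), ?_⟩
      rw [hQ' (-1)]
      simp only [hT' (-1)]
      have hX' : 2 * (((univ.filter fun u => ∃ x ∈ X, g u x ≠ 0).card : ℕ) : ℤ) ≤
        - Q + 2 * ∑ u, |T u| := hX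
      rw [not_le] at hbig
      linarith

end Pool.Agent.MP_710317_co.Rec
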