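import Pool.Agent.MP_710317_co.Rec.Split1

namespace Pool.Agent.MP_710317_co.Rec

open Finset Pool.Agent.MP_710317_co

variable {V : Type*} [Fintype V] [DecidableEq V]

theorem adj_crs_ite (w : V → V → ℤ) (A B : Finset V) :
    crs w A B = ∑ i, ∑ j, if i ∈ A ∧ j ∈ B then w i j else 0 := by
  unfold crs
  rw [← Finset.sum_subset (Finset.subset_univ A)]
  · refine Finset.sum_congr rfl fun i hi => ?_
    rw [← Finset.sum_subset (Finset.subset_univ B)]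
    · exact Finset.sum_congr rfl fun j hj => by rw [if_pos ⟨hi, hj⟩]
    · exact fun j _ hj => if_neg fun h => hj h.2
  · exact fun i _ hi => Finset.sum_eq_zero fun j _ => if_neg fun h => hi h.1

theorem adj_crs_congr {R : V → V → ℤ} (hR : Sym R) (T : Finset V)
    (h0 : ∀ t ∈ T, ∀ v, R t v = 0) {A A' B B' : Finset V} (hA : ∀ v, v ∉ T → (v ∈ A ↔ v ∈ A'))
    (hB : ∀ v, v ∉ T → (v ∈ B ↔ v ∈ B')) : crs R A B = crs R A' B' := by
  rw [adj_crs_ite, adj_crs_ite]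
  refine Finset.sum_congr rfl fun i _ => Finset.sum_congr rfl fun j _ => ?_
  by_cases hi : i ∈ T
  · rw [h0 i hi j, ite_self, ite_self]
  by_cases hj : j ∈ T
  · rw [hR.symm i j, h0 j hj i, ite_self, ite_self]
  · exact if_congr (and_congr (hA i hi) (hB j hj)) rfl rfl

/-- [RQ-ADJ]  Moving the vertices of `T` (zero rows of `R`) to make the cut balanced on `K`.
Proof.  `S \ T` and `(S' ∩ T)` free: need a subset `T' ⊆ T` with `|(K \ T) ∩ S| + |T'| = a`; possible as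
`|(K \ T) ∩ S| ≤ |K \ T| ≤ |K|/2 ≤ a` (from `|K \ T| ≤ |T|`) and
`a - |(K \ T) ∩ S| ≤ |T|`: `a ≤ (|K|+1)/2 ≤ |T| + ...`: if `|K \ T| < |T|` then `(|K|+1)/2 ≤ |T|`,
and if `|K \ T| = |T|` then `|K|` is even and `a = |T|`.  `S' = (S \ T) ∪ T'`.  `crs R`, `inn R` do not see
`T`: e.g. `crs R S' S'ᶜ = crs R (S' \ T) (S'ᶜ \ T)`, `S' \ T = S \ T` and `S'ᶜ \ T = Sᶜ \ T`. -/
theorem adjust {R : V → V → ℤ} (hR : Sym R) (K T : Finset V) (hTK : T ⊆ K)
    (hc : (K \ T).card ≤ T.card) (h0 : ∀ t ∈ T, ∀ v, R t v = 0) (a : ℕ)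
    (ha : K.card / 2 ≤ a) (ha' : a ≤ (K.card + 1) / 2) (S : Finset V) :
    ∃ S' : Finset V, (K ∩ S').card = a ∧ crs R S' S'ᶜ = crs R S Sᶜ ∧ inn R S' = inn R S ∧
      inn R S'ᶜ = inn R Sᶜ := by
  have hcard : (K \ T).card + T.card = K.card := Finset.card_sdiff_add_card_eq_card hTK
  have hU : ((K \ T) ∩ S).card ≤ (K \ T).card := Finset.card_le_card Finset.inter_subset_left
  obtain ⟨T', hT', hT'c⟩ := Finset.exists_subset_card_eq
    (show a - ((K \ T) ∩ S).card ≤ T.card by omega)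
  have hmem : ∀ v, v ∉ T → (v ∈ (S \ T) ∪ T' ↔ v ∈ S) := by
    intro v hv
    rw [Finset.mem_union, Finset.mem_sdiff]
    exact ⟨fun h => h.elim (fun h => h.1) fun h => absurd (hT' h) hv, fun h => Or.inl ⟨h, hv⟩⟩
  have hmem' : ∀ v, v ∉ T → (v ∈ ((S \ T) ∪ T')ᶜ ↔ v ∈ Sᶜ) := by
    intro v hv
    rw [Finset.mem_compl, Finset.mem_compl, hmem v hv]
  refine ⟨(S \ T) ∪ T', ?_, adj_crs_congr hR T h0 hmem hmem', adj_crs_congr hR T h0 hmem hmem,
    adj_crs_congr hR T h0 hmem' hmem'⟩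
  have e : K ∩ ((S \ T) ∪ T') = ((K \ T) ∩ S) ∪ T' := by
    ext v
    simp only [Finset.mem_inter, Finset.mem_union, Finset.mem_sdiff]
    constructor
    · rintro ⟨h1, h2 | h2⟩
      · exact Or.inl ⟨⟨h1, h2.2⟩, h2.1⟩
      · exact Or.inr h2
    · rintro (h | h)
      · exact ⟨h.1.1, Or.inl ⟨h.2, h.1.2⟩⟩
      · exact ⟨hTK (hT' h), Or.inr h⟩
  rw [e, Finset.card_union_of_disjoint, hT'c]
  · omega
  · rw [Finset.disjoint_left]
    intro v hv hv'
    exact (Finset.mem_sdiff.1 (Finset.mem_inter.1 hv).1).2 (hT' hv')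

end Pool.Agent.MP_710317_co.Rec
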