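import Pool.Agent.MP_710317_co.Rec.Twin
import Pool.Agent.MP_710317_co.Rec.Split

namespace Pool.Agent.MP_710317_co.Rec

open Finset Pool.Agent.MP_710317_co

variable {V : Type*} [Fintype V] [DecidableEq V]

/-- `w` is a complete graph on `K` plus something not touching `T ⊆ K`, `T` more than half of `K` -/
structure KT (w : V → V → ℤ) (K T : Finset V) : Prop where
  sub : T ⊆ K
  half : (K \ T).card ≤ T.card
  rows : ∀ t ∈ T, ∀ v, v ≠ t → w t v = if v ∈ K then 1 else 0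

theorem KT_ad_le {W : Type*} (G : SimpleGraph W) (i j : W) : ad G i j ≤ 1 := by
  classical
  unfold ad
  split_ifs <;> norm_num

/-- the involution exchanging `T` and a subset of `K \\ T` -/
theorem KT_half {w : V → V → ℤ} (hw : Sym w) {s : ℤ} (hs : Sb w s) {T L : Finset V}
    (hd : Disjoint T L) (hT : T.card ≤ L.card) (h1 : ∀ t ∈ T, ∀ u ∈ L, w t u = 1) :
    (T.card : ℤ) ≤ s := by
  classical
  obtain ⟨S, hSL, hSc⟩ := Finset.exists_subset_card_eq hT
  have hdS : Disjoint T S := Finset.disjoint_of_subset_right hSL hd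
  let e : T ≃ S := Finset.equivOfCardEq hSc.symm
  let τ : V → V := fun v => if h : v ∈ T then (e ⟨v, h⟩ : V) else
    if h : v ∈ S then (e.symm ⟨v, h⟩ : V) else v
  have t1 : ∀ v (h : v ∈ T), τ v = (e ⟨v, h⟩ : V) := fun v h => dif_pos h
  have t2 : ∀ v (h : v ∈ S), τ v = (e.symm ⟨v, h⟩ : V) := by
    intro v h
    have : v ∉ T := fun h' => (Finset.disjoint_left.1 hdS h') h
    simp only [τ]
    rw [dif_neg this, dif_pos h]
  have t3 : ∀ v, v ∉ T → v ∉ S → τ v = v := by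
    intro v h h'
    simp only [τ]
    rw [dif_neg h, dif_neg h']
  have hτ : ∀ v, τ (τ v) = v := by
    intro v
    by_cases h : v ∈ T
    · rw [t1 v h, t2 _ (e ⟨v, h⟩).2]
      simp
    · by_cases h' : v ∈ S
      · rw [t2 v h', t1 _ (e.symm ⟨v, h'⟩).2]
        simp
      · rw [t3 v h h', t3 v h h']
  have hb := pair_bound hw hs τ hτ
  have hval : ∀ v, w v (τ v) = if v ∈ T ∪ S then 1 else 0 := by
    intro v
    by_cases h : v ∈ T
    · rw [if_pos (Finset.mem_union_left _ h), t1 v h]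
      exact h1 v h _ (hSL (e ⟨v, h⟩).2)
    · by_cases h' : v ∈ S
      · rw [if_pos (Finset.mem_union_right _ h'), t2 v h', hw.symm]
        exact h1 _ (e.symm ⟨v, h'⟩).2 v (hSL h')
      · rw [if_neg (by rw [Finset.mem_union]; tauto), t3 v h h']
        exact hw.diag v
  rw [Finset.sum_congr rfl (fun v _ => hval v)] at hb
  rw [Finset.sum_ite_mem, Finset.univ_inter, Finset.sum_const, Finset.card_union_of_disjoint hdS,
    hSc] at hb
  simp only [nsmul_eq_mul, mul_one] at hb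
  push_cast at hb
  linarith

/-- [RQ-KT]  Structure theorem.
Proof.  `twin_core` with `W = C(n,2) + r`, `s = n/2 + x`.  `2 s ≤ n + 2 x`, so
`n (n-1) ≤ 2 W ≤ (2 j + 1) 2 s ≤ (2 j + 1) (n + 2 x)`, hence `2 j + 1 ≥ n - 1 - 2 x` (otherwise
`(2j+1)(n+2x) ≤ (n-2-2x)(n+2x) < n(n-1)`), `8 j ≥ 4 n - 8 - 8 x`,
`|T| ≥ 8 j - 6 s - 1 ≥ 4 n - 8 - 8 x - 3 n - 6 x - 1 = n - 14 x - 9`.
As `40 x + 40 ≤ n`: `14 x + 9 ≤ 14 n/40 - 5`, so `|T| > n/2 + x` and `|T| > n/2 ≥ l`; `T ≠ ∅`, fix
`t0 ∈ T`.  For `u ∉ T` all `w u t`, `t ∈ T`, have the same value `h_u`.  By `Mk` `w u t ≤ 1`.  Suppose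
`h_u < 0`: for every `t ∈ T` some mark `K i` contains `u` and `t`; the map `t ↦ i(t)` is injective on
`T`, because `t ≠ t'` in the same `K i` would give `w t t' ≤ 1 - 1 = 0`, but `w t t' = 1`; so
`|T| ≤ l`, contradiction.  So `h_u ∈ {0, 1}`.  `K = {v : v ∈ T ∨ w v t0 = 1}`.  `rows` and `sub` clear.
`half`: otherwise there is an injection `T → K \ T`, which gives an involution `τ` exchanging `t`
and its image (weight `1` each), so `2 |T| ≤ ∑ w i (τ i) ≤ 2 s` (`pair_bound`), `|T| ≤ s ≤ n/2 + x`: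
contradiction.  `|K| ≥ |T|`. -/
theorem exists_KT {l : ℕ} {w : V → V → ℤ} (hw : Sym w) (hM : Mk l w) (n r x : ℕ)
    (hx : 40 * x + 40 ≤ n) (hl : 2 * l ≤ n)
    (hW : inn w univ = 2 * (((n.choose 2 : ℕ) : ℤ) + (r : ℤ)))
    (hs : Sb w (((n / 2 : ℕ) : ℤ) + (x : ℤ))) :
    ∃ K T : Finset V, KT w K T ∧ n ≤ K.card + 14 * x + 9 := by
  classical
  obtain ⟨j, T, hj1, hj2, hj3, hT1, hT2⟩ := twin_core hw hs hW
  have hch : 2 * ((n.choose 2 : ℕ) : ℤ) = (n : ℤ) * ((n : ℤ) - 1) := by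
    have h1 : 2 * n.choose 2 = n * (n - 1) := by
      rw [Nat.choose_two_right]
      exact Nat.mul_div_cancel' (Nat.even_mul_pred_self n).two_dvd
    have h2 : ((n - 1 : ℕ) : ℤ) = (n : ℤ) - 1 := by
      rw [Nat.cast_sub (by omega)]; norm_num
    rw [← h2]
    exact_mod_cast h1
  set s : ℤ := ((n / 2 : ℕ) : ℤ) + (x : ℤ) with hsdef
  have hs2 : 2 * s ≤ n + 2 * x := by
    have : 2 * ((n / 2 : ℕ) : ℤ) ≤ n := by exact_mod_cast Nat.mul_div_le n 2
    rw [hsdef]; linarith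
  have hx' : 40 * (x : ℤ) + 40 ≤ n := by exact_mod_cast hx
  have hx0 : (0 : ℤ) ≤ x := Int.natCast_nonneg x
  have hj0 : (0 : ℤ) ≤ j := Int.natCast_nonneg j
  have hr0 : (0 : ℤ) ≤ r := Int.natCast_nonneg r
  have k1 : (n : ℤ) * (n - 1) ≤ (2 * j + 1) * (n + 2 * x) := by nlinarith
  have k2 : (n : ℤ) - 1 - 2 * x ≤ 2 * j + 1 := by
    by_contra hcon
    have h1 : 2 * (j : ℤ) + 1 ≤ n - 2 - 2 * x := by omega
    have h2 : (2 * (j : ℤ) + 1) * (n + 2 * x) ≤ (n - 2 - 2 * x) * (n + 2 * x) :=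
      mul_le_mul_of_nonneg_right h1 (by linarith)
    nlinarith
  have k3 : (n : ℤ) - 14 * x - 9 ≤ T.card := by
    have : 6 * s ≤ 3 * n + 6 * x := by linarith
    linarith
  have k3' : n ≤ T.card + 14 * x + 9 := by
    have : (n : ℤ) ≤ T.card + 14 * x + 9 := by linarith
    exact_mod_cast this
  have k4 : n / 2 + x < T.card := by omega
  have k5 : l < T.card := by omega
  have hTne : T.Nonempty := Finset.card_pos.1 (by omega)
  obtain ⟨t0, ht0⟩ := hTne
  obtain ⟨G, Km, hGK⟩ := hM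
  have hle1 : ∀ a b, a ≠ b → w a b ≤ 1 := by
    intro a b hab
    rw [hGK a b hab]
    have := KT_ad_le G a b
    have h2 : (0 : ℤ) ≤ (((univ.filter fun t => a ∈ Km t ∧ b ∈ Km t).card : ℕ) : ℤ) :=
      Int.natCast_nonneg _
    linarith
  have hsame : ∀ u, u ∉ T → ∀ t ∈ T, w u t = w u t0 := by
    intro u hu t ht
    exact hT2 t ht t0 ht0 u (fun h => hu (h ▸ ht)) (fun h => hu (h ▸ ht0))
  have hnn : ∀ u, u ∉ T → 0 ≤ w u t0 := by
    intro u hu
    by_contra hneg
    have h1 : ∀ t ∈ T, ∃ i : Fin l, u ∈ Km i ∧ t ∈ Km i := by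
      intro t ht
      have h2 : w u t < 0 := by rw [hsame u hu t ht]; omega
      have hut : u ≠ t := fun h => hu (h ▸ ht)
      rw [hGK u t hut] at h2
      have h3 := ad_nonneg G u t
      have h4 : 0 < (univ.filter fun i : Fin l => u ∈ Km i ∧ t ∈ Km i).card := by
        have : (0 : ℤ) < (((univ.filter fun i : Fin l => u ∈ Km i ∧ t ∈ Km i).card : ℕ) : ℤ) := by
          linarith
        exact_mod_cast this
      obtain ⟨i, hi⟩ := Finset.card_pos.1 h4
      exact ⟨i, (Finset.mem_filter.1 hi).2⟩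
    have h1' : ∀ t, ∃ i : Fin l, t ∈ T → u ∈ Km i ∧ t ∈ Km i := by
      intro t
      by_cases ht : t ∈ T
      · obtain ⟨i, hi⟩ := h1 t ht
        exact ⟨i, fun _ => hi⟩
      · obtain ⟨i, -⟩ := h1 t0 ht0
        exact ⟨i, fun h => absurd h ht⟩
    choose f hf using h1'
    have hinj : Set.InjOn f (T : Set V) := by
      intro t ht t' ht' heq
      by_contra hne
      have h2 := hf t ht
      have h3 := hf t' ht'
      rw [← heq] at h3
      have h4 := hT1 t ht t' ht' hne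
      rw [hGK t t' hne] at h4
      have h5 := KT_ad_le G t t'
      have h6 : 0 < (univ.filter fun i : Fin l => t ∈ Km i ∧ t' ∈ Km i).card :=
        Finset.card_pos.2 ⟨f t, Finset.mem_filter.2 ⟨Finset.mem_univ _, h2.2, h3.2⟩⟩
      have h7 : (1 : ℤ) ≤ (((univ.filter fun i : Fin l => t ∈ Km i ∧ t' ∈ Km i).card : ℕ) : ℤ) := by
        exact_mod_cast h6
      linarith
    have h8 : T.card ≤ (univ : Finset (Fin l)).card :=
      Finset.card_le_card_of_injOn f (fun t _ => Finset.mem_univ _) hinj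
    rw [Finset.card_univ, Fintype.card_fin] at h8
    omega
  let K : Finset V := univ.filter fun v => v ∈ T ∨ w v t0 = 1
  have hKm : ∀ v, v ∈ K ↔ v ∈ T ∨ w v t0 = 1 := by
    intro v; simp only [K, Finset.mem_filter, Finset.mem_univ, true_and]
  have hsub : T ⊆ K := fun t ht => (hKm t).2 (Or.inl ht)
  have hrows : ∀ t ∈ T, ∀ v, v ≠ t → w t v = if v ∈ K then 1 else 0 := by
    intro t ht v hvt
    by_cases hvT : v ∈ T
    · rw [if_pos (hsub hvT)]
      exact hT1 t ht v hvT (Ne.symm hvt)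
    · rw [hw.symm t v, hsame v hvT t ht]
      by_cases hv1 : w v t0 = 1
      · rw [if_pos ((hKm v).2 (Or.inr hv1)), hv1]
      · rw [if_neg]
        · have h1 := hnn v hvT
          have h2 := hle1 v t0 (fun h => hvT (h ▸ ht0))
          omega
        · rw [hKm]
          rintro (h | h)
          · exact hvT h
          · exact hv1 h
  refine ⟨K, T, ⟨hsub, ?_, hrows⟩, ?_⟩
  · by_contra hcon
    have h1 : T.card ≤ (K \ T).card := by omega
    have h2 := KT_half hw hs (T := T) (L := K \ T) Finset.disjoint_sdiff h1 (by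
      intro t ht u hu
      rw [Finset.mem_sdiff] at hu
      rw [hrows t ht u (fun h => hu.2 (h ▸ ht)), if_pos hu.1])
    rw [hsdef] at h2
    have h3 : T.card ≤ n / 2 + x := by exact_mod_cast h2
    omega
  · have := Finset.card_le_card hsub
    omega

end Pool.Agent.MP_710317_co.Rec
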