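import Pool.Agent.MP_710317_co.Rec.LowHigh1

namespace Pool.Agent.MP_710317_co.Rec

open Finset Pool.Agent.MP_710317_co

/-- [RQ-HIGHA]  The same for upper bounds: `|a ± (n-1)| ≤ |a| + (n-1)`; in both cases use
`Bl_mem (l+1) r`. -/
theorem highA {l n r d : ℕ} (hn : 10000 ≤ n) (hl : 2 * l ≤ n) (hr : r < n)
    (h : fl (l + 1) r ≤ (n + 1) / 2)
    (he : Even n → Bl (l + 1) r ≤ d) (ho : Odd n → (n - 1) / 2 + Bl (l + 1) r ≤ d) :
    d ∈ highVals l (n.choose 2 + r) := by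
  obtain ⟨N, R, hR, hRcut⟩ := of_mem_highVals (Bl_mem (l + 1) r)
  obtain ⟨x, hx1, hx2, _⟩ := num_fl (l + 1) n r hn hr
  obtain ⟨w', hw', hcut⟩ := consA2 (n := n) hR (by
    have hx1' : (2 : ℤ) * (fl (l + 1) r : ℤ) = r + x := by exact_mod_cast hx1
    have hx2' : (40 : ℤ) * x + 40 ≤ n := by exact_mod_cast hx2
    have hx0 : (0 : ℤ) ≤ x := Int.natCast_nonneg x
    linarith)
  have hfl : fl l (n.choose 2 + r) = n ^ 2 / 4 + fl (l + 1) r := by
    rw [rec_fl hn hl hr, min_eq_right h]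
  have hflc : (fl l (n.choose 2 + r) : ℤ) = ((n ^ 2 / 4 : ℕ) : ℤ) + (fl (l + 1) r : ℤ) := by
    rw [hfl, Nat.cast_add]
  refine mem_highVals (w := w') ?_ ?_
  · rw [hflc, Nat.cast_add]
    exact hw'
  · intro S' hS'
    rw [hflc] at hS'
    obtain ⟨S, hS, hev, hod⟩ := hcut S' hS'
    have hb := hRcut S hS
    rcases Nat.even_or_odd n with hn2 | hn2
    · rw [hev hn2]
      have h1 : ((Bl (l + 1) r : ℕ) : ℤ) ≤ d := by exact_mod_cast he hn2
      linarith
    · have h1 := ho hn2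
      have h2 : ((n : ℤ) - 1) + 2 * (Bl (l + 1) r : ℤ) ≤ 2 * (d : ℤ) := by
        obtain ⟨k, hk⟩ := hn2
        omega
      have h3 : (0 : ℤ) ≤ (n : ℤ) - 1 := by omega
      rw [abs_le] at hb ⊢
      rcases hod hn2 with e | e
      · rw [e]
        constructor
        · linarith [hb.1]
        · linarith [hb.2]
      · rw [e]
        constructor
        · linarith [hb.1]
        · linarith [hb.2]

end Pool.Agent.MP_710317_co.Rec
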