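import Pool.Agent.MP_710317_co.Rec.LowHigh2

namespace Pool.Agent.MP_710317_co.Rec

open Finset Pool.Agent.MP_710317_co

/-- the matrix of the complete graph on `n + 1` vertices minus a star with `n - r` edges -/
theorem LowHigh3_aux {l n r : ℕ} (hn : 10000 ≤ n) (hl : 2 * l ≤ n) (hr : r < n)
    (h : (n + 1) / 2 ≤ fl (l + 1) r) :
    ∃ w : Fin (n + 1) → Fin (n + 1) → ℤ,
      Ex l ((n.choose 2 + r : ℕ) : ℤ) w (fl l (n.choose 2 + r) : ℤ) ∧
      ∀ S : Finset (Fin (n + 1)), crs w S Sᶜ = fl l (n.choose 2 + r) →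
        (Odd n → |inn w S - inn w Sᶜ| = 2 * ((n - r : ℕ) : ℤ)) ∧
        (Even n → |inn w S - inn w Sᶜ| = |(n : ℤ) - 2 * ((n - r : ℕ) : ℤ)| ∨
          |inn w S - inn w Sᶜ| = (n : ℤ) + 2 * ((n - r : ℕ) : ℤ)) := by
  have hfl := rec_fl hn hl hr
  rw [min_eq_left h] at hfl
  obtain ⟨w, hw, hS⟩ := consB l (n + 1) (n - r) (by omega)
  have h1 : fl l (n.choose 2 + r) = (n + 1) ^ 2 / 4 := by
    rw [hfl]
    rcases Nat.even_or_odd n with ⟨m, hm⟩ | ⟨m, hm⟩
    · subst hm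
      have h2 : (m + m) ^ 2 = m ^ 2 * 4 := by ring
      have h3 : (m + m + 1) ^ 2 = 1 + (m ^ 2 + m) * 4 := by ring
      rw [h2, h3, Nat.mul_div_cancel _ (by norm_num), Nat.add_mul_div_right _ _ (by norm_num)]
      omega
    · subst hm
      have h2 : (2 * m + 1) ^ 2 = 1 + (m ^ 2 + m) * 4 := by ring
      have h3 : (2 * m + 1 + 1) ^ 2 = (m ^ 2 + 2 * m + 1) * 4 := by ring
      rw [h2, h3, Nat.mul_div_cancel _ (by norm_num), Nat.add_mul_div_right _ _ (by norm_num)]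
      omega
  have h2 : (n + 1).choose 2 = n + n.choose 2 := by
    rw [Nat.choose_succ_succ' n 1, Nat.choose_one_right]
  have h3 : ((((n + 1).choose 2 : ℕ) : ℤ) - ((n - r : ℕ) : ℤ)) = ((n.choose 2 + r : ℕ) : ℤ) := by
    rw [h2, Nat.cast_sub hr.le]
    push_cast
    ring
  rw [h3, ← h1] at hw
  rw [← h1] at hS
  refine ⟨w, hw, fun S hSS => ?_⟩
  obtain ⟨h4, h5⟩ := hS S hSS
  refine ⟨fun hod => h4 hod.add_one, fun hev => ?_⟩
  have h6 := h5 hev.add_one
  have h7 : (((n + 1 : ℕ) : ℤ) - 1) = (n : ℤ) := by push_cast; ring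
  rw [h7] at h6
  exact h6

/-- [RQ-LHB]  Membership from the complete graph on `n + 1` vertices minus a star: `consB` with
`N = n + 1`, `y = n - r ≤ x ≤ n/40` (from `(n+1)/2 ≤ f`, `2 f = r + x`).  -/
theorem lowB {l n r d : ℕ} (hn : 10000 ≤ n) (hl : 2 * l ≤ n) (hr : r < n)
    (h : (n + 1) / 2 ≤ fl (l + 1) r)
    (ho : Odd n → d ≤ n - r) (he : Even n → d + (n - r) ≤ n / 2) :
    d ∈ lowVals l (n.choose 2 + r) := by
  obtain ⟨w, hw, hS⟩ := LowHigh3_aux hn hl hr h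
  refine mem_lowVals hw fun S hSS => ?_
  obtain ⟨h4, h5⟩ := hS S hSS
  rcases Nat.even_or_odd n with hev | hod
  · have h6 := he hev
    rcases h5 hev with h7 | h7
    · rw [h7]
      refine le_trans ?_ (le_abs_self _)
      omega
    · rw [h7]
      omega
  · rw [h4 hod]
    have h6 := ho hod
    omega

theorem highB {l n r d : ℕ} (hn : 10000 ≤ n) (hl : 2 * l ≤ n) (hr : r < n)
    (h : (n + 1) / 2 ≤ fl (l + 1) r)
    (ho : Odd n → n - r ≤ d) (he : Even n → n / 2 + (n - r) ≤ d) :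
    d ∈ highVals l (n.choose 2 + r) := by
  obtain ⟨w, hw, hS⟩ := LowHigh3_aux hn hl hr h
  refine mem_highVals hw fun S hSS => ?_
  obtain ⟨h4, h5⟩ := hS S hSS
  rcases Nat.even_or_odd n with hev | hod
  · have h6 := he hev
    have h8 := hev.two_dvd
    rcases h5 hev with h7 | h7
    · rw [h7]
      refine abs_le.mpr ⟨?_, ?_⟩ <;> omega
    · rw [h7]
      omega
  · rw [h4 hod]
    have h6 := ho hod
    omega

end Pool.Agent.MP_710317_co.Rec
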