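import Pool.Agent.MP_710317_co.Rec.LowHigh3

namespace Pool.Agent.MP_710317_co.Rec

open Finset Pool.Agent.MP_710317_co

theorem LowHigh4_two_choose (n : ℕ) : 2 * ((n.choose 2 : ℕ) : ℤ) = (n : ℤ) * ((n : ℤ) - 1) := by
  induction n with
  | zero => simp
  | succ n ih =>
    rw [Nat.choose_succ_succ' n 1, Nat.choose_one_right]
    push_cast
    linarith

/-- the total of the remainder over a complete graph on `n + 1` vertices -/
theorem LowHigh4_tot {V : Type*} [Fintype V] [DecidableEq V] {l n r : ℕ} {c : ℤ}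
    {w : V → V → ℤ} (hE : Ex l ((n.choose 2 + r : ℕ) : ℤ) w c) {K : Finset V}
    (hK : K.card = n + 1) :
    inn (fun i j => w i j - Jm K i j) univ = 2 * (r : ℤ) - 2 * n := by
  have h1 := LowHigh4_two_choose n
  rw [inn_sub, inn_Jm, hE.tot, Finset.inter_univ, hK]
  push_cast
  linarith

/-- [RQ-LOWC]  Every lower value comes from one of the two cases.
Proof.  `of_mem_lowVals` gives `w`, `c = fl l m = n²/4 + min ((n+1)/2) f` (`rec_fl`), `dichotomy`.
Case `|K| = n`: `R` has `Ex (l+1) r R (c - n²/4)` so `f ≤ c - n²/4 = min ((n+1)/2) f` (`fl_le`), i.e.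
`f ≤ (n+1)/2` and `c - n²/4 = f`.
 `n` even: `d ∈ lowVals (l+1) r` by `mem_lowVals`: for a maximum cut `S` of `R` take `S'` from `extend`
with `a = n/2`: `crs w S' S'ᶜ = f + n²/4 = c` and the differences agree; `le_Dl`.
 `n` odd: `highVals (l+1) r ∋ (n-1)/2 - d`: for a maximum cut `S` of `R` with
`δ = inn R S - inn R Sᶜ`, `extend` with `a = (n+1)/2` and `a = n/2` gives maximum cuts of `w` with
differences `δ + (n-1)` and `δ - (n-1)`; both have absolute value `≥ 2 d`; as `|δ| ≤ 2 (2 f - r) = 2 x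
≤ n - 1` (`flip_fl`), one of them has absolute value `(n-1) - |δ|`; so `|δ| ≤ (n-1) - 2 d`, in
particular (`attained`) `2 d ≤ n - 1`; `Bl_le`.
Case `|K| = n + 1`: `c ≥ n²/4 + (n+1)/2` gives `(n+1)/2 ≤ f` and all cuts of `R` are `≤ 0`; `S = ∅` is a
maximum cut of `R` (value `0`), `inn R ∅ = 0`, `inn R univ = 2 (m - C(n+1,2)) = - 2 (n - r)`.  `extend` with
`S = ∅`: `n` odd (`n + 1` even, `a = (n+1)/2`): `|difference| = 2 (n - r)`, so `d ≤ n - r`.  `n` even
(`a = n/2` or `n/2 + 1`): differences `± n + 2 (n - r)`, one has absolute value `n - 2 (n - r)` (as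
`n - r ≤ x ≤ n/40`), so `d + (n - r) ≤ n/2`. -/
theorem lowC {l n r d : ℕ} (hn : 10000 ≤ n) (hl : 2 * l ≤ n) (hr : r < n)
    (hd : d ∈ lowVals l (n.choose 2 + r)) :
    (fl (l + 1) r ≤ (n + 1) / 2 ∧ (Even n → d ≤ Dl (l + 1) r) ∧
        (Odd n → d + Bl (l + 1) r ≤ (n - 1) / 2)) ∨
      ((n + 1) / 2 ≤ fl (l + 1) r ∧ (Odd n → d ≤ n - r) ∧ (Even n → d + (n - r) ≤ n / 2)) := by
  obtain ⟨x, hx1, hx2, _⟩ := num_fl (l + 1) n r hn hr
  obtain ⟨N, w, hE, hw⟩ := of_mem_lowVals hd
  have hrec := rec_fl hn hl hr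
  obtain ⟨K, T, hKT, hK⟩ := dichotomy hn hl hr hE hrec.le
  rcases hK with ⟨hK, hc, hR⟩ | ⟨hK, hc, _⟩
  · -- `|K| = n`
    left
    have h1 := fl_le hR
    have hf : fl (l + 1) r ≤ (n + 1) / 2 := by omega
    have h2 : fl l (n.choose 2 + r) - n ^ 2 / 4 = fl (l + 1) r := by omega
    have h3 : fl l (n.choose 2 + r) = n ^ 2 / 4 + fl (l + 1) r := by omega
    rw [h2] at hR
    rw [h3] at hw
    refine ⟨hf, ?_, ?_⟩
    · rintro ⟨k, rfl⟩
      apply le_Dl
      apply mem_lowVals hR
      intro S hS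
      obtain ⟨S', e1, e2, e3⟩ := extend hE.sym hKT k (by omega) (by omega) S
      have h4 : (k + k) ^ 2 / 4 = k * k := by
        rw [show (k + k) ^ 2 = k * k * 4 by ring]
        exact Nat.mul_div_cancel _ (by norm_num)
      have h5 := hw S' (by
        rw [e1, hS, hK, h4]
        push_cast
        ring)
      rw [e2, e3, hK] at h5
      push_cast at h5
      have h6 : inn (fun i j => w i j - Jm K i j) S + (k : ℤ) * (k - 1) -
          (inn (fun i j => w i j - Jm K i j) Sᶜ + ((k : ℤ) + k - k) * ((k : ℤ) + k - k - 1)) =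
          inn (fun i j => w i j - Jm K i j) S - inn (fun i j => w i j - Jm K i j) Sᶜ := by ring
      rw [h6] at h5
      exact h5
    · rintro ⟨k, rfl⟩
      have hkey : ∀ S, crs (fun i j => w i j - Jm K i j) S Sᶜ = (fl (l + 1) r : ℤ) →
          |inn (fun i j => w i j - Jm K i j) S - inn (fun i j => w i j - Jm K i j) Sᶜ| ≤
            2 * (k : ℤ) - 2 * d := by
        intro S hS
        have hδ := flip_fl hR S hS
        obtain ⟨S1, e1, e2, e3⟩ := extend hE.sym hKT k (by omega) (by omega) S
        obtain ⟨S2, f1, f2, f3⟩ := extend hE.sym hKT (k + 1) (by omega) (by omega) S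
        have h4 : (2 * k + 1) ^ 2 / 4 = k * (k + 1) := by
          rw [show (2 * k + 1) ^ 2 = 1 + k * (k + 1) * 4 by ring,
            Nat.add_mul_div_right _ _ (by norm_num)]
          norm_num
        have h5 := hw S1 (by
          rw [e1, hS, hK, h4]
          push_cast
          ring)
        have h6 := hw S2 (by
          rw [f1, hS, hK, h4]
          push_cast
          ring)
        rw [e2, e3, hK] at h5
        rw [f2, f3, hK] at h6
        push_cast at h5 h6
        generalize inn (fun i j => w i j - Jm K i j) S = A at *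
        generalize inn (fun i j => w i j - Jm K i j) Sᶜ = B at *
        have h7 : A + (k : ℤ) * (k - 1) - (B + (2 * (k : ℤ) + 1 - k) * (2 * (k : ℤ) + 1 - k - 1)) =
            A - B - 2 * k := by ring
        have h8 : A + ((k : ℤ) + 1) * ((k : ℤ) + 1 - 1) -
            (B + (2 * (k : ℤ) + 1 - (k + 1)) * (2 * (k : ℤ) + 1 - (k + 1) - 1)) =
            A - B + 2 * k := by ring
        rw [h7] at h5
        rw [h8] at h6
        have h9 : 2 * (2 * (fl (l + 1) r : ℤ) - r) ≤ 2 * k := by
          have : (2 * fl (l + 1) r : ℤ) = r + x := by exact_mod_cast hx1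
          have : (40 * x + 40 : ℤ) ≤ 2 * k + 1 := by exact_mod_cast hx2
          linarith
        have h10 := abs_le.1 (hδ.trans h9)
        rw [abs_of_nonpos (by linarith)] at h5
        rw [abs_of_nonneg (by linarith)] at h6
        rw [abs_le]
        constructor <;> linarith
      obtain ⟨S0, hS0⟩ := attained hR
      have hdk : d ≤ k := by
        have := (abs_nonneg _).trans (hkey S0 hS0)
        omega
      have hmem : k - d ∈ highVals (l + 1) r := by
        apply mem_highVals hR
        intro S hS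
        have := hkey S hS
        push_cast [hdk]
        linarith
      have := Bl_le hmem
      omega
  · -- `|K| = n + 1`
    right
    have hf : (n + 1) / 2 ≤ fl (l + 1) r := by omega
    have h3 : fl l (n.choose 2 + r) = n ^ 2 / 4 + (n + 1) / 2 := by omega
    rw [h3] at hw
    have htot := LowHigh4_tot hE hK
    have hcrs : crs (fun i j => w i j - Jm K i j) ∅ ∅ᶜ = 0 := by simp [crs]
    have hinn : inn (fun i j => w i j - Jm K i j) ∅ = 0 := by simp [inn]
    refine ⟨hf, ?_, ?_⟩
    · rintro ⟨k, rfl⟩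
      obtain ⟨S', e1, e2, e3⟩ := extend hE.sym hKT (k + 1) (by omega) (by omega) ∅
      rw [Finset.compl_empty, htot] at e3
      rw [hinn] at e2
      rw [hcrs] at e1
      have h4 : (2 * k + 1) ^ 2 / 4 + (2 * k + 1 + 1) / 2 = (k + 1) * (k + 1) := by
        rw [show (2 * k + 1) ^ 2 = 1 + k * (k + 1) * 4 by ring,
          Nat.add_mul_div_right _ _ (by norm_num), show (2 * k + 1 + 1) = (k + 1) * 2 by ring,
          Nat.mul_div_cancel _ (by norm_num)]
        norm_num
        ring
      have h5 := hw S' (by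
        rw [e1, hK, h4]
        push_cast
        ring)
      rw [e2, e3, hK] at h5
      push_cast at h5
      have h6 : 0 + ((k : ℤ) + 1) * ((k : ℤ) + 1 - 1) - (2 * (r : ℤ) - 2 * (2 * k + 1) +
          (2 * (k : ℤ) + 1 + 1 - (k + 1)) * (2 * (k : ℤ) + 1 + 1 - (k + 1) - 1)) =
          2 * (2 * k + 1 - r) := by ring
      rw [h6, abs_of_nonneg (by
        have : (r : ℤ) < 2 * k + 1 := by exact_mod_cast hr
        linarith)] at h5
      omega
    · rintro ⟨k, rfl⟩
      obtain ⟨S', e1, e2, e3⟩ := extend hE.sym hKT k (by omega) (by omega) ∅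
      rw [Finset.compl_empty, htot] at e3
      rw [hinn] at e2
      rw [hcrs] at e1
      have h4 : (k + k) ^ 2 / 4 + (k + k + 1) / 2 = k * (k + 1) := by
        rw [show (k + k) ^ 2 = k * k * 4 by ring, Nat.mul_div_cancel _ (by norm_num),
          show (k + k + 1) / 2 = k by omega]
        ring
      have h5 := hw S' (by
        rw [e1, hK, h4]
        push_cast
        ring)
      rw [e2, e3, hK] at h5
      push_cast at h5
      have h6 : 0 + (k : ℤ) * ((k : ℤ) - 1) - (2 * (r : ℤ) - 2 * (k + k) +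
          ((k : ℤ) + k + 1 - k) * ((k : ℤ) + k + 1 - k - 1)) =
          -(2 * (k : ℤ) - 2 * (k + k - r)) := by ring
      rw [h6, abs_neg, abs_of_nonneg (by omega)] at h5
      omega

end Pool.Agent.MP_710317_co.Rec
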