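import Pool.Agent.MP_710317_co.Rec.LowHigh4

namespace Pool.Agent.MP_710317_co.Rec

open Finset Pool.Agent.MP_710317_co

theorem highC_ext {V : Type*} [Fintype V] [DecidableEq V] {w : V → V → ℤ} (hw : Sym w)
    {K T : Finset V} (hKT : KT w K T) (a b : ℕ) (hab : a + b = K.card) (h1 : a ≤ b + 1)
    (h2 : b ≤ a + 1) (S : Finset V) :
    ∃ S' : Finset V,
      crs w S' S'ᶜ = crs (fun i j => w i j - Jm K i j) S Sᶜ + (a : ℤ) * b ∧
      inn w S' - inn w S'ᶜ = inn (fun i j => w i j - Jm K i j) S -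
        inn (fun i j => w i j - Jm K i j) Sᶜ + ((a : ℤ) * (a - 1) - (b : ℤ) * (b - 1)) := by
  obtain ⟨S', e1, e2, e3⟩ := extend hw hKT a (by omega) (by omega) S
  have hb : (K.card : ℤ) - a = b := by
    rw [← hab]; push_cast; ring
  rw [hb] at e1 e3
  refine ⟨S', e1, ?_⟩
  rw [e2, e3]
  ring

/-- [RQ-HIGHC]  The same for upper values.  Case `|K| = n`: `n` even: `d ∈ highVals (l+1) r`.  `n` odd: for
a maximum cut `S` of `R` one of `|δ ± (n-1)|` is `(n-1) + |δ| ≤ 2 d`, so `d - (n-1)/2 ∈ highVals (l+1) r`.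
Case `|K| = n+1`, `S = ∅`: `n` odd: `2 (n - r) ≤ 2 d`; `n` even: `n + 2 (n - r) ≤ 2 d`. -/
theorem highC {l n r d : ℕ} (hn : 10000 ≤ n) (hl : 2 * l ≤ n) (hr : r < n)
    (hd : d ∈ highVals l (n.choose 2 + r)) :
    (fl (l + 1) r ≤ (n + 1) / 2 ∧ (Even n → Bl (l + 1) r ≤ d) ∧
        (Odd n → (n - 1) / 2 + Bl (l + 1) r ≤ d)) ∨
      ((n + 1) / 2 ≤ fl (l + 1) r ∧ (Odd n → n - r ≤ d) ∧ (Even n → n / 2 + (n - r) ≤ d)) := by
  classical
  obtain ⟨N, w, hE, hmax⟩ := of_mem_highVals hd
  have hrec := rec_fl (l := l) hn hl hr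
  obtain ⟨K, T, hKT, hcase⟩ := dichotomy hn hl hr hE hrec.le
  rcases hcase with ⟨hK, hcn, hR⟩ | ⟨hK, hcn, hR⟩
  · left
    have hf : fl (l + 1) r ≤ fl l (n.choose 2 + r) - n ^ 2 / 4 := fl_le hR
    have hf1 : fl (l + 1) r ≤ (n + 1) / 2 := by omega
    have hf2 : fl l (n.choose 2 + r) - n ^ 2 / 4 = fl (l + 1) r := by omega
    have hf3 : fl l (n.choose 2 + r) = n ^ 2 / 4 + fl (l + 1) r := by omega
    rw [hf2] at hR
    refine ⟨hf1, ?_, ?_⟩
    · rintro ⟨p, hp⟩
      refine Bl_le (mem_highVals hR fun S hS => ?_)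
      obtain ⟨S', e1, e2⟩ := highC_ext hE.sym hKT p p (by omega) (by omega) (by omega) S
      have hp2 : n ^ 2 / 4 = p * p := by
        have : n ^ 2 = 4 * (p * p) := by rw [hp]; ring
        omega
      have h1 : crs w S' S'ᶜ = (fl l (n.choose 2 + r) : ℕ) := by
        rw [e1, hS, hf3, hp2]; push_cast; ring
      have h2 := hmax S' h1
      rw [e2] at h2
      simpa using h2
    · rintro ⟨p, hp⟩
      have hp2 : n ^ 2 / 4 = p * (p + 1) := by
        have : n ^ 2 = 4 * (p * (p + 1)) + 1 := by rw [hp]; ring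
        omega
      have hp3 : (n - 1) / 2 = p := by omega
      have key : ∀ S, crs (fun i j => w i j - Jm K i j) S Sᶜ = fl (l + 1) r →
          (2 * (p : ℤ)) + |inn (fun i j => w i j - Jm K i j) S -
            inn (fun i j => w i j - Jm K i j) Sᶜ| ≤ 2 * (d : ℤ) := by
        intro S hS
        obtain ⟨S', e1, e2⟩ := highC_ext hE.sym hKT p (p + 1) (by omega) (by omega) (by omega) S
        obtain ⟨S'', e3, e4⟩ := highC_ext hE.sym hKT (p + 1) p (by omega) (by omega) (by omega) S
        have h1 : crs w S' S'ᶜ = (fl l (n.choose 2 + r) : ℕ) := by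
          rw [e1, hS, hf3, hp2]; push_cast; ring
        have h2 : crs w S'' S''ᶜ = (fl l (n.choose 2 + r) : ℕ) := by
          rw [e3, hS, hf3, hp2]; push_cast; ring
        have h3 := hmax S' h1
        have h4 := hmax S'' h2
        rw [e2] at h3
        rw [e4] at h4
        push_cast at h3 h4
        set δ := inn (fun i j => w i j - Jm K i j) S - inn (fun i j => w i j - Jm K i j) Sᶜ with hδ
        have g1 := (abs_le.1 h3).1
        have g2 := (abs_le.1 h4).2
        rcases abs_cases δ with ⟨h5, _⟩ | ⟨h5, _⟩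
        · rw [h5]; nlinarith
        · rw [h5]; nlinarith
      obtain ⟨S0, hS0⟩ := attained hR
      have h0 := key S0 hS0
      have h0' := abs_nonneg (inn (fun i j => w i j - Jm K i j) S0 -
            inn (fun i j => w i j - Jm K i j) S0ᶜ)
      have hpd : p ≤ d := by omega
      have hB : Bl (l + 1) r ≤ d - p := by
        refine Bl_le (mem_highVals hR fun S hS => ?_)
        have h1 := key S hS
        rw [Nat.cast_sub hpd]
        linarith
      omega
  · right
    have hf1 : (n + 1) / 2 ≤ fl (l + 1) r := by omega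
    have hf2 : fl l (n.choose 2 + r) = n ^ 2 / 4 + (n + 1) / 2 := by omega
    have hch : (2 : ℤ) * ((n.choose 2 + r : ℕ) : ℤ) = (n : ℤ) * (n - 1) + 2 * r := by
      have h1 : 2 * n.choose 2 = n * (n - 1) := by
        rw [Nat.choose_two_right]
        exact Nat.mul_div_cancel' (Nat.even_mul_pred_self n).two_dvd
      have h2 : ((2 * n.choose 2 : ℕ) : ℤ) = ((n * (n - 1) : ℕ) : ℤ) := by rw [h1]
      rw [Nat.cast_mul, Nat.cast_mul, Nat.cast_sub (by omega)] at h2
      push_cast at h2 ⊢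
      linarith
    have hRu : inn (fun i j => w i j - Jm K i j) univ = 2 * (r : ℤ) - 2 * n := by
      rw [inn_sub, hE.tot, inn_Jm, hch, Finset.inter_univ, hK]
      push_cast
      ring
    have hR0 : inn (fun i j => w i j - Jm K i j) (∅ : Finset (Fin N)) = 0 := by simp [inn]
    have hC0 : crs (fun i j => w i j - Jm K i j) (∅ : Finset (Fin N)) (∅ : Finset (Fin N))ᶜ = 0 := by
      simp [crs]
    refine ⟨hf1, ?_, ?_⟩
    · rintro ⟨p, hp⟩
      obtain ⟨S', e1, e2⟩ := highC_ext hE.sym hKT (p + 1) (p + 1) (by omega) (by omega) (by omega) ∅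
      rw [Finset.compl_empty, hRu, hR0] at e2
      rw [hC0] at e1
      have hp2 : n ^ 2 / 4 = p * (p + 1) := by
        have : n ^ 2 = 4 * (p * (p + 1)) + 1 := by rw [hp]; ring
        omega
      have hp3 : (n + 1) / 2 = p + 1 := by omega
      have h1 : crs w S' S'ᶜ = (fl l (n.choose 2 + r) : ℕ) := by
        rw [e1, hf2, hp2, hp3]; push_cast; ring
      have h2 := hmax S' h1
      rw [e2] at h2
      have h3 := (abs_le.1 h2).2
      push_cast at h3
      have h4 : (n : ℤ) - r ≤ d := by linarith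
      omega
    · rintro ⟨p, hp⟩
      obtain ⟨S', e1, e2⟩ := highC_ext hE.sym hKT (p + 1) p (by omega) (by omega) (by omega) ∅
      rw [Finset.compl_empty, hRu, hR0] at e2
      rw [hC0] at e1
      have hp2 : n ^ 2 / 4 = p * p := by
        have : n ^ 2 = 4 * (p * p) := by rw [hp]; ring
        omega
      have hp3 : (n + 1) / 2 = p := by omega
      have h1 : crs w S' S'ᶜ = (fl l (n.choose 2 + r) : ℕ) := by
        rw [e1, hf2, hp2, hp3]; push_cast; ring
      have h2 := hmax S' h1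
      rw [e2] at h2
      have h3 := (abs_le.1 h2).2
      push_cast at h3
      have h5 : ((p : ℤ) + 1) * ((p : ℤ) + 1 - 1) - (p : ℤ) * ((p : ℤ) - 1) = 2 * p := by ring
      have h4 : (p : ℤ) + (n - r) ≤ d := by linarith
      omega

end Pool.Agent.MP_710317_co.Rec
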