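import Pool.Agent.MP_710317_co.Rec.LowHigh1
import Pool.Agent.MP_710317_co.Rec.LowHigh2
import Pool.Agent.MP_710317_co.Rec.LowHigh3
import Pool.Agent.MP_710317_co.Rec.LowHigh4
import Pool.Agent.MP_710317_co.Rec.LowHigh5
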