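import Pool.Agent.MP_710317_co.Rec.RecF

namespace Pool.Agent.MP_710317_co.Rec

open Finset Pool.Agent.MP_710317_co

/-- [RQ-LOWA]  Membership from the construction with the complete graph on `n` vertices.
Proof.  `Dl_mem (l+1) r`, `of_mem_lowVals` give `R` with `Ex (l+1) r R f`, `f = fl (l+1) r` and
`2 Dl ≤ |inn R S - inn R Sᶜ|` for its maximum cuts.  `consA2` (`3 (2 f - r) = 3 x ≤ n`, `num_fl`) gives
`w'` with `Ex l m w' (n²/4 + f)` and `n²/4 + f = fl l m` by `rec_fl` and `h`.  `mem_lowVals`: even case: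
the differences are those of `R`.  Odd case: use `Bl_mem (l+1) r`:
`|a ± (n-1)| ≥ (n-1) - |a| ≥ (n-1) - 2 Bl`, and `2 d ≤ (n - 1) - 2 Bl`. -/
theorem lowA {l n r d : ℕ} (hn : 10000 ≤ n) (hl : 2 * l ≤ n) (hr : r < n)
    (h : fl (l + 1) r ≤ (n + 1) / 2)
    (he : Even n → d ≤ Dl (l + 1) r) (ho : Odd n → d + Bl (l + 1) r ≤ (n - 1) / 2) :
    d ∈ lowVals l (n.choose 2 + r) := by
  obtain ⟨x, hx1, hx2, -⟩ := num_fl (l + 1) n r hn hr
  have hfl := rec_fl hn hl hr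
  rw [min_eq_right h] at hfl
  have hfl' : ((fl l (n.choose 2 + r) : ℕ) : ℤ) = ((n ^ 2 / 4 : ℕ) : ℤ) + (fl (l + 1) r : ℤ) := by
    rw [hfl, Nat.cast_add]
  have h3 : 3 * (2 * (fl (l + 1) r : ℤ) - (r : ℤ)) ≤ (n : ℤ) := by
    have h4 : 2 * (fl (l + 1) r : ℤ) = (r : ℤ) + (x : ℤ) := by exact_mod_cast hx1
    omega
  rcases Nat.even_or_odd n with hev | hod
  · obtain ⟨N, R, hE, hR⟩ := of_mem_lowVals (Dl_mem (l + 1) r)
    obtain ⟨w, hw, hS⟩ := consA2 (n := n) hE h3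
    refine mem_lowVals (w := w) ?_ ?_
    · rw [hfl', Nat.cast_add]
      exact hw
    · intro S' hS'
      rw [hfl'] at hS'
      obtain ⟨S, h1, h2, -⟩ := hS S' hS'
      rw [h2 hev]
      have h5 := hR S h1
      have h6 : (d : ℤ) ≤ (Dl (l + 1) r : ℤ) := by exact_mod_cast he hev
      linarith
  · obtain ⟨N, R, hE, hR⟩ := of_mem_highVals (Bl_mem (l + 1) r)
    obtain ⟨w, hw, hS⟩ := consA2 (n := n) hE h3
    refine mem_lowVals (w := w) ?_ ?_
    · rw [hfl', Nat.cast_add]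
      exact hw
    · intro S' hS'
      rw [hfl'] at hS'
      obtain ⟨S, h1, -, h2⟩ := hS S' hS'
      have h5 := abs_le.mp (hR S h1)
      have h6 := ho hod
      have h7 : 2 * (d : ℤ) + 2 * (Bl (l + 1) r : ℤ) ≤ (n : ℤ) - 1 := by omega
      rcases h2 hod with h2 | h2
      · rw [h2]
        refine le_trans ?_ (le_abs_self _)
        linarith [h5.1]
      · rw [h2]
        refine le_trans ?_ (neg_le_abs _)
        linarith [h5.2]

end Pool.Agent.MP_710317_co.Rec
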