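import Pool.Agent.MP_710317_co.Rec.NumU1

namespace Pool.Agent.MP_710317_co.Rec

open Finset Pool.Agent.MP_710317_co

theorem num_fl_aux (a : ℕ) : 2 * (a ^ 2 / 4) = a.choose 2 + a / 2 := by
  rcases Nat.even_or_odd' a with ⟨k, rfl | rfl⟩
  · have h1 : (2 * k) ^ 2 / 4 = k ^ 2 := by
      rw [show (2 * k) ^ 2 = 4 * k ^ 2 by ring]
      exact Nat.mul_div_cancel_left _ (by norm_num)
    have h2 : (2 * k).choose 2 * 2 = 2 * k * (2 * k - 1) := by
      rw [Nat.choose_two_right]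
      exact Nat.div_mul_cancel (Nat.even_mul_pred_self _).two_dvd
    rw [h1]
    rcases Nat.eq_zero_or_pos k with h0 | h0
    · rw [h0]; simp
    · obtain ⟨j, rfl⟩ : ∃ j, k = j + 1 := ⟨k - 1, by omega⟩
      have h3 : 2 * (j + 1) - 1 = 2 * j + 1 := by omega
      rw [h3] at h2
      have h4 : 2 * (j + 1) / 2 = j + 1 := by omega
      rw [h4]
      nlinarith
  · have h1 : (2 * k + 1) ^ 2 / 4 = k ^ 2 + k := by
      rw [show (2 * k + 1) ^ 2 = 1 + 4 * (k ^ 2 + k) by ring]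
      rw [Nat.add_mul_div_left _ _ (by norm_num)]
      norm_num
    have h2 : (2 * k + 1).choose 2 * 2 = (2 * k + 1) * (2 * k + 1 - 1) := by
      rw [Nat.choose_two_right]
      exact Nat.div_mul_cancel (Nat.even_mul_pred_self _).two_dvd
    rw [Nat.add_sub_cancel] at h2
    have h4 : (2 * k + 1) / 2 = k := by omega
    rw [h1, h4]
    nlinarith

/-- [RQ-NUM2]  Proof: `consU` with the expansion of `num_expand`: `fl l r ≤ a²/4 + b²/4 + c`, and
`2 (a²/4 + b²/4 + c) = r + (a/2 + b/2 + c)` (`2 (a²/4) = C(a,2) + a/2`).  `x = 2 fl l r - r ≥ 0` by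
`half_le`; the conditions are monotone in `x`. -/
theorem num_fl (l n r : ℕ) (hn : 10000 ≤ n) (hr : r < n) :
    ∃ x : ℕ, 2 * fl l r = r + x ∧ 40 * x + 40 ≤ n ∧
      (2 * x + 2) * (2 * x + 3) + 2 < 2 * r + 2 * n := by
  obtain ⟨a, b, c, h1, h2, h3⟩ := num_expand n r hn hr
  have h4 := half_le l r
  have h5 : fl l r ≤ a ^ 2 / 4 + b ^ 2 / 4 + c := by
    have := consU l a b c
    rw [← h1] at this
    exact Nat.sInf_le this
  have ha := num_fl_aux a
  have hb := num_fl_aux b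
  have hx : 2 * fl l r - r ≤ a / 2 + b / 2 + c := by omega
  refine ⟨2 * fl l r - r, by omega, by omega, ?_⟩
  generalize 2 * fl l r - r = x at hx ⊢
  generalize a / 2 + b / 2 + c = y at hx h3
  have h6 : (2 * x + 2) * (2 * x + 3) ≤ (2 * y + 2) * (2 * y + 3) :=
    Nat.mul_le_mul (by omega) (by omega)
  omega

end Pool.Agent.MP_710317_co.Rec
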