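import Pool.Agent.MP_710317_co.Rec.Vals

namespace Pool.Agent.MP_710317_co.Rec

open Finset Pool.Agent.MP_710317_co

theorem NumU1_tri (m : ℕ) : 2 * (m + 1).choose 2 = (m + 1) * m := by
  induction m with
  | zero => simp
  | succ m ih =>
    rw [Nat.choose_succ_succ (m + 1) 1, Nat.choose_one_right, mul_add, ih]
    ring

theorem NumU1_exists (r : ℕ) : ∃ A, (A + 1).choose 2 ≤ r ∧ r ≤ (A + 1).choose 2 + A := by
  induction r with
  | zero => exact ⟨0, by simp, by simp⟩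
  | succ r ih =>
    obtain ⟨A, h1, h2⟩ := ih
    by_cases h : r + 1 ≤ (A + 1).choose 2 + A
    · exact ⟨A, by omega, h⟩
    · have h3 : (A + 1 + 1).choose 2 = (A + 1).choose 1 + (A + 1).choose 2 :=
        Nat.choose_succ_succ' (A + 1) 1
      rw [Nat.choose_one_right] at h3
      exact ⟨A + 1, by omega, by omega⟩

theorem NumU1_8 (A B : ℕ) (h : 140 < A) (hBA : (B + 1) * B ≤ 2 * A) : 8 * B ≤ A := by
  by_contra hcon
  push Not at hcon
  have h1 : (A + 9) * (A + 1) ≤ (8 * B + 8) * (8 * B) := Nat.mul_le_mul (by omega) (by omega)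
  have h2 : (8 * B + 8) * (8 * B) = 64 * ((B + 1) * B) := by ring
  have h3 : (A + 9) * (A + 1) = A * A + 10 * A + 9 := by ring
  have h4 : 141 * A ≤ A * A := Nat.mul_le_mul_right A (by omega)
  omega

/-- [RQ-NUM]  Two-step triangular expansion.
Proof.  `a` largest with `C(a,2) ≤ r`, `b` largest with `C(b,2) ≤ r - C(a,2)`, `c` the rest.  So
`a (a-1) ≤ 2 r < 2 n`, `r < C(a+1,2)`, hence `r - C(a,2) ≤ a - 1` and `b (b-1) ≤ 2 (a-1)` (if `a ≥ 1`;
`a ≥ 1` always, as `C(1,2) = 0`), `c ≤ b - 1`, `b ≥ 1`.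
With `x = a/2 + b/2 + c`: `2 x ≤ a + b + 2 (b-1) = a + 3 b - 2`, and `2 r ≥ a (a-1)`.
(N1) `(2x+2)(2x+3) + 2 ≤ (a+3b)(a+3b+1) + 2 = a² + 6ab + 9b² + a + 3b + 2`, so it is enough that
`6ab + 9b² + 2a + 3b + 2 < 2n`.  If `a ≤ 141`: `b ≤ 17` (`17·18 = 306 > 280`), and
`6·141·17 + 9·289 + 282 + 51 + 2 = 17318 < 20000 ≤ 2n`.  If `a ≥ 142`: `8b ≤ a` (else `8b ≥ a+1` and
`(a+1)(a-7) ≤ 64 b(b-1) ≤ 128 (a-1)`, false for `a ≥ 134`), so
`6ab + 9b² + 2a + 3b + 2 ≤ 57a²/64 + 19a/8 + 2 < a(a-1) ≤ 2 r < 2n`.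
(N2) `40x + 40 ≤ 20(a+3b-2) + 40 = 20a + 60b`; `a ≤ 141`: `≤ 3840 ≤ n`; `a ≥ 142`:
`≤ 27.5 a + ... ≤ a(a-1)/2 ≤ n`. -/
theorem num_expand (n r : ℕ) (hn : 10000 ≤ n) (hr : r < n) :
    ∃ a b c : ℕ, r = a.choose 2 + b.choose 2 + c ∧
      40 * (a / 2 + b / 2 + c) + 40 ≤ n ∧
      (2 * (a / 2 + b / 2 + c) + 2) * (2 * (a / 2 + b / 2 + c) + 3) + 2 < 2 * r + 2 * n := by
  obtain ⟨A, hA1, hA2⟩ := NumU1_exists r
  obtain ⟨B, hB1, hB2⟩ := NumU1_exists (r - (A + 1).choose 2)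
  obtain ⟨c, hc⟩ : ∃ c, c = r - (A + 1).choose 2 - (B + 1).choose 2 := ⟨_, rfl⟩
  have hr' : r = (A + 1).choose 2 + (B + 1).choose 2 + c := by omega
  have hcB : c ≤ B := by omega
  have hTA := NumU1_tri A
  have hTB := NumU1_tri B
  have hBA : (B + 1) * B ≤ 2 * A := by omega
  have hAr : (A + 1) * A ≤ 2 * r := by omega
  have hx : 2 * ((A + 1) / 2 + (B + 1) / 2 + c) ≤ A + 3 * B + 2 := by omega
  refine ⟨A + 1, B + 1, c, hr', ?_, ?_⟩
  · generalize (A + 1) / 2 + (B + 1) / 2 + c = x at hx ⊢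
    rcases le_or_gt A 140 with h | h
    · have hB16 : B ≤ 16 := by
        by_contra hcon
        push Not at hcon
        have : 17 * 18 ≤ (B + 1) * B := by nlinarith
        omega
      omega
    · have h8 : 8 * B ≤ A := NumU1_8 A B h hBA
      have h9 : 141 * A ≤ (A + 1) * A := Nat.mul_le_mul_right A (by omega)
      omega
  · have hmono : (2 * ((A + 1) / 2 + (B + 1) / 2 + c) + 2) *
        (2 * ((A + 1) / 2 + (B + 1) / 2 + c) + 3) ≤ (A + 3 * B + 4) * (A + 3 * B + 5) :=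
      Nat.mul_le_mul (by omega) (by omega)
    have hexp : (A + 3 * B + 4) * (A + 3 * B + 5) =
        (A + 1) * A + (6 * (A * B) + 9 * (B * B) + 8 * A + 27 * B + 20) := by ring
    have hB2' : B * B + B = (B + 1) * B := by ring
    rcases le_or_gt A 140 with h | h
    · have hB16 : B ≤ 16 := by
        by_contra hcon
        push Not at hcon
        have : 17 * 18 ≤ (B + 1) * B := by nlinarith
        omega
      have h1 : A * B ≤ 140 * 16 := Nat.mul_le_mul h hB16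
      have h2 : B * B ≤ 16 * 16 := Nat.mul_le_mul hB16 hB16
      omega
    · have h8 : 8 * B ≤ A := NumU1_8 A B h hBA
      have h9 : 141 * A ≤ A * A := Nat.mul_le_mul_right A (by omega)
      have h10 : 8 * (A * B) ≤ A * A := by
        have h12 : A * (8 * B) ≤ A * A := Nat.mul_le_mul_left A h8
        have h13 : A * (8 * B) = 8 * (A * B) := by ring
        omega
      have h11 : (A + 1) * A = A * A + A := by ring
      omega

end Pool.Agent.MP_710317_co.Rec
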