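import Pool.Agent.MP_710317_co.Rec.Basic

namespace Pool.Agent.MP_710317_co.Rec

open Finset Pool.Agent.MP_710317_co

variable {V : Type*} [Fintype V] [DecidableEq V]

set_option linter.unusedSectionVars false

/-- quadratic form on a subset -/
private def pbF (w : V → V → ℤ) (e : V → ℤ) (S : Finset V) : ℤ :=
  ∑ i ∈ S, ∑ j ∈ S, w i j * e i * e j

private theorem pbF_insert {w : V → V → ℤ} (hw : Sym w) (e : V → ℤ) (S : Finset V) (a : V)
    (ha : a ∉ S) : pbF w e (insert a S) = pbF w e S + 2 * e a * ∑ j ∈ S, w a j * e j := by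
  unfold pbF
  rw [Finset.sum_insert ha, Finset.sum_insert ha, hw.diag a]
  have h1 : ∀ i ∈ S, ∑ j ∈ insert a S, w i j * e i * e j =
      w a i * e i * e a + ∑ j ∈ S, w i j * e i * e j := by
    intro i _
    rw [Finset.sum_insert ha, hw.symm i a]
  rw [Finset.sum_congr rfl h1, Finset.sum_add_distrib]
  have h2 : ∑ j ∈ S, w a j * e a * e j = e a * ∑ j ∈ S, w a j * e j := by
    rw [Finset.mul_sum]
    exact Finset.sum_congr rfl fun j _ => by ring
  have h3 : ∑ j ∈ S, w a j * e j * e a = e a * ∑ j ∈ S, w a j * e j := by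
    rw [Finset.mul_sum]
    exact Finset.sum_congr rfl fun j _ => by ring
  rw [h2, h3]
  ring

private theorem pbF_congr (w : V → V → ℤ) {e e' : V → ℤ} {S : Finset V}
    (h : ∀ i ∈ S, e i = e' i) : pbF w e S = pbF w e' S := by
  unfold pbF
  exact Finset.sum_congr rfl fun i hi => Finset.sum_congr rfl fun j hj => by
    rw [h i hi, h j hj]

private theorem pb_sign (c : ℤ) : ∃ t : ℤ, (t = 1 ∨ t = -1) ∧ t * c ≤ 0 := by
  rcases le_total c 0 with h | h
  · exact ⟨1, Or.inl rfl, by linarith⟩
  · exact ⟨-1, Or.inr rfl, by linarith⟩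

private theorem pb_claim {w : V → V → ℤ} (hw : Sym w) (τ : V → V) (hτ : ∀ i, τ (τ i) = i) :
    ∀ (n : ℕ) (S : Finset V), S.card = n → (∀ i ∈ S, τ i ∈ S) →
      ∃ e : V → ℤ, IsSign e ∧ ∑ i ∈ S, w i (τ i) ≤ - pbF w e S := by
  intro n
  induction n using Nat.strong_induction_on with
  | _ n ih =>
  intro S hS hcl
  rcases S.eq_empty_or_nonempty with rfl | ⟨a, ha⟩
  · exact ⟨fun _ => 1, fun _ => Or.inl rfl, by simp [pbF]⟩
  by_cases hb : τ a = a
  · -- fixed point
    have hcl' : ∀ i ∈ S.erase a, τ i ∈ S.erase a := by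
      intro i hi
      rw [Finset.mem_erase] at hi ⊢
      refine ⟨fun h => hi.1 ?_, hcl i hi.2⟩
      rw [← hτ i, h, hb]
    have hcard : (S.erase a).card < n := by
      rw [← hS]; exact Finset.card_erase_lt_of_mem ha
    obtain ⟨e, he, hle⟩ := ih _ hcard (S.erase a) rfl hcl'
    obtain ⟨t, ht, htc⟩ := pb_sign (∑ j ∈ S.erase a, w a j * e j)
    have hna : a ∉ S.erase a := Finset.notMem_erase a S
    have hag : ∀ i ∈ S.erase a, Function.update e a t i = e i := by
      intro i hi
      rw [Function.update_of_ne]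
      exact fun h => hna (h ▸ hi)
    refine ⟨Function.update e a t, ?_, ?_⟩
    · intro i
      by_cases hi : i = a
      · subst hi; rw [Function.update_self]; exact ht
      · rw [Function.update_of_ne hi]; exact he i
    · rw [← Finset.insert_erase ha, Finset.sum_insert hna, pbF_insert hw _ _ _ hna,
        pbF_congr w hag, hb, hw.diag a, Function.update_self]
      have : ∑ j ∈ S.erase a, w a j * Function.update e a t j = ∑ j ∈ S.erase a, w a j * e j :=
        Finset.sum_congr rfl fun j hj => by rw [hag j hj]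
      rw [this]
      have h2 : 2 * t * ∑ j ∈ S.erase a, w a j * e j = 2 * (t * ∑ j ∈ S.erase a, w a j * e j) := by
        ring
      rw [h2]
      linarith
  · -- a genuine pair
    have hba : τ a ≠ a := hb
    obtain ⟨b, hbdef⟩ : ∃ b, b = τ a := ⟨_, rfl⟩
    have hτb : τ b = a := by rw [hbdef, hτ]
    have hbS : b ∈ S := hbdef ▸ hcl a ha
    have hne : b ≠ a := by rw [hbdef]; exact hba
    have hbe : b ∈ S.erase a := Finset.mem_erase.2 ⟨hne, hbS⟩
    set S' := (S.erase a).erase b with hS'
    have hbS' : b ∉ S' := Finset.notMem_erase b _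
    have haS' : a ∉ insert b S' := by
      rw [hS', Finset.insert_erase hbe]
      exact Finset.notMem_erase a S
    have haS'' : a ∉ S' := fun h => haS' (Finset.mem_insert_of_mem h)
    have hSeq : S = insert a (insert b S') := by
      rw [hS', Finset.insert_erase hbe, Finset.insert_erase ha]
    have hcl' : ∀ i ∈ S', τ i ∈ S' := by
      intro i hi
      have hi' := hi
      rw [hS', Finset.mem_erase, Finset.mem_erase] at hi ⊢
      refine ⟨fun h => hi.2.1 ?_, fun h => hi.1 ?_, hcl i hi.2.2⟩
      · rw [← hτ i, h, hτb]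
      · rw [← hτ i, h, hbdef]
    have hcard : S'.card < n := by
      have h1 : S'.card < (S.erase a).card := Finset.card_erase_lt_of_mem hbe
      have h2 : (S.erase a).card < S.card := Finset.card_erase_lt_of_mem ha
      omega
    obtain ⟨e, he, hle⟩ := ih _ hcard S' rfl hcl'
    obtain ⟨t, ht, htc⟩ := pb_sign (∑ j ∈ S', w a j * e j - ∑ j ∈ S', w b j * e j)
    set e' := Function.update (Function.update e b (-t)) a t with he'
    have hag : ∀ i ∈ S', e' i = e i := by
      intro i hi
      have hia : i ≠ a := fun h => haS'' (h ▸ hi)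
      have hib : i ≠ b := fun h => hbS' (h ▸ hi)
      rw [he', Function.update_of_ne hia, Function.update_of_ne hib]
    have hea : e' a = t := by rw [he', Function.update_self]
    have heb : e' b = -t := by
      rw [he', Function.update_of_ne hne, Function.update_self]
    have htt : t * t = 1 := by rcases ht with h | h <;> rw [h] <;> norm_num
    refine ⟨e', ?_, ?_⟩
    · intro i
      by_cases hi : i = a
      · subst hi; rw [hea]; exact ht
      · by_cases hi2 : i = b
        · subst hi2; rw [heb]
          rcases ht with h | h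
          · right; rw [h]
          · left; rw [h]; norm_num
        · rw [he', Function.update_of_ne hi, Function.update_of_ne hi2]; exact he i
    · rw [hSeq, Finset.sum_insert haS', Finset.sum_insert hbS', pbF_insert hw _ _ _ haS',
        pbF_insert hw _ _ _ hbS', Finset.sum_insert hbS', pbF_congr w hag, hea, heb, hτb,
        ← hbdef, hw.symm b a]
      have h1 : ∑ j ∈ S', w a j * e' j = ∑ j ∈ S', w a j * e j :=
        Finset.sum_congr rfl fun j hj => by rw [hag j hj]
      have h2 : ∑ j ∈ S', w b j * e' j = ∑ j ∈ S', w b j * e j :=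
        Finset.sum_congr rfl fun j hj => by rw [hag j hj]
      rw [h1, h2]
      have h3 : 2 * t * (w a b * -t + ∑ j ∈ S', w a j * e j) =
          -2 * (w a b) * (t * t) + 2 * (t * ∑ j ∈ S', w a j * e j) := by ring
      have h4 : 2 * -t * ∑ j ∈ S', w b j * e j = - (2 * (t * ∑ j ∈ S', w b j * e j)) := by ring
      rw [h3, h4, htt]
      have h5 : t * (∑ j ∈ S', w a j * e j - ∑ j ∈ S', w b j * e j) =
          t * ∑ j ∈ S', w a j * e j - t * ∑ j ∈ S', w b j * e j := by ring
      rw [h5] at htc
      linarith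

/-- [RQ-PAIR]  The weight of a matching (given by an involution) bounds the surplus.

Proof.  Claim: for every `S : Finset V` closed under `τ` there are signs `e` with
`∑_{i∈S} w i (τ i) ≤ -∑_{i∈S} ∑_{j∈S} w i j e i e j`.  Strong induction on `S.card`; `S = ∅` trivial.
Otherwise take `a ∈ S`, `b = τ a`.
* `b = a`: `S' = S.erase a`, `e` from the induction hypothesis, change `e a` to the sign which makes
  `-2 e a ∑_{j ∈ S'} w a j e j ≥ 0`; `w a (τ a) = w a a = 0`.
* `b ≠ a`: `S' = (S.erase a).erase b` (closed under `τ`), put `e b = - e a`; the new terms are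
  `-2 w a b e a e b - 2 e a ∑_{j∈S'} (w a j - w b j) e j`, and `-2 w a b e a e b = 2 w a b
  = w a (τ a) + w b (τ b)`; choose `e a` such that the second term is `≥ 0`.
With `S = univ` this is `∑ i, w i (τ i) ≤ en w e ≤ 2 * s`. -/
theorem pair_bound {w : V → V → ℤ} (hw : Sym w) {s : ℤ} (hs : Sb w s) (τ : V → V)
    (hτ : ∀ i, τ (τ i) = i) : ∑ i, w i (τ i) ≤ 2 * s := by
  obtain ⟨e, he, hle⟩ := pb_claim hw τ hτ _ univ rfl (fun i _ => Finset.mem_univ _)
  exact hle.trans (hs e he)

end Pool.Agent.MP_710317_co.Rec
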