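import Pool.Agent.MP_710317_co.Rec.Part1

namespace Pool.Agent.MP_710317_co.Rec

open Finset Pool.Agent.MP_710317_co

variable {V : Type*} [Fintype V] [DecidableEq V]

theorem cw_split {w : V → V → ℤ} (hw : Sym w) (c : V → V) (x : V) :
    cw w c = 2 * wc w c x (c x) + ∑ i ∈ univ.erase x, ∑ j ∈ univ.erase x,
      (if c i = c j then w i j else 0) := by
  unfold cw wc
  have h1 : ∑ j, (if c x = c j then w x j else 0) =
      ∑ y ∈ univ.filter (fun y => c y = c x), w x y := by
    rw [Finset.sum_filter]
    refine Finset.sum_congr rfl (fun j _ => ?_)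
    by_cases h : c x = c j
    · rw [if_pos h, if_pos h.symm]
    · rw [if_neg h, if_neg (fun h' => h h'.symm)]
  have h2 : ∑ i ∈ univ.erase x, (if c i = c x then w i x else 0) =
      ∑ y ∈ univ.filter (fun y => c y = c x), w x y := by
    rw [← h1, ← Finset.add_sum_erase _ _ (Finset.mem_univ x), if_pos rfl, hw.diag x, zero_add]
    refine Finset.sum_congr rfl (fun j _ => ?_)
    by_cases h : c x = c j
    · rw [if_pos h, if_pos h.symm, hw.symm]
    · rw [if_neg h, if_neg (fun h' => h h'.symm)]
  rw [← Finset.add_sum_erase _ _ (Finset.mem_univ x), h1]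
  have h3 : ∀ i ∈ univ.erase x, ∑ j, (if c i = c j then w i j else 0) =
      (if c i = c x then w i x else 0) + ∑ j ∈ univ.erase x, (if c i = c j then w i j else 0) :=
    fun i _ => (Finset.add_sum_erase _ _ (Finset.mem_univ x)).symm
  rw [Finset.sum_congr rfl h3, Finset.sum_add_distrib, h2]
  ring

/-- [RQ-PART2]  Recolouring one vertex.  Proof: only the pairs containing `x` change (twice each),
`w x x = 0`. -/
theorem cw_update {w : V → V → ℤ} (hw : Sym w) (c : V → V) (x k : V) (hk : k ≠ c x) :
    cw w (Function.update c x k) = cw w c - 2 * wc w c x (c x) + 2 * wc w c x k := by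
  rw [cw_split hw (Function.update c x k) x, cw_split hw c x, Function.update_self]
  have h1 : ∑ i ∈ univ.erase x, ∑ j ∈ univ.erase x,
      (if Function.update c x k i = Function.update c x k j then w i j else 0) =
      ∑ i ∈ univ.erase x, ∑ j ∈ univ.erase x, (if c i = c j then w i j else 0) := by
    refine Finset.sum_congr rfl (fun i hi => Finset.sum_congr rfl (fun j hj => ?_))
    rw [Function.update_of_ne (Finset.ne_of_mem_erase hi),
      Function.update_of_ne (Finset.ne_of_mem_erase hj)]
  have h2 : wc w (Function.update c x k) x k = wc w c x k := by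
    unfold wc
    have h3 : univ.filter (fun y => Function.update c x k y = k) =
        insert x (univ.filter (fun y => c y = k)) := by
      ext y
      simp only [Finset.mem_filter, Finset.mem_univ, true_and, Finset.mem_insert]
      by_cases hy : y = x
      · rw [hy, Function.update_self]; simp
      · rw [Function.update_of_ne hy]; simp [hy]
    rw [h3, Finset.sum_insert (by
      rw [Finset.mem_filter]
      exact fun h => hk h.2.symm), hw.diag x, zero_add]
  rw [h1, h2]
  ring

end Pool.Agent.MP_710317_co.Rec
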