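import Pool.Agent.MP_710317_co.Rec.Part2

namespace Pool.Agent.MP_710317_co.Rec

open Finset Pool.Agent.MP_710317_co

variable {V : Type*} [Fintype V] [DecidableEq V]

/-- [RQ-PART3]  Proof of (a): `cw_update` and minimality: `wc w c x (c x) ≤ wc w c x k` for `k ≠ c x`.
(b) if the class of `x` has another vertex then `c` is not surjective (it is not injective and `V` is
finite), so there is an unused colour `k`, `wc w c x k = 0`, and (a) applies; if `x` is alone in
its class then `wc w c x (c x) = w x x = 0`. -/
theorem opt_move {w : V → V → ℤ} (hw : Sym w) {c : V → V} (hc : Opt w c) (x k : V) (hk : k ≠ c x) :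
    wc w c x (c x) ≤ wc w c x k := by
  have h1 := hc.low (Function.update c x k)
  rw [cw_update hw c x k hk] at h1
  linarith

theorem opt_own {w : V → V → ℤ} (hw : Sym w) {c : V → V} (hc : Opt w c) (x : V) :
    wc w c x (c x) ≤ 0 := by
  by_cases h : ∃ y, y ≠ x ∧ c y = c x
  · obtain ⟨y, hyx, hy⟩ := h
    have h1 : ¬ Function.Injective c := fun hi => hyx (hi hy)
    rw [Finite.injective_iff_surjective] at h1
    unfold Function.Surjective at h1
    push Not at h1
    obtain ⟨k, hk⟩ := h1
    have h2 := opt_move hw hc x k (fun h => hk x h.symm)
    have h3 : wc w c x k = 0 := by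
      unfold wc
      apply Finset.sum_eq_zero
      intro y hy
      rw [Finset.mem_filter] at hy
      exact absurd hy.2 (hk y)
    rw [h3] at h2
    exact h2
  · push Not at h
    have h1 : wc w c x (c x) = w x x := by
      unfold wc
      rw [Finset.sum_eq_single x]
      · intro y hy hyx
        rw [Finset.mem_filter] at hy
        exact absurd hy.2 (h y hyx)
      · intro hx
        exact absurd (by simp) hx
    rw [h1, hw.diag]

end Pool.Agent.MP_710317_co.Rec
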