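import Pool.Agent.MP_710317_co.Rec.Part3

namespace Pool.Agent.MP_710317_co.Rec

open Finset Pool.Agent.MP_710317_co

variable {V : Type*} [Fintype V] [DecidableEq V]

/-- [RQ-PART4]  Different classes have weight at least `1` between them.
Proof.  Suppose the weight `A = ∑_{x : c x = k} wc w c x k'` is `≤ 0` for two different used colours
`k, k'`.  Recolour the class `k` with `k'`: `cw` changes by `2 A ≤ 0`, so `A = 0` by minimality, and
the new colouring has one class less: contradiction. -/
theorem opt_between {w : V → V → ℤ} (hw : Sym w) {c : V → V} (hc : Opt w c) (k k' : V)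
    (hk : k ∈ univ.image c) (hk' : k' ∈ univ.image c) (h : k ≠ k') :
    1 ≤ ∑ x ∈ univ.filter (fun x => c x = k), wc w c x k' := by
  classical
  by_contra hlt
  set A := ∑ x ∈ univ.filter (fun x => c x = k), wc w c x k' with hA
  have hA0 : A ≤ 0 := by
    rw [not_le] at hlt
    exact Int.lt_add_one_iff.1 hlt
  let c' : V → V := fun x => if c x = k then k' else c x
  have hcw : cw w c' = cw w c + 2 * A := by
    have h1 : ∀ i j, (if c' i = c' j then w i j else 0) = (if c i = c j then w i j else 0) +
        (if c i = k then (if c j = k' then w i j else 0) else 0) +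
        (if c j = k then (if c i = k' then w i j else 0) else 0) := by
      intro i j
      show (if (if c i = k then k' else c i) = (if c j = k then k' else c j) then w i j else 0) = _
      by_cases hi : c i = k
      · by_cases hj : c j = k
        · have hij : c i = c j := hi.trans hj.symm
          have hik : ¬ c i = k' := fun h' => h (hi.symm.trans h')
          have hjk : ¬ c j = k' := fun h' => h (hj.symm.trans h')
          simp only [if_pos hi, if_pos hj, if_pos hij, if_neg hjk, if_neg hik, if_true, add_zero]
        · have hij : ¬ c i = c j := fun h' => hj (h'.symm.trans hi)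
          by_cases hj' : c j = k'
          · simp only [if_pos hi, if_neg hj, if_pos hj'.symm, if_neg hij, if_pos hj', zero_add,
              add_zero]
          · have hj'' : ¬ k' = c j := fun h' => hj' h'.symm
            simp only [if_pos hi, if_neg hj, if_neg hj'', if_neg hij, if_neg hj', add_zero]
      · by_cases hj : c j = k
        · have hij : ¬ c i = c j := fun h' => hi (h'.trans hj)
          by_cases hi' : c i = k'
          · simp only [if_neg hi, if_pos hj, if_pos hi', if_neg hij, zero_add]
          · simp only [if_neg hi, if_pos hj, if_neg hi', if_neg hij, add_zero]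
        · simp only [if_neg hi, if_neg hj, add_zero]
    unfold cw
    have h2 : ∑ i, ∑ j, (if c' i = c' j then w i j else 0) =
        ∑ i, ∑ j, (if c i = c j then w i j else 0) +
        ∑ i, ∑ j, (if c i = k then (if c j = k' then w i j else 0) else 0) +
        ∑ i, ∑ j, (if c j = k then (if c i = k' then w i j else 0) else 0) := by
      rw [← Finset.sum_add_distrib, ← Finset.sum_add_distrib]
      refine Finset.sum_congr rfl (fun i _ => ?_)
      rw [← Finset.sum_add_distrib, ← Finset.sum_add_distrib]
      exact Finset.sum_congr rfl (fun j _ => h1 i j)
    have h3 : ∑ i, ∑ j, (if c i = k then (if c j = k' then w i j else 0) else 0) = A := by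
      rw [hA, Finset.sum_filter]
      refine Finset.sum_congr rfl (fun i _ => ?_)
      unfold wc
      by_cases hi : c i = k
      · simp only [if_pos hi]
        rw [Finset.sum_filter]
      · simp only [if_neg hi]
        exact Finset.sum_const_zero
    have h4 : ∑ i, ∑ j, (if c j = k then (if c i = k' then w i j else 0) else 0) =
        ∑ i, ∑ j, (if c i = k then (if c j = k' then w i j else 0) else 0) := by
      rw [Finset.sum_comm]
      refine Finset.sum_congr rfl (fun i _ => Finset.sum_congr rfl (fun j _ => ?_))
      rw [hw.symm j i]
    rw [h2, h4, h3]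
    ring
  have hlow := hc.low c'
  have hA0' : A = 0 := by linarith
  have hfew := hc.few c' (by rw [hcw, hA0']; ring)
  have hsub : univ.image c' ⊆ (univ.image c).erase k := by
    intro y hy
    obtain ⟨x, -, rfl⟩ := Finset.mem_image.1 hy
    show (if c x = k then k' else c x) ∈ (univ.image c).erase k
    by_cases hx : c x = k
    · rw [if_pos hx]
      exact Finset.mem_erase.2 ⟨h.symm, hk'⟩
    · rw [if_neg hx]
      exact Finset.mem_erase.2 ⟨hx, Finset.mem_image_of_mem _ (Finset.mem_univ _)⟩
  have h5 := Finset.card_le_card hsub
  rw [Finset.card_erase_of_mem hk] at h5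
  have h6 : 0 < (univ.image c).card := Finset.card_pos.2 ⟨k, hk⟩
  omega

end Pool.Agent.MP_710317_co.Rec
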