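import Pool.Agent.MP_710317_co.Rec.Part4

namespace Pool.Agent.MP_710317_co.Rec

open Finset Pool.Agent.MP_710317_co

variable {V : Type*} [Fintype V] [DecidableEq V]

/-- [RQ-PART5]  Dissolving a class.  If all entries of `w` inside the class `k` are `0`, then some
vertex `x` of the class has weight at least `1` to every other (used) class.
Proof.  Suppose not: for every `x` with `c x = k` there is a used colour `g x ≠ k` with
`wc w c x (g x) ≤ 0`.  As `wc w c x k = 0` (all entries inside the class are `0`), `opt_move` gives
`wc w c x (g x) = 0` (`≥ 0`).  Let `c' x = g x` if `c x = k`, else `c x`.  `cw w c' = cw w c`: the pairs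
between the class `k` and the rest contribute `2 ∑_{x : c x = k} wc w c x (g x) = 0`, the pairs inside
the class contribute `0` in both.  But `c'` does not use `k` and uses no new colour: contradiction
with `few`. -/
theorem opt_dissolve {w : V → V → ℤ} (hw : Sym w) {c : V → V} (hc : Opt w c) (k : V)
    (hk : k ∈ univ.image c) (h0 : ∀ x y, c x = k → c y = k → w x y = 0) :
    ∃ x, c x = k ∧ ∀ k' ∈ univ.image c, k' ≠ k → 1 ≤ wc w c x k' := by
  by_contra hcon
  push Not at hcon
  have h1 : ∀ x, ∃ k', c x = k → (k' ∈ univ.image c ∧ k' ≠ k ∧ wc w c x k' < 1) := by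
    intro x
    by_cases hx : c x = k
    · obtain ⟨k', h2, h3, h4⟩ := hcon x hx
      exact ⟨k', fun _ => ⟨h2, h3, h4⟩⟩
    · exact ⟨k, fun h => absurd h hx⟩
  choose g hg using h1
  have hg0 : ∀ x, c x = k → wc w c x (g x) = 0 := by
    intro x hx
    obtain ⟨h2, h3, h4⟩ := hg x hx
    have h5 := opt_move hw hc x (g x) (by rw [hx]; exact h3)
    have h6 : wc w c x (c x) = 0 := by
      unfold wc
      refine Finset.sum_eq_zero fun y hy => ?_
      rw [Finset.mem_filter] at hy
      exact h0 x y hx (hy.2.trans hx)
    omega
  let c' : V → V := fun x => if c x = k then g x else c x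
  have hc'1 : ∀ x, c x = k → c' x = g x := fun x hx => if_pos hx
  have hc'2 : ∀ x, c x ≠ k → c' x = c x := fun x hx => if_neg hx
  have key : ∀ i j, (if c' i = c' j then w i j else 0) =
      (if c i = c j then w i j else 0) + (if c i = k then (if c j = g i then w i j else 0) else 0) +
      (if c j = k then (if c i = g j then w j i else 0) else 0) := by
    intro i j
    by_cases hi : c i = k <;> by_cases hj : c j = k
    · rw [h0 i j hi hj, h0 j i hj hi]
      simp
    · rw [hc'1 i hi, hc'2 j hj, if_pos hi, if_neg hj, if_neg (fun h : c i = c j => hj (h ▸ hi)),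
        zero_add, add_zero]
      by_cases h : g i = c j
      · rw [if_pos h, if_pos h.symm]
      · rw [if_neg h, if_neg (fun h' => h h'.symm)]
    · rw [hc'2 i hi, hc'1 j hj, if_neg hi, if_pos hj, if_neg (fun h : c i = c j => hi (h.trans hj)),
        add_zero, zero_add, hw.symm j i]
    · rw [hc'2 i hi, hc'2 j hj, if_neg hi, if_neg hj, add_zero, add_zero]
  have hcw : cw w c' = cw w c := by
    unfold cw
    have h2 : ∑ i, ∑ j, (if c i = k then (if c j = g i then w i j else 0) else 0) = 0 := by
      refine Finset.sum_eq_zero fun i _ => ?_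
      by_cases hi : c i = k
      · simp only [if_pos hi]
        have h3 := hg0 i hi
        unfold wc at h3
        rw [Finset.sum_filter] at h3
        exact h3
      · simp only [if_neg hi, Finset.sum_const_zero]
    have h3 : ∑ i, ∑ j, (if c j = k then (if c i = g j then w j i else 0) else 0) = 0 := by
      rw [Finset.sum_comm]
      exact h2
    calc ∑ i, ∑ j, (if c' i = c' j then w i j else 0)
        = ∑ i, ∑ j, ((if c i = c j then w i j else 0) +
          (if c i = k then (if c j = g i then w i j else 0) else 0) +
          (if c j = k then (if c i = g j then w j i else 0) else 0)) :=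
          Finset.sum_congr rfl fun i _ => Finset.sum_congr rfl fun j _ => key i j
      _ = ∑ i, ∑ j, (if c i = c j then w i j else 0) := by
          simp only [Finset.sum_add_distrib]
          rw [h2, h3, add_zero, add_zero]
  have hfew := hc.few c' hcw
  have hlt : (univ.image c').card < (univ.image c).card := by
    refine Finset.card_lt_card ⟨?_, ?_⟩
    · intro z hz
      obtain ⟨x, -, rfl⟩ := Finset.mem_image.1 hz
      by_cases hx : c x = k
      · rw [hc'1 x hx]
        exact (hg x hx).1
      · rw [hc'2 x hx]
        exact Finset.mem_image_of_mem c (Finset.mem_univ x)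
    · intro hsub
      obtain ⟨x, -, hx⟩ := Finset.mem_image.1 (hsub hk)
      by_cases hxk : c x = k
      · rw [hc'1 x hxk] at hx
        exact (hg x hxk).2.1 hx
      · rw [hc'2 x hxk] at hx
        exact hxk hx
  omega

end Pool.Agent.MP_710317_co.Rec
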