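import Pool.Agent.MP_710317_co.Rec.Part5

namespace Pool.Agent.MP_710317_co.Rec

open Finset Pool.Agent.MP_710317_co

variable {V : Type*} [Fintype V] [DecidableEq V]

/-- [RQ-PART6]  The inside weight of an optimal colouring is at most that of the colouring by the
pairs of a matching of negative entries.
Proof.  `c' x` = a representative of `{x, τ x}` (e.g. the smaller one, with a linear order transferred
from `Fin (card V)`): `c' x = c' y ↔ y = x ∨ y = τ x`.  `cw w c' = ∑ x, w x (τ x)` (`w x x = 0`; for
`τ x = x` the term `w x (τ x) = 0`).  -/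
theorem opt_matching {w : V → V → ℤ} (hw : Sym w) {c : V → V} (hc : Opt w c) (τ : V → V)
    (hτ : ∀ x, τ (τ x) = x) : cw w c ≤ ∑ x, w x (τ x) := by
  classical
  let f := Fintype.equivFin V
  let c' : V → V := fun x => if f x ≤ f (τ x) then x else τ x
  have hc'def : ∀ x, c' x = if f x ≤ f (τ x) then x else τ x := fun x => rfl
  have h1 : ∀ x, c' x = c' (τ x) := by
    intro x
    rw [hc'def, hc'def, hτ]
    by_cases h : f x ≤ f (τ x)
    · by_cases h' : f (τ x) ≤ f x
      · rw [if_pos h, if_pos h']
        exact f.injective (le_antisymm h h')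
      · rw [if_pos h, if_neg h']
    · rw [if_neg h, if_pos (not_le.1 h).le]
  have h2 : ∀ x, c' x = x ∨ c' x = τ x := by
    intro x
    rw [hc'def]
    by_cases h : f x ≤ f (τ x)
    · exact Or.inl (if_pos h)
    · exact Or.inr (if_neg h)
  have h3 : ∀ x y, c' x = c' y → y = x ∨ y = τ x := by
    intro x y h
    rcases h2 x with hx | hx <;> rcases h2 y with hy | hy
    · exact Or.inl (hy.symm.trans (h.symm.trans hx))
    · right
      have : x = τ y := hx.symm.trans (h.trans hy)
      rw [this, hτ]
    · exact Or.inr (hy.symm.trans (h.symm.trans hx))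
    · left
      have : τ x = τ y := hx.symm.trans (h.trans hy)
      rw [← hτ x, this, hτ]
  refine (hc.low c').trans (le_of_eq ?_)
  unfold cw
  refine Finset.sum_congr rfl (fun x _ => ?_)
  rw [Finset.sum_eq_single (τ x)]
  · rw [if_pos (h1 x)]
  · intro y _ hy
    by_cases h : c' x = c' y
    · rw [if_pos h]
      rcases h3 x y h with h' | h'
      · rw [h', hw.diag]
      · exact absurd h' hy
    · rw [if_neg h]
  · intro h
    exact absurd (Finset.mem_univ _) h

end Pool.Agent.MP_710317_co.Rec
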