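import Pool.Agent.MP_710317_co.Rec.PartDefs

namespace Pool.Agent.MP_710317_co.Rec

open Finset Pool.Agent.MP_710317_co

variable {V : Type*} [Fintype V] [DecidableEq V]

/-- [RQ-PART1]  Proof: the functions `V → V` are finitely many; minimise
`cw w c * (card V + 1) + (univ.image c).card` (`Finite.exists_min`), the second summand is
`≤ card V`. -/
theorem exists_opt (w : V → V → ℤ) : ∃ c : V → V, Opt w c := by
  classical
  have : Nonempty (V → V) := ⟨id⟩
  obtain ⟨c, hc⟩ := Finite.exists_min (fun c : V → V =>
    cw w c * ((Fintype.card V : ℤ) + 1) + ((univ.image c).card : ℤ))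
  have hN : (0 : ℤ) ≤ (Fintype.card V : ℤ) := Int.natCast_nonneg _
  have hcard : ∀ c' : V → V, ((univ.image c').card : ℤ) ≤ (Fintype.card V : ℤ) := by
    intro c'
    have : (univ.image c').card ≤ Fintype.card V := Finset.card_le_univ _
    exact_mod_cast this
  refine ⟨c, ?_, ?_⟩
  · intro c'
    by_contra hlt
    rw [not_le] at hlt
    have h1 := hc c'
    have h2 := hcard c'
    have h3 : (0 : ℤ) ≤ ((univ.image c).card : ℤ) := Int.natCast_nonneg _
    have h4 : cw w c' + 1 ≤ cw w c := hlt
    nlinarith
  · intro c' he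
    have h1 := hc c'
    simp only [he] at h1
    have h2 : ((univ.image c).card : ℤ) ≤ ((univ.image c').card : ℤ) := by linarith
    exact_mod_cast h2

end Pool.Agent.MP_710317_co.Rec
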