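import Pool.Agent.MP_710317_co.Rec.Basic

namespace Pool.Agent.MP_710317_co.Rec

open Finset Pool.Agent.MP_710317_co

variable {V : Type*} [Fintype V] [DecidableEq V]

/-- twice the weight inside the classes of the colouring `c` -/
def cw {C : Type*} [DecidableEq C] (w : V → V → ℤ) (c : V → C) : ℤ :=
  ∑ i, ∑ j, if c i = c j then w i j else 0

/-- total weight between `x` and the class `k` (without `x` itself, as `w x x = 0`) -/
def wc {C : Type*} [DecidableEq C] (w : V → V → ℤ) (c : V → C) (x : V) (k : C) : ℤ :=
  ∑ y ∈ univ.filter (fun y => c y = k), w x y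

/-- `c` has the least weight inside its classes, and among these the fewest classes -/
structure Opt (w : V → V → ℤ) (c : V → V) : Prop where
  low : ∀ c' : V → V, cw w c ≤ cw w c'
  few : ∀ c' : V → V, cw w c' = cw w c → (univ.image c).card ≤ (univ.image c').card

end Pool.Agent.MP_710317_co.Rec
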