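import Pool.Agent.MP_710317_co.Rec.RecF

namespace Pool.Agent.MP_710317_co.Rec

open Finset Pool.Agent.MP_710317_co

/-- [RQ-QNUM]  Proof.  `M = m - f`, `σ = 2 f - m` (so `m = 2 M + σ`, `f = M + σ`), `x = c - f ≥ 1`,
`m - c = M - x`, `2 c - m = σ + 2 x`.  If `10 x ≤ 3 M`: the first expression is
`M² + σ² - x (2 M - 4 σ - 5 x)`; `x (2M - 4σ - 5x)` is concave in `x`, at `x = 1` it is
`2M - 4σ - 5 ≥ σ²` by `h`, at `x = 0.3 M` it is `0.3 M (0.5 M - 4 σ) ≥ σ²` (`2M ≥ (σ+2)² + 1` and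
`σ ≥ 60` or so make `M ≥ 30 σ`; the hypothesis `hM`).  If `10 x ≥ 3 M`:
`2 (M - x)² ≤ 2 · 0.49 M² ≤ M²` (`x ≤ M` as `c ≤ m`). -/
theorem qnum (M σ x : ℤ) (hσ : 0 ≤ σ) (h : (σ + 2) ^ 2 + 1 ≤ 2 * M) (hM : 30 * σ ≤ M)
    (hx : 1 ≤ x) (hxM : x ≤ M) :
    (M - x) ^ 2 + (σ + 2 * x) ^ 2 ≤ M ^ 2 ∨ 2 * (M - x) ^ 2 ≤ M ^ 2 := by
  rcases le_or_gt (10 * x) (3 * M) with h1 | h1
  · left
    have key : σ ^ 2 ≤ x * (2 * M - 4 * σ - 5 * x) := by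
      rcases eq_or_lt_of_le hσ with h0 | h0
      · rw [← h0]
        have h2 : 0 ≤ 2 * M - 5 * x := by linarith
        nlinarith [mul_nonneg (by linarith : (0 : ℤ) ≤ x) h2]
      · have h2 : 0 ≤ 2 * M - 4 * σ - 5 * x - 5 := by linarith
        have h3 := mul_nonneg (by linarith : (0 : ℤ) ≤ x - 1) h2
        nlinarith
    nlinarith
  · right
    have h2 : 0 ≤ M - x := by linarith
    have h3 : 10 * (M - x) ≤ 7 * M := by linarith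
    nlinarith [mul_le_mul h3 h3 (by linarith) (by linarith)]

end Pool.Agent.MP_710317_co.Rec
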