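import Pool.Agent.MP_710317_co.Rec.LowHigh

namespace Pool.Agent.MP_710317_co.Rec

open Finset Pool.Agent.MP_710317_co

theorem RecD_aux {l n r : ℕ} (hn : 10000 ≤ n) (hr : r < n) :
    ∃ x : ℕ, 2 * fl (l + 1) r = r + x ∧ 40 * x + 40 ≤ n ∧ Dl (l + 1) r ≤ x ∧
      Bl (l + 1) r ≤ x := by
  obtain ⟨x, h1, h2, _⟩ := num_fl (l + 1) n r hn hr
  have h3 := Dl_le (l + 1) r
  have h4 := Bl_le' (l + 1) r
  exact ⟨x, h1, h2, by omega, by omega⟩

/-- [RQ-RECD]  The recursion for `Dl` and `Bl`.  Proof: pure logic from `lowA, highA, lowB, highB, lowC,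
highC`, `Dl_mem`, `le_Dl`, `Bl_mem`, `Bl_le` (with `Dl_le`, `Bl_le'` and `num_fl` for
`Dl (l+1) r, Bl (l+1) r ≤ x ≤ n/40` and, if `(n+1)/2 ≤ fl (l+1) r`, `n - r ≤ x ≤ n/40`, which decide the
tie case: the larger lower value is the one of the odd complete graph, the smaller upper value the
one of the even complete graph). -/
theorem rec_D1 {l n r : ℕ} (hn : 10000 ≤ n) (hl : 2 * l ≤ n) (hr : r < n)
    (h : fl (l + 1) r < (n + 1) / 2) :
    (Even n → Dl l (n.choose 2 + r) = Dl (l + 1) r ∧ Bl l (n.choose 2 + r) = Bl (l + 1) r) ∧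
    (Odd n → Dl l (n.choose 2 + r) + Bl (l + 1) r = (n - 1) / 2 ∧
      Bl l (n.choose 2 + r) = (n - 1) / 2 + Bl (l + 1) r) := by
  obtain ⟨x, hx1, hx2, hx3, hx4⟩ := RecD_aux (l := l) hn hr
  have hD := lowC hn hl hr (Dl_mem l (n.choose 2 + r))
  have hB := highC hn hl hr (Bl_mem l (n.choose 2 + r))
  constructor
  · intro he
    have hno : ¬ Odd n := Nat.not_odd_iff_even.2 he
    have h1 := le_Dl (lowA (d := Dl (l + 1) r) hn hl hr h.le (fun _ => le_rfl)
      (fun ho => absurd ho hno))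
    have h2 := Bl_le (highA (d := Bl (l + 1) r) hn hl hr h.le (fun _ => le_rfl)
      (fun ho => absurd ho hno))
    rcases hD with ⟨_, hD, _⟩ | ⟨hD, _⟩
    · rcases hB with ⟨_, hB, _⟩ | ⟨hB, _⟩
      · exact ⟨le_antisymm (hD he) h1, le_antisymm h2 (hB he)⟩
      · omega
    · omega
  · intro ho
    have hne : ¬ Even n := Nat.not_even_iff_odd.2 ho
    have h1 := le_Dl (lowA (d := (n - 1) / 2 - Bl (l + 1) r) hn hl hr h.le
      (fun he => absurd he hne) (fun _ => by omega))
    have h2 := Bl_le (highA (d := (n - 1) / 2 + Bl (l + 1) r) hn hl hr h.le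
      (fun he => absurd he hne) (fun _ => le_rfl))
    rcases hD with ⟨_, _, hD⟩ | ⟨hD, _⟩
    · rcases hB with ⟨_, _, hB⟩ | ⟨hB, _⟩
      · have hD' := hD ho
        have hB' := hB ho
        exact ⟨by omega, by omega⟩
      · omega
    · omega

theorem rec_D2 {l n r : ℕ} (hn : 10000 ≤ n) (hl : 2 * l ≤ n) (hr : r < n)
    (h : (n + 1) / 2 < fl (l + 1) r) :
    (Odd n → Dl l (n.choose 2 + r) = n - r ∧ Bl l (n.choose 2 + r) = n - r) ∧
    (Even n → Dl l (n.choose 2 + r) + (n - r) = n / 2 ∧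
      Bl l (n.choose 2 + r) = n / 2 + (n - r)) := by
  obtain ⟨x, hx1, hx2, hx3, hx4⟩ := RecD_aux (l := l) hn hr
  have hD := lowC hn hl hr (Dl_mem l (n.choose 2 + r))
  have hB := highC hn hl hr (Bl_mem l (n.choose 2 + r))
  constructor
  · intro ho
    have hne : ¬ Even n := Nat.not_even_iff_odd.2 ho
    have h1 := le_Dl (lowB (d := n - r) hn hl hr h.le (fun _ => le_rfl)
      (fun he => absurd he hne))
    have h2 := Bl_le (highB (d := n - r) hn hl hr h.le (fun _ => le_rfl)
      (fun he => absurd he hne))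
    rcases hD with ⟨hD, _⟩ | ⟨_, hD, _⟩
    · omega
    · rcases hB with ⟨hB, _⟩ | ⟨_, hB, _⟩
      · omega
      · exact ⟨le_antisymm (hD ho) h1, le_antisymm h2 (hB ho)⟩
  · intro he
    have hno : ¬ Odd n := Nat.not_odd_iff_even.2 he
    have h1 := le_Dl (lowB (d := n / 2 - (n - r)) hn hl hr h.le (fun ho => absurd ho hno)
      (fun _ => by omega))
    have h2 := Bl_le (highB (d := n / 2 + (n - r)) hn hl hr h.le (fun ho => absurd ho hno)
      (fun _ => le_rfl))
    rcases hD with ⟨hD, _⟩ | ⟨_, _, hD⟩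
    · omega
    · rcases hB with ⟨hB, _⟩ | ⟨_, _, hB⟩
      · omega
      · have hD' := hD he
        have hB' := hB he
        exact ⟨by omega, by omega⟩

theorem rec_D3 {l n r : ℕ} (hn : 10000 ≤ n) (hl : 2 * l ≤ n) (hr : r < n)
    (h : fl (l + 1) r = (n + 1) / 2) :
    (Even n → Dl l (n.choose 2 + r) + (n - r) = n / 2 ∧
      Bl l (n.choose 2 + r) = Bl (l + 1) r) ∧
    (Odd n → Dl l (n.choose 2 + r) + Bl (l + 1) r = (n - 1) / 2 ∧
      Bl l (n.choose 2 + r) = n - r) := by
  obtain ⟨x, hx1, hx2, hx3, hx4⟩ := RecD_aux (l := l) hn hr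
  have hD := lowC hn hl hr (Dl_mem l (n.choose 2 + r))
  have hB := highC hn hl hr (Bl_mem l (n.choose 2 + r))
  constructor
  · intro he
    have hno : ¬ Odd n := Nat.not_odd_iff_even.2 he
    have h1 := le_Dl (lowB (d := n / 2 - (n - r)) hn hl hr h.ge (fun ho => absurd ho hno)
      (fun _ => by omega))
    have h2 := Bl_le (highA (d := Bl (l + 1) r) hn hl hr h.le (fun _ => le_rfl)
      (fun ho => absurd ho hno))
    obtain ⟨k, hk⟩ := he
    have he' : Even n := ⟨k, hk⟩
    constructor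
    · rcases hD with ⟨_, hD, _⟩ | ⟨_, _, hD⟩
      · have := hD he'
        omega
      · have := hD he'
        omega
    · rcases hB with ⟨_, hB, _⟩ | ⟨_, _, hB⟩
      · have := hB he'
        omega
      · have := hB he'
        omega
  · intro ho
    have hne : ¬ Even n := Nat.not_even_iff_odd.2 ho
    have h1 := le_Dl (lowA (d := (n - 1) / 2 - Bl (l + 1) r) hn hl hr h.le
      (fun he => absurd he hne) (fun _ => by omega))
    have h2 := Bl_le (highB (d := n - r) hn hl hr h.ge (fun _ => le_rfl)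
      (fun he => absurd he hne))
    obtain ⟨k, hk⟩ := ho
    have ho' : Odd n := ⟨k, hk⟩
    constructor
    · rcases hD with ⟨_, _, hD⟩ | ⟨_, hD, _⟩
      · have := hD ho'
        omega
      · have := hD ho'
        omega
    · rcases hB with ⟨_, _, hB⟩ | ⟨_, hB, _⟩
      · have := hB ho'
        omega
      · have := hB ho'
        omega

end Pool.Agent.MP_710317_co.Rec
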