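import Pool.Agent.MP_710317_co.Rec.RecF1

namespace Pool.Agent.MP_710317_co.Rec

open Finset Pool.Agent.MP_710317_co

/-- [RQ-RECF]  Recursion for `fl` (for weighted graphs and large `n`: Alon and Halperin).
Proof.  `≤`: `consA2` with `fl_spec (l+1) r` (`3 (2 f - r) = 3 x ≤ n` by `num_fl`) and `mem_cutVals` /
`fl_le` give `fl l m ≤ n²/4 + f`; `consB` with `N = n + 1`, `y = n - r` gives
`fl l m ≤ (n+1)²/4 = n²/4 + (n+1)/2` (`C(n+1,2) - (n - r) = C(n,2) + r`).
`≥`: `fl_spec l m` and `dichotomy` with `c = fl l m` (allowed by `≤`).  First case: `fl_le` gives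
`f ≤ c - n²/4`.  Second case: `n²/4 + (n+1)/2 ≤ c`. -/
theorem rec_fl {l n r : ℕ} (hn : 10000 ≤ n) (hl : 2 * l ≤ n) (hr : r < n) :
    fl l (n.choose 2 + r) = n ^ 2 / 4 + min ((n + 1) / 2) (fl (l + 1) r) := by
  obtain ⟨x, hx1, hx2, hx3⟩ := num_fl (l + 1) n r hn hr
  apply le_antisymm
  · have h1 : fl l (n.choose 2 + r) ≤ n ^ 2 / 4 + fl (l + 1) r := by
      obtain ⟨N, w, hw⟩ := fl_spec (l + 1) r
      obtain ⟨w', hw', -⟩ := consA2 (n := n) hw (by
        have : (2 * (fl (l + 1) r : ℤ)) = r + x := by exact_mod_cast hx1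
        rw [this]
        have h40 : (40 * (x : ℤ) + 40) ≤ n := by exact_mod_cast hx2
        have hx0 : (0 : ℤ) ≤ x := Int.natCast_nonneg x
        linarith)
      apply fl_le (w := w')
      push_cast at hw' ⊢
      exact hw'
    have h2 : fl l (n.choose 2 + r) ≤ n ^ 2 / 4 + (n + 1) / 2 := by
      obtain ⟨w, hw, -⟩ := consB l (n + 1) (n - r) (by omega)
      apply fl_le (w := w)
      rw [← RecF1_quarter_succ]
      have e : (((n + 1).choose 2 : ℕ) : ℤ) - ((n - r : ℕ) : ℤ) = ((n.choose 2 + r : ℕ) : ℤ) := by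
        have e2 : (n + 1).choose 2 = n + n.choose 2 := by
          rw [Nat.choose_succ_succ' n 1, Nat.choose_one_right]
        omega
      rw [e] at hw
      exact hw
    omega
  · obtain ⟨N, w, hw⟩ := fl_spec l (n.choose 2 + r)
    by_contra hcon
    rw [not_le] at hcon
    obtain ⟨K, T, hKT, h⟩ := dichotomy hn hl hr hw hcon.le
    rcases h with ⟨-, h1, h2⟩ | ⟨-, h1, -⟩
    · have h3 := fl_le h2
      omega
    · omega

end Pool.Agent.MP_710317_co.Rec
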