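import Pool.Agent.MP_710317_co.Rec.Tri
import Pool.Agent.MP_710317_co.Rec.NumU
import Pool.Agent.MP_710317_co.Rec.Cons

namespace Pool.Agent.MP_710317_co.Rec

open Finset Pool.Agent.MP_710317_co

theorem RecF1_choose (n : ℕ) : 2 * ((n.choose 2 : ℕ) : ℤ) = (n : ℤ) * ((n : ℤ) - 1) := by
  induction n with
  | zero => simp
  | succ n ih =>
    rw [Nat.choose_succ_succ' n 1, Nat.choose_one_right]
    push_cast
    linarith

theorem RecF1_quarter (n : ℕ) : (n / 2) * (n - n / 2) = n ^ 2 / 4 := by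
  rcases Nat.even_or_odd' n with ⟨m, rfl | rfl⟩
  · rw [show 2 * m / 2 = m by omega, show 2 * m - m = m by omega,
      show (2 * m) ^ 2 = 4 * (m * m) by ring]
    omega
  · rw [show (2 * m + 1) / 2 = m by omega, show 2 * m + 1 - m = m + 1 by omega,
      show (2 * m + 1) ^ 2 = 4 * (m * (m + 1)) + 1 by ring]
    omega

theorem RecF1_quarter_succ (n : ℕ) : (n + 1) ^ 2 / 4 = n ^ 2 / 4 + (n + 1) / 2 := by
  rcases Nat.even_or_odd' n with ⟨m, rfl | rfl⟩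
  · rw [show (2 * m + 1) ^ 2 = 4 * (m * m + m) + 1 by ring, show (2 * m) ^ 2 = 4 * (m * m) by ring]
    omega
  · rw [show (2 * m + 1 + 1) ^ 2 = 4 * (m * m + 2 * m + 1) by ring,
      show (2 * m + 1) ^ 2 = 4 * (m * m + m) + 1 by ring]
    omega

theorem RecF1_cut {V : Type*} [Fintype V] [DecidableEq V] {w : V → V → ℤ} (hw : Sym w)
    {K T : Finset V} (hKT : KT w K T) {c : ℕ} (h : ∀ S, crs w S Sᶜ ≤ (c : ℤ)) :
    K.card ^ 2 / 4 ≤ c ∧ ∀ S, crs (fun i j => w i j - Jm K i j) S Sᶜ ≤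
      ((c - K.card ^ 2 / 4 : ℕ) : ℤ) := by
  have hq : ((K.card / 2 : ℕ) : ℤ) * ((K.card : ℤ) - ((K.card / 2 : ℕ) : ℤ)) =
      ((K.card ^ 2 / 4 : ℕ) : ℤ) := by
    rw [← RecF1_quarter, Nat.cast_mul, Nat.cast_sub (Nat.div_le_self _ _)]
  have hcut : ∀ S, crs (fun i j => w i j - Jm K i j) S Sᶜ + ((K.card ^ 2 / 4 : ℕ) : ℤ) ≤ c := by
    intro S
    obtain ⟨S', h1, -, -⟩ := extend hw hKT (K.card / 2) le_rfl (by omega) S
    rw [← hq, ← h1]
    exact h S'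
  have h0 : K.card ^ 2 / 4 ≤ c := by
    have h1 := hcut ∅
    have h2 : crs (fun i j => w i j - Jm K i j) ∅ ∅ᶜ = 0 := by simp [crs]
    rw [h2, zero_add] at h1
    exact_mod_cast h1
  refine ⟨h0, fun S => ?_⟩
  rw [Nat.cast_sub h0]
  have := hcut S
  linarith

/-- [RQ-DICH]  The two kinds of matrices with small cuts (`f = fl (l+1) r`, `m = C(n,2) + r`).
Proof.  `x` from `num_fl`; `Ex l m w c` with `c ≤ n²/4 + min ((n+1)/2) f` gives `Ex` with the larger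
bound (monotone `le`), `tri` gives `K, T`.  `extend` with `a = |K|/2` (`a (|K| - a) = |K|²/4`) gives that
every cut of `R = w - Jm K` is at most `c - |K|²/4`.
`|K| = n`: `R` is symmetric (`sym_sub`, `Jm_sym`), `Mk (l+1)` (`Mk_sub`), has total
`m - C(n,2) = r` (`inn_sub`, `inn_Jm`, `K ∩ univ = K`).
`|K| = n + 1`: `S = ∅` gives `(n+1)²/4 ≤ c`, and `(n+1)²/4 = n²/4 + (n+1)/2`. -/
theorem dichotomy {V : Type*} [Fintype V] [DecidableEq V] {l n r c : ℕ} {w : V → V → ℤ}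
    (hn : 10000 ≤ n) (hl : 2 * l ≤ n) (hr : r < n)
    (hE : Ex l ((n.choose 2 + r : ℕ) : ℤ) w (c : ℤ))
    (hc : c ≤ n ^ 2 / 4 + min ((n + 1) / 2) (fl (l + 1) r)) :
    ∃ K T : Finset V, KT w K T ∧
      ((K.card = n ∧ n ^ 2 / 4 ≤ c ∧
          Ex (l + 1) (r : ℤ) (fun i j => w i j - Jm K i j) ((c - n ^ 2 / 4 : ℕ) : ℤ)) ∨
        (K.card = n + 1 ∧ n ^ 2 / 4 + (n + 1) / 2 ≤ c ∧
          ∀ S, crs (fun i j => w i j - Jm K i j) S Sᶜ ≤
            ((c - (n ^ 2 / 4 + (n + 1) / 2) : ℕ) : ℤ))) := by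
  obtain ⟨x, hx1, hx2, hx3⟩ := num_fl (l + 1) n r hn hr
  have hE' : Ex l (((n.choose 2 + r : ℕ) : ℤ)) w
      ((n ^ 2 / 4 + min ((n + 1) / 2) (fl (l + 1) r) : ℕ) : ℤ) :=
    ⟨hE.sym, hE.marked, hE.tot, fun S => (hE.le S).trans (by exact_mod_cast hc)⟩
  obtain ⟨K, T, hKT, hK, -⟩ := tri hx1 hx2 hl hr hx3 hE'
  obtain ⟨h1, h2⟩ := RecF1_cut hE.sym hKT hE.le
  refine ⟨K, T, hKT, ?_⟩
  rcases hK with hK | hK
  · left
    rw [hK] at h1 h2
    refine ⟨hK, h1, sym_sub hE.sym (Jm_sym K), Mk_sub hE.marked K, ?_, h2⟩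
    rw [inn_sub, hE.tot, inn_Jm, Finset.inter_univ, hK]
    have := RecF1_choose n
    push_cast
    linarith
  · right
    rw [hK, RecF1_quarter_succ] at h1 h2
    exact ⟨hK, h1, h2⟩

end Pool.Agent.MP_710317_co.Rec
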