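import Pool.Agent.MP_710317_co.Rec.Basic

namespace Pool.Agent.MP_710317_co.Rec

open Finset Pool.Agent.MP_710317_co

variable {V : Type*} [DecidableEq V]

/-- [RQ-SPLIT]  Subtracting a complete graph: bookkeeping lemmas. -/
theorem Jm_sym (K : Finset V) : Sym (Jm K) := by
  refine ⟨fun i j => ?_, fun i => ?_⟩
  · unfold Jm
    refine if_congr ?_ rfl rfl
    constructor
    · rintro ⟨h1, h2, h3⟩; exact ⟨h1.symm, h3, h2⟩
    · rintro ⟨h1, h2, h3⟩; exact ⟨h1.symm, h3, h2⟩
  · unfold Jm
    exact if_neg (fun h => h.1 rfl)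

theorem inn_Jm (K S : Finset V) :
    inn (Jm K) S = ((K ∩ S).card : ℤ) * ((K ∩ S).card - 1) := by
  unfold inn
  have h1 : ∀ i ∈ S, ∑ j ∈ S, Jm K i j = if i ∈ K then ((K ∩ S).card : ℤ) - 1 else 0 := by
    intro i hi
    by_cases hiK : i ∈ K
    · rw [if_pos hiK]
      have h2 : ∑ j ∈ S, Jm K i j = ∑ j ∈ S, if j ∈ (K ∩ S).erase i then (1 : ℤ) else 0 := by
        refine Finset.sum_congr rfl (fun j hj => ?_)
        unfold Jm
        refine if_congr ?_ rfl rfl
        rw [Finset.mem_erase, Finset.mem_inter]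
        constructor
        · rintro ⟨a, _, b⟩; exact ⟨a.symm, b, hj⟩
        · rintro ⟨a, b, _⟩; exact ⟨a.symm, hiK, b⟩
      rw [h2, Finset.sum_boole]
      have h3 : S.filter (fun j => j ∈ (K ∩ S).erase i) = (K ∩ S).erase i := by
        ext j
        rw [Finset.mem_filter]
        constructor
        · exact fun h => h.2
        · exact fun h => ⟨(Finset.mem_inter.1 (Finset.mem_of_mem_erase h)).2, h⟩
      have hmem : i ∈ K ∩ S := Finset.mem_inter.2 ⟨hiK, hi⟩
      have hpos : 0 < (K ∩ S).card := Finset.card_pos.2 ⟨i, hmem⟩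
      rw [h3, Finset.card_erase_of_mem hmem]
      omega
    · rw [if_neg hiK]
      refine Finset.sum_eq_zero (fun j _ => ?_)
      unfold Jm
      exact if_neg (fun h => hiK h.2.1)
  rw [Finset.sum_congr rfl h1, ← Finset.sum_filter, Finset.sum_const, nsmul_eq_mul]
  have h4 : S.filter (fun i => i ∈ K) = K ∩ S := by
    ext i
    rw [Finset.mem_filter, Finset.mem_inter, and_comm]
  rw [h4]

theorem crs_Jm [Fintype V] (K S : Finset V) :
    crs (Jm K) S Sᶜ = ((K ∩ S).card : ℤ) * ((K \ S).card : ℤ) := by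
  unfold crs
  have h1 : ∀ i ∈ S, ∑ j ∈ Sᶜ, Jm K i j = if i ∈ K then ((K \ S).card : ℤ) else 0 := by
    intro i hi
    by_cases hiK : i ∈ K
    · rw [if_pos hiK]
      have h2 : ∑ j ∈ Sᶜ, Jm K i j = ∑ j ∈ Sᶜ, if j ∈ K then (1 : ℤ) else 0 := by
        refine Finset.sum_congr rfl (fun j hj => ?_)
        unfold Jm
        refine if_congr ?_ rfl rfl
        constructor
        · rintro ⟨_, _, b⟩; exact b
        · intro b
          refine ⟨?_, hiK, b⟩
          rintro rfl
          exact (Finset.mem_compl.1 hj) hi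
      rw [h2, Finset.sum_boole]
      have h3 : Sᶜ.filter (fun j => j ∈ K) = K \ S := by
        ext j
        rw [Finset.mem_filter, Finset.mem_sdiff, Finset.mem_compl, and_comm]
      rw [h3]
    · rw [if_neg hiK]
      refine Finset.sum_eq_zero (fun j _ => ?_)
      unfold Jm
      exact if_neg (fun h => hiK h.2.1)
  rw [Finset.sum_congr rfl h1, ← Finset.sum_filter, Finset.sum_const, nsmul_eq_mul]
  have h4 : S.filter (fun i => i ∈ K) = K ∩ S := by
    ext i
    rw [Finset.mem_filter, Finset.mem_inter, and_comm]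
  rw [h4]

theorem inn_sub (w u : V → V → ℤ) (S : Finset V) :
    inn (fun i j => w i j - u i j) S = inn w S - inn u S := by
  unfold inn
  rw [← Finset.sum_sub_distrib]
  exact Finset.sum_congr rfl (fun i _ => Finset.sum_sub_distrib _ _)

theorem crs_sub (w u : V → V → ℤ) (S T : Finset V) :
    crs (fun i j => w i j - u i j) S T = crs w S T - crs u S T := by
  unfold crs
  rw [← Finset.sum_sub_distrib]
  exact Finset.sum_congr rfl (fun i _ => Finset.sum_sub_distrib _ _)

theorem sym_sub {w u : V → V → ℤ} (hw : Sym w) (hu : Sym u) : Sym (fun i j => w i j - u i j) := by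
  refine ⟨fun i j => ?_, fun i => ?_⟩
  · show w i j - u i j = w j i - u j i
    rw [hw.symm, hu.symm]
  · show w i i - u i i = 0
    rw [hw.diag, hu.diag, sub_zero]

/-- The excess over one more complete graph.  Proof: same `G`, marks `Fin.snoc K K'` (or
`Fin.cons`). -/
theorem Mk_sub {l : ℕ} {w : V → V → ℤ} (hw : Mk l w) (K : Finset V) :
    Mk (l + 1) (fun i j => w i j - Jm K i j) := by
  obtain ⟨G, K', h⟩ := hw
  refine ⟨G, Fin.cons K K', fun i j hij => ?_⟩
  show w i j - Jm K i j = _
  rw [h i j hij, Finset.card_filter, Finset.card_filter, Fin.sum_univ_succ]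
  have h1 : Jm K i j = if (i ∈ K ∧ j ∈ K) then 1 else 0 := by
    unfold Jm
    refine if_congr ?_ rfl rfl
    exact ⟨fun h => h.2, fun h => ⟨hij, h⟩⟩
  rw [h1]
  simp only [Fin.cons_zero, Fin.cons_succ]
  push_cast
  ring

end Pool.Agent.MP_710317_co.Rec
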