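import Pool.Agent.MP_710317_co.Rec.Gen
import Pool.Agent.MP_710317_co.Rec.Pair

namespace Pool.Agent.MP_710317_co.Rec

open Finset Pool.Agent.MP_710317_co

variable {V : Type*} [Fintype V] [DecidableEq V]

/-- [RQ-INDEP]  Proof.  `gen_lemma` with `ι = {u // u ∈ I}`, `g u = w u`, `X = Iᶜ`: every `u ∈ I` has an
`x` with `w u x ≠ 0`, and `x ∉ I` by `h0`.  So there is `e` with
`2 |I| ≤ -∑_{x,y∈X} w e e + 2 ∑_{u∈I} |∑_{x∈X} w u x e x|`.  Redefine `e` on `I`: `e' u = -1` if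
`0 ≤ ∑_{x∈X} w u x e x`, else `1`.  Then `en w e' = -∑_{x,y∈X} w e e + 2 ∑_{u∈I} |∑_{x∈X} w u x e x|`
(the `I`-`I` terms vanish) `≥ 2 |I|`, and `en w e' ≤ 2 s`. -/
theorem indep_bound {w : V → V → ℤ} (hw : Sym w) {s : ℤ} (hs : Sb w s) (I : Finset V)
    (h0 : ∀ u ∈ I, ∀ v ∈ I, w u v = 0) (h1 : ∀ u ∈ I, ∃ x, w u x ≠ 0) :
    (I.card : ℤ) ≤ s := by
  classical
  obtain ⟨e, he, hX⟩ := gen_lemma hw (ι := {u // u ∈ I}) (fun u x => w u x) Iᶜ
  have hfull : (univ.filter fun u : {u // u ∈ I} => ∃ x ∈ Iᶜ, w u x ≠ 0) = univ := by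
    rw [Finset.filter_eq_self]
    intro u _
    obtain ⟨x, hx⟩ := h1 u u.2
    exact ⟨x, Finset.mem_compl.2 (fun hxI => hx (h0 u u.2 x hxI)), hx⟩
  rw [hfull, Finset.card_univ, Fintype.card_coe] at hX
  set t : V → ℤ := fun u => ∑ x ∈ Iᶜ, w u x * e x with ht
  have hsum : ∑ u : {u // u ∈ I}, |∑ x ∈ Iᶜ, w u x * e x| = ∑ u ∈ I, |t u| :=
    Finset.sum_coe_sort I (fun u => |t u|)
  rw [hsum] at hX
  let e' : V → ℤ := fun i => if i ∈ I then (if 0 ≤ t i then -1 else 1) else e i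
  have he'I : ∀ i ∈ I, e' i * t i = -|t i| := by
    intro i hi
    show (if i ∈ I then (if 0 ≤ t i then -1 else 1) else e i) * t i = -|t i|
    rw [if_pos hi]
    split_ifs with h
    · rw [abs_of_nonneg h]; ring
    · rw [abs_of_neg (not_le.1 h)]; ring
  have he'X : ∀ i ∈ Iᶜ, e' i = e i := fun i hi => if_neg (Finset.mem_compl.1 hi)
  have he' : IsSign e' := by
    intro i
    show (if i ∈ I then (if 0 ≤ t i then (-1 : ℤ) else 1) else e i) = 1 ∨
      (if i ∈ I then (if 0 ≤ t i then (-1 : ℤ) else 1) else e i) = -1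
    split_ifs
    · exact Or.inr rfl
    · exact Or.inl rfl
    · exact he i
  have hen : en w e' = -(∑ x ∈ Iᶜ, ∑ y ∈ Iᶜ, w x y * e x * e y) + 2 * ∑ u ∈ I, |t u| := by
    unfold en
    have a1 : ∑ i ∈ I, ∑ j, w i j * e' i * e' j = -∑ u ∈ I, |t u| := by
      rw [← Finset.sum_neg_distrib]
      refine Finset.sum_congr rfl (fun i hi => ?_)
      rw [← Finset.sum_add_sum_compl I, ← he'I i hi]
      have b1 : ∑ j ∈ I, w i j * e' i * e' j = 0 :=
        Finset.sum_eq_zero (fun j hj => by rw [h0 i hi j hj]; ring)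
      rw [b1, zero_add, ht, Finset.mul_sum]
      refine Finset.sum_congr rfl (fun j hj => ?_)
      rw [he'X j hj]; ring
    have a2 : ∑ i ∈ Iᶜ, ∑ j, w i j * e' i * e' j =
        -∑ u ∈ I, |t u| + ∑ x ∈ Iᶜ, ∑ y ∈ Iᶜ, w x y * e x * e y := by
      have b1 : ∀ i ∈ Iᶜ, ∑ j, w i j * e' i * e' j =
          ∑ j ∈ I, w i j * e i * e' j + ∑ j ∈ Iᶜ, w i j * e i * e j := by
        intro i hi
        rw [← Finset.sum_add_sum_compl I, he'X i hi]
        congr 1
        exact Finset.sum_congr rfl (fun j hj => by rw [he'X j hj])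
      rw [Finset.sum_congr rfl b1, Finset.sum_add_distrib, Finset.sum_comm,
        ← Finset.sum_neg_distrib]
      congr 1
      refine Finset.sum_congr rfl (fun i hi => ?_)
      rw [← he'I i hi, ht, Finset.mul_sum]
      refine Finset.sum_congr rfl (fun j hj => ?_)
      rw [hw.symm j i]; ring
    rw [← Finset.sum_add_sum_compl I, a1, a2]
    ring
  have h2 := hs e' he'
  rw [hen] at h2
  linarith

end Pool.Agent.MP_710317_co.Rec
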