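import Pool.Agent.MP_710317_co.Rec.Tri1

namespace Pool.Agent.MP_710317_co.Rec

open Finset Pool.Agent.MP_710317_co

variable {V : Type*} [Fintype V] [DecidableEq V]

omit [Fintype V] [DecidableEq V] in
theorem tri_A (m : ℕ) : 2 * (m ^ 2 / 4) = m.choose 2 + m / 2 := by
  rcases Nat.even_or_odd' m with ⟨a, rfl | rfl⟩
  · have h1 : (2 * a) ^ 2 / 4 = a ^ 2 := by
      have : (2 * a) ^ 2 = a ^ 2 * 4 := by ring
      rw [this, Nat.mul_div_cancel _ (by norm_num)]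
    have h2 : (2 * a).choose 2 + a = 2 * a ^ 2 := by
      rw [Nat.choose_two_right]
      rcases Nat.eq_zero_or_pos a with rfl | ha
      · simp
      · have h3 : 2 * a * (2 * a - 1) / 2 = a * (2 * a - 1) := by
          rw [mul_assoc, Nat.mul_div_cancel_left _ (by norm_num)]
        rw [h3]
        obtain ⟨b, rfl⟩ : ∃ b, a = b + 1 := ⟨a - 1, by omega⟩
        have h4 : 2 * (b + 1) - 1 = 2 * b + 1 := by omega
        rw [h4]
        ring
    omega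
  · have h1 : (2 * a + 1) ^ 2 / 4 = a ^ 2 + a := by
      have : (2 * a + 1) ^ 2 = (a ^ 2 + a) * 4 + 1 := by ring
      rw [this]
      omega
    have h2 : (2 * a + 1).choose 2 = 2 * a ^ 2 + a := by
      rw [Nat.choose_two_right, Nat.add_sub_cancel]
      have : (2 * a + 1) * (2 * a) = (2 * a ^ 2 + a) * 2 := by ring
      rw [this, Nat.mul_div_cancel _ (by norm_num)]
    omega

omit [Fintype V] [DecidableEq V] in
theorem tri_B (m : ℕ) : m ^ 2 / 4 + (m + 1) / 2 = (m + 1) ^ 2 / 4 := by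
  have h1 := tri_A m
  have h2 := tri_A (m + 1)
  have h3 : (m + 1).choose 2 = m + m.choose 2 := by
    rw [Nat.choose_succ_succ' m 1, Nat.choose_one_right]
  omega

omit [Fintype V] [DecidableEq V] in
theorem tri_C (m : ℕ) : ((m / 2 : ℕ) : ℤ) * ((m : ℤ) - ((m / 2 : ℕ) : ℤ)) = ((m ^ 2 / 4 : ℕ) : ℤ) := by
  rcases Nat.even_or_odd' m with ⟨a, rfl | rfl⟩
  · have h1 : (2 * a) ^ 2 / 4 = a ^ 2 := by
      have : (2 * a) ^ 2 = a ^ 2 * 4 := by ring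
      rw [this, Nat.mul_div_cancel _ (by norm_num)]
    have h2 : 2 * a / 2 = a := by omega
    rw [h1, h2]
    push_cast
    ring
  · have h1 : (2 * a + 1) ^ 2 / 4 = a ^ 2 + a := by
      have : (2 * a + 1) ^ 2 = (a ^ 2 + a) * 4 + 1 := by ring
      rw [this]
      omega
    have h2 : (2 * a + 1) / 2 = a := by omega
    rw [h1, h2]
    push_cast
    ring

omit [Fintype V] [DecidableEq V] in
theorem tri_D (m : ℕ) : (m : ℤ) * ((m : ℤ) - 1) = 2 * ((m.choose 2 : ℕ) : ℤ) := by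
  have h1 := tri_A m
  have h2 := tri_C m
  have h1' : (2 : ℤ) * ((m ^ 2 / 4 : ℕ) : ℤ) = ((m.choose 2 : ℕ) : ℤ) + ((m / 2 : ℕ) : ℤ) := by
    exact_mod_cast h1
  rcases Nat.even_or_odd' m with ⟨a, ha | ha⟩
  · have h3 : m / 2 = a := by omega
    rw [h3] at h1' h2
    have h4 : (m : ℤ) = 2 * a := by exact_mod_cast ha
    rw [h4] at h2 ⊢
    linarith
  · have h3 : m / 2 = a := by omega
    rw [h3] at h1' h2
    have h4 : (m : ℤ) = 2 * a + 1 := by exact_mod_cast ha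
    rw [h4] at h2 ⊢
    linarith

/-- [RQ-TRI]  The clique of the structure theorem has `n` or `n + 1` vertices.
Proof.  `U = n²/4 + min ((n+1)/2) f`.  `Sb w (2 U - C(n,2) - r)` (`Sb_of_le`), and
`2 (n²/4) - C(n,2) = n/2`, `2 min .. ≤ 2 f = r + x`, so `Sb w (n/2 + x)` (`Sb` is monotone):
`exists_KT` gives `K, T`, `k = |K|`, `n ≤ k + 14 x + 9`.
By `extend` with `a = k/2` (`a (k - a) = k²/4`), every cut of `R = w - Jm K` is at most `U - k²/4`: this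
is the last claim.  `S = ∅`: `k²/4 ≤ U ≤ n²/4 + (n+1)/2 = (n+1)²/4 < (n+2)²/4`, so `k ≤ n + 1`.
Suppose `k ≤ n - 1`, `t = n - k`, `1 ≤ t ≤ 14 x + 9`.  `inn R univ = 2 W'`,
`2 W' = n (n-1) + 2 r - k (k-1) = 2 r + 2 t n - t (t+1)`.  `Sb R y` with `y = 2 (U - k²/4) - W'`
(`Sb_of_le`), `edwards`: `0 ≤ y`, `W' ≤ y (2 y + 1)`.  `y ≤ n/2 + r + x - r ... `: precisely
`y = (2 (n²/4) - C(n,2)) - (2 (k²/4) - C(k,2)) + 2 min .. - r ≤ n/2 - k/2 + x`, so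
`2 y ≤ t + 1 + 2 x` and `2 W' ≤ 2 y (2 y + 1) ≤ (t + 1 + 2 x) (t + 2 + 2 x)`.  But
`(t+1+2x)(t+2+2x) + t(t+1) < 2 r + 2 t n`: with `e = t - 1`, `z = 2 x` the left side is
`(z+2)(z+3) + 2 + e (2 z + 8) + 2 e²`, `(z+2)(z+3) + 2 < 2 r + 2 n` by `hN`, and
`2 z + 8 + 2 e ≤ 2 n` as `2 x + 4 + t - 1 ≤ 16 x + 12 ≤ n`. -/
theorem tri {l n r f x : ℕ} {w : V → V → ℤ} (hf : 2 * f = r + x) (hx : 40 * x + 40 ≤ n)
    (hl : 2 * l ≤ n) (hr : r < n) (hN : (2 * x + 2) * (2 * x + 3) + 2 < 2 * r + 2 * n)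
    (hE : Ex l (((n.choose 2 + r : ℕ) : ℤ)) w ((n ^ 2 / 4 + min ((n + 1) / 2) f : ℕ) : ℤ)) :
    ∃ K T : Finset V, KT w K T ∧ (K.card = n ∨ K.card = n + 1) ∧
      ∀ S, crs (fun i j => w i j - Jm K i j) S Sᶜ + ((K.card ^ 2 / 4 : ℕ) : ℤ) ≤
        ((n ^ 2 / 4 + min ((n + 1) / 2) f : ℕ) : ℤ) := by
  set U : ℕ := n ^ 2 / 4 + min ((n + 1) / 2) f with hU
  have hmin1 : min ((n + 1) / 2) f ≤ f := min_le_right _ _
  have hmin2 : min ((n + 1) / 2) f ≤ (n + 1) / 2 := min_le_left _ _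
  have hAn := tri_A n
  have hS : Sb w (((n / 2 : ℕ) : ℤ) + (x : ℤ)) := by
    intro e he
    have h1 := Sb_of_le hE.sym hE.tot hE.le e he
    have h2 : 2 * (U : ℤ) - ((n.choose 2 + r : ℕ) : ℤ) ≤ ((n / 2 : ℕ) : ℤ) + (x : ℤ) := by
      push_cast
      omega
    linarith
  obtain ⟨K, T, hKT, hk⟩ := exists_KT hE.sym hE.marked n r x hx hl (by
    rw [hE.tot]; push_cast; ring) hS
  set k := K.card with hkdef
  have hle : ∀ S, crs (fun i j => w i j - Jm K i j) S Sᶜ + ((k ^ 2 / 4 : ℕ) : ℤ) ≤ (U : ℤ) := by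
    intro S
    obtain ⟨S', h1, -, -⟩ := extend hE.sym hKT (k / 2) le_rfl (by omega) S
    have h2 := hE.le S'
    rw [h1, tri_C] at h2
    exact h2
  have hk2 : k ^ 2 / 4 ≤ U := by
    have h1 := hle ∅
    have h2 : crs (fun i j => w i j - Jm K i j) ∅ (∅ : Finset V)ᶜ = 0 := by
      unfold crs
      simp
    rw [h2, zero_add] at h1
    exact_mod_cast h1
  have hkn : k ≤ n + 1 := by
    by_contra hcon
    have h1 : n + 2 ≤ k := by omega
    have h2 : (n + 2) ^ 2 / 4 ≤ k ^ 2 / 4 := Nat.div_le_div_right (Nat.pow_le_pow_left h1 2)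
    have h3 := tri_B n
    have h4 := tri_B (n + 1)
    have h5 : n + 1 + 1 = n + 2 := rfl
    rw [h5] at h4
    omega
  refine ⟨K, T, hKT, ?_, hle⟩
  by_contra hcon
  have hkn' : k + 1 ≤ n := by omega
  have hAk := tri_A k
  have hR : Sym (fun i j => w i j - Jm K i j) := sym_sub hE.sym (Jm_sym K)
  have hDk := tri_D k
  have hDn := tri_D n
  have hW' : inn (fun i j => w i j - Jm K i j) univ =
      2 * (((n.choose 2 : ℕ) : ℤ) + r - ((k.choose 2 : ℕ) : ℤ)) := by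
    rw [inn_sub, inn_Jm, Finset.inter_univ, hE.tot, ← hkdef, hDk]
    push_cast
    ring
  have hSR := Sb_of_le hR hW' (c := (U : ℤ) - ((k ^ 2 / 4 : ℕ) : ℤ)) (fun S => by
    have := hle S
    linarith)
  obtain ⟨hy0, hy1⟩ := edwards hR hSR hW'
  set y : ℤ := 2 * ((U : ℤ) - ((k ^ 2 / 4 : ℕ) : ℤ)) -
    (((n.choose 2 : ℕ) : ℤ) + r - ((k.choose 2 : ℕ) : ℤ)) with hy
  obtain ⟨t, ht⟩ : ∃ t : ℕ, n = k + t + 1 := ⟨n - k - 1, by omega⟩
  have hy2 : 2 * y ≤ (t : ℤ) + 2 + 2 * x := by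
    rw [hy]
    omega
  have htx : t ≤ 14 * x + 8 := by omega
  have hzt : (0 : ℤ) ≤ t := Int.natCast_nonneg t
  have hzx : (0 : ℤ) ≤ x := Int.natCast_nonneg x
  have hnk : (k : ℤ) = n - t - 1 := by omega
  have hy3 : 2 * y * (2 * y + 1) ≤ ((t : ℤ) + 2 + 2 * x) * ((t : ℤ) + 3 + 2 * x) := by
    apply mul_le_mul hy2 (by linarith) (by linarith) (by linarith)
  have h2W : 2 * (((n.choose 2 : ℕ) : ℤ) + r - ((k.choose 2 : ℕ) : ℤ)) =
      2 * r + 2 * (t + 1) * n - (t + 1) * (t + 2) := by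
    have : 2 * (((n.choose 2 : ℕ) : ℤ) + r - ((k.choose 2 : ℕ) : ℤ)) =
        (n : ℤ) * (n - 1) + 2 * r - (k : ℤ) * (k - 1) := by linarith
    rw [this, hnk]
    ring
  have hN' : ((2 : ℤ) * x + 2) * (2 * x + 3) + 2 < 2 * r + 2 * n := by exact_mod_cast hN
  have hn' : (40 : ℤ) * x + 40 ≤ n := by exact_mod_cast hx
  have htx' : (t : ℤ) ≤ 14 * x + 8 := by exact_mod_cast htx
  have hfin : (t : ℤ) * (2 * x * 2 + 8 + 2 * t) ≤ t * (2 * n) :=
    mul_le_mul_of_nonneg_left (by linarith) hzt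
  nlinarith

end Pool.Agent.MP_710317_co.Rec
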