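import Pool.Agent.MP_710317_co.Rec.KT

namespace Pool.Agent.MP_710317_co.Rec

open Finset Pool.Agent.MP_710317_co

variable {V : Type*} [Fintype V] [DecidableEq V]

/-- [RQ-EXT]  Cuts of the remainder extend to balanced cuts.  `R = w - Jm K`.
Proof.  `R t v = 0` for `t ∈ T` (from `rows`; `w t t = 0`).  `adjust` gives `S'`, then `inn_sub`, `crs_sub`,
`inn_Jm`, `crs_Jm` (`K ∩ S'ᶜ = K \ S'`, `|K \ S'| = |K| - a`). -/
theorem extend {w : V → V → ℤ} (hw : Sym w) {K T : Finset V} (hKT : KT w K T) (a : ℕ)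
    (ha : K.card / 2 ≤ a) (ha' : a ≤ (K.card + 1) / 2) (S : Finset V) :
    ∃ S' : Finset V,
      crs w S' S'ᶜ = crs (fun i j => w i j - Jm K i j) S Sᶜ + (a : ℤ) * ((K.card : ℤ) - a) ∧
      inn w S' = inn (fun i j => w i j - Jm K i j) S + (a : ℤ) * (a - 1) ∧
      inn w S'ᶜ = inn (fun i j => w i j - Jm K i j) Sᶜ +
        ((K.card : ℤ) - a) * ((K.card : ℤ) - a - 1) := by
  have h0 : ∀ t ∈ T, ∀ v, w t v - Jm K t v = 0 := by
    intro t ht v
    by_cases hv : v = t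
    · subst hv
      rw [hw.diag, (Jm_sym K).diag, sub_zero]
    · rw [hKT.rows t ht v hv]
      unfold Jm
      have htK := hKT.sub ht
      by_cases hvK : v ∈ K
      · rw [if_pos hvK, if_pos ⟨fun h => hv h.symm, htK, hvK⟩, sub_self]
      · rw [if_neg hvK, if_neg (fun h => hvK h.2.2), sub_self]
  obtain ⟨S', h1, h2, h3, h4⟩ := adjust (sym_sub hw (Jm_sym K)) K T hKT.sub hKT.half h0 a ha ha' S
  have hc : ((K \ S').card : ℤ) = (K.card : ℤ) - a := by
    have h5 := Finset.card_sdiff_add_card_inter K S'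
    rw [h1] at h5
    omega
  have hc' : K ∩ S'ᶜ = K \ S' := by
    ext v
    simp
  refine ⟨S', ?_, ?_, ?_⟩
  · rw [← h2, crs_sub, crs_Jm, h1, hc]
    ring
  · rw [← h3, inn_sub, inn_Jm, h1]
    ring
  · rw [← h4, inn_sub, inn_Jm, hc', hc]
    ring

end Pool.Agent.MP_710317_co.Rec
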