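import Pool.Agent.MP_710317_co.Rec.Clq
import Pool.Agent.MP_710317_co.Rec.Cliq

namespace Pool.Agent.MP_710317_co.Rec

open Finset Pool.Agent.MP_710317_co

variable {V : Type*} [Fintype V] [DecidableEq V]

open Classical in
/-- [RQ-TWIN]  Proof.  `C = {q // q ∈ Q}`, `ω q q' = 0` if `q = q'`, `2` if some `u ∉ Q` has
`w u q ≠ w u q'`, else `1`.  For an involution `τ` of `C`, extended by the identity to `V`,
`clique_pairs` gives `∑ ω q (τ q) = #{τ q ≠ q} + #{split} ≤ 2 s`.  `max_pairing` gives `T0 ⊆ C` with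
`ω = 1` on pairs and `2 (|Q|/2) + |Q| - |T0| ≤ 2 s`; `T = T0` as a subset of `Q`;
`2 (|Q|/2) ≥ |Q| - 1`.  For `t, t' ∈ T`, `u ≠ t, t'`: if `u ∈ Q` both entries are `1` (`hQ`), if
`u ∉ Q` they agree as `ω t t' = 1`. -/
theorem twins {w : V → V → ℤ} (hw : Sym w) {s : ℤ} (hs : Sb w s) (Q : Finset V)
    (hQ : ∀ a ∈ Q, ∀ b ∈ Q, a ≠ b → w a b = 1) :
    ∃ T : Finset V, T ⊆ Q ∧ (∀ t ∈ T, ∀ t' ∈ T, ∀ u, u ≠ t → u ≠ t' → w u t = w u t') ∧
      2 * (Q.card : ℤ) ≤ (T.card : ℤ) + 2 * s + 1 := by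
  let ω : {q // q ∈ Q} → {q // q ∈ Q} → ℤ := fun q q' =>
    if q = q' then 0 else if ∃ u, u ∉ Q ∧ w u q ≠ w u q' then 2 else 1
  have hω : ∀ q q', ω q q' =
    if q = q' then 0 else if ∃ u, u ∉ Q ∧ w u q ≠ w u q' then 2 else 1 := fun _ _ => rfl
  have hsym : ∀ i j, ω i j = ω j i := by
    intro i j
    rw [hω, hω]
    have e1 : (i = j) = (j = i) := propext eq_comm
    have e2 : (∃ u, u ∉ Q ∧ w u i ≠ w u j) = (∃ u, u ∉ Q ∧ w u j ≠ w u i) :=
      propext (exists_congr fun u => and_congr_right fun _ => ne_comm)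
    simp only [e1, e2]
  have hdiag : ∀ i, ω i i = 0 := fun i => by rw [hω, if_pos rfl]
  have h1 : ∀ i j, i ≠ j → 1 ≤ ω i j := by
    intro i j hij
    rw [hω, if_neg hij]
    split_ifs <;> norm_num
  have h : ∀ τ : {q // q ∈ Q} → {q // q ∈ Q}, (∀ i, τ (τ i) = i) → ∑ i, ω i (τ i) ≤ 2 * s := by
    intro τ hτ
    let τ' : V → V := fun v => if hv : v ∈ Q then (τ ⟨v, hv⟩ : V) else v
    have hτ'in : ∀ (v : V) (hv : v ∈ Q), τ' v = (τ ⟨v, hv⟩ : V) := fun v hv => dif_pos hv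
    have hτ'out : ∀ v : V, v ∉ Q → τ' v = v := fun v hv => dif_neg hv
    have hmem : ∀ i ∈ Q, τ' i ∈ Q := fun i hi => by
      rw [hτ'in i hi]; exact (τ ⟨i, hi⟩).2
    have hinv : ∀ i, τ' (τ' i) = i := by
      intro i
      by_cases hi : i ∈ Q
      · rw [hτ'in i hi, hτ'in _ (τ ⟨i, hi⟩).2]
        have : (⟨(τ ⟨i, hi⟩ : V), (τ ⟨i, hi⟩).2⟩ : {q // q ∈ Q}) = τ ⟨i, hi⟩ := rfl
        rw [this, hτ]
      · rw [hτ'out i hi, hτ'out i hi]
    have key := clique_pairs hw hs Q hQ τ' hinv hmem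
    have hterm : ∀ i : {q // q ∈ Q}, ω i (τ i) =
        (if τ' (i : V) ≠ i then (1 : ℤ) else 0) +
        (if ∃ u, u ∉ Q ∧ w u i ≠ w u (τ' (i : V)) then (1 : ℤ) else 0) := by
      intro i
      have hi : τ' (i : V) = (τ i : V) := hτ'in i i.2
      rw [hω, hi]
      by_cases hf : i = τ i
      · have hf' : (τ i : V) = i := by rw [← hf]
        rw [if_pos hf, hf']
        simp
      · have hf' : (τ i : V) ≠ i := fun h => hf (Subtype.ext h).symm
        rw [if_neg hf, if_pos hf']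
        by_cases hx : ∃ u, u ∉ Q ∧ w u i ≠ w u (τ i : V)
        · rw [if_pos hx, if_pos hx]; norm_num
        · rw [if_neg hx, if_neg hx]; norm_num
    have hsum : ∑ i : {q // q ∈ Q}, ω i (τ i) =
        ∑ i ∈ Q, ((if τ' i ≠ i then (1 : ℤ) else 0) +
          (if ∃ u, u ∉ Q ∧ w u i ≠ w u (τ' i) then (1 : ℤ) else 0)) := by
      rw [Finset.sum_congr rfl fun i _ => hterm i]
      exact Finset.sum_coe_sort Q (fun i => (if τ' i ≠ i then (1 : ℤ) else 0) +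
          (if ∃ u, u ∉ Q ∧ w u i ≠ w u (τ' i) then (1 : ℤ) else 0))
    rw [hsum, Finset.sum_add_distrib]
    rw [Finset.card_filter, Finset.card_filter] at key
    push_cast at key
    exact key
  obtain ⟨T0, hT1, hT2⟩ := max_pairing ω hsym hdiag h1 s h
  refine ⟨T0.map (Function.Embedding.subtype _), ?_, ?_, ?_⟩
  · intro x hx
    rw [Finset.mem_map] at hx
    obtain ⟨y, _, rfl⟩ := hx
    exact y.2
  · intro t ht t' ht' u hut hut'
    rw [Finset.mem_map] at ht ht'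
    obtain ⟨y, hy, rfl⟩ := ht
    obtain ⟨y', hy', rfl⟩ := ht'
    change w u (y : V) = w u (y' : V)
    change u ≠ (y : V) at hut
    change u ≠ (y' : V) at hut'
    by_cases hyy : y = y'
    · rw [hyy]
    · by_cases hu : u ∈ Q
      · rw [hQ u hu y y.2 hut, hQ u hu y' y'.2 hut']
      · have := hT1 y hy y' hy' hyy
        rw [hω, if_neg hyy] at this
        by_contra hne
        rw [if_pos ⟨u, hu, hne⟩] at this
        norm_num at this
  · rw [Finset.card_map]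
    rw [Fintype.card_coe] at hT2
    have : (Q.card : ℤ) - 1 ≤ 2 * ((Q.card / 2 : ℕ) : ℤ) := by omega
    linarith

theorem twin_core {w : V → V → ℤ} (hw : Sym w) {s W : ℤ} (hs : Sb w s)
    (hW : inn w univ = 2 * W) :
    ∃ (j : ℕ) (T : Finset V), (j : ℤ) ≤ s ∧ W ≤ (2 * (j : ℤ) + 1) * s ∧
      8 * (j : ℤ) ≤ (T.card : ℤ) + 6 * s + 1 ∧ (∀ a ∈ T, ∀ b ∈ T, a ≠ b → w a b = 1) ∧
      ∀ t ∈ T, ∀ t' ∈ T, ∀ u, u ≠ t → u ≠ t' → w u t = w u t' := by
  obtain ⟨j, Q, h1, h2, h3, h4⟩ := clique_lemma hw hs hW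
  obtain ⟨T, h5, h6, h7⟩ := twins hw hs Q h4
  exact ⟨j, T, h1, h2, by linarith, fun a ha b hb => h4 a (h5 ha) b (h5 hb), h6⟩

/-- Edwards' bound. -/
theorem edwards {w : V → V → ℤ} (hw : Sym w) {s W : ℤ} (hs : Sb w s)
    (hW : inn w univ = 2 * W) : 0 ≤ s ∧ W ≤ s * (2 * s + 1) := by
  obtain ⟨j, Q, h1, h2, -, -⟩ := clique_lemma hw hs hW
  have h0 : (0 : ℤ) ≤ j := Int.natCast_nonneg j
  refine ⟨by linarith, ?_⟩
  nlinarith

end Pool.Agent.MP_710317_co.Rec
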