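import Pool.Agent.MP_710317_co.Rec.Bridge
import Pool.Agent.MP_710317_co.Rec.Split

namespace Pool.Agent.MP_710317_co.Rec

open Finset Pool.Agent.MP_710317_co

section consU_aux
variable {V B : Type*} [Fintype V] [DecidableEq V] [Fintype B] [DecidableEq B]

/-- the matrix of a disjoint union of complete graphs -/
def cuW (β : V → B) (i j : V) : ℤ := if i ≠ j ∧ β i = β j then 1 else 0

/-- the blocks -/
def cuK (β : V → B) (t : B) : Finset V := univ.filter fun v => β v = t

omit [DecidableEq V] [Fintype B] in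
theorem cuK_mem (β : V → B) (t : B) (v : V) : v ∈ cuK β t ↔ β v = t := by
  unfold cuK
  rw [Finset.mem_filter]
  exact ⟨fun h => h.2, fun h => ⟨Finset.mem_univ _, h⟩⟩

/-- the graph -/
def cuG (β : V → B) : SimpleGraph V where
  Adj i j := i ≠ j ∧ β i = β j
  symm := ⟨fun _ _ h => ⟨h.1.symm, h.2.symm⟩⟩
  loopless := ⟨fun _ h => h.1 rfl⟩

theorem cuW_eq (β : V → B) (i j : V) : cuW β i j = ∑ t, Jm (cuK β t) i j := by
  unfold cuW Jm cuK
  by_cases hij : i = j
  · simp [hij]
  · by_cases hb : β i = β j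
    · rw [if_pos ⟨hij, hb⟩, Finset.sum_eq_single (β i)]
      · rw [if_pos]
        simp [hij, hb]
      · intro t _ ht
        rw [if_neg]
        rintro ⟨-, h1, -⟩
        exact ht (Finset.mem_filter.1 h1).2.symm
      · intro h
        exact absurd (Finset.mem_univ _) h
    · rw [if_neg (fun h => hb h.2)]
      symm
      apply Finset.sum_eq_zero
      intro t _
      rw [if_neg]
      rintro ⟨-, h1, h2⟩
      exact hb ((Finset.mem_filter.1 h1).2.trans (Finset.mem_filter.1 h2).2.symm)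

theorem cuW_inn (β : V → B) (S : Finset V) : inn (cuW β) S = ∑ t, inn (Jm (cuK β t)) S := by
  unfold inn
  simp only [cuW_eq]
  conv_rhs => rw [Finset.sum_comm]
  refine Finset.sum_congr rfl fun i _ => ?_
  rw [Finset.sum_comm]

theorem cuW_crs (β : V → B) (S T : Finset V) :
    crs (cuW β) S T = ∑ t, crs (Jm (cuK β t)) S T := by
  unfold crs
  simp only [cuW_eq]
  conv_rhs => rw [Finset.sum_comm]
  refine Finset.sum_congr rfl fun i _ => ?_
  rw [Finset.sum_comm]

theorem cuW_tot (β : V → B) : inn (cuW β) univ =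
    ∑ t, (((cuK β t).card.choose 2 : ℕ) : ℤ) * 2 := by
  rw [cuW_inn]
  refine Finset.sum_congr rfl fun t _ => ?_
  rw [inn_Jm, Finset.inter_univ]
  have h1 : ∀ n : ℕ, (n : ℤ) * ((n : ℤ) - 1) = ((n.choose 2 : ℕ) : ℤ) * 2 := by
    intro n
    induction n with
    | zero => simp
    | succ n ih =>
      have h2 : (n + 1).choose 2 = n + n.choose 2 := by
        rw [Nat.choose_succ_succ' n 1, Nat.choose_one_right]
      rw [h2]
      push_cast
      linarith
  exact h1 _

theorem cu_quarter (x y n : ℕ) (h : x + y = n) : x * y ≤ n ^ 2 / 4 := by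
  rw [Nat.le_div_iff_mul_le (by norm_num)]
  subst h
  zify
  nlinarith [sq_nonneg ((x : ℤ) - y)]

theorem cuW_le (β : V → B) (S : Finset V) :
    crs (cuW β) S Sᶜ ≤ ((∑ t, (cuK β t).card ^ 2 / 4 : ℕ) : ℤ) := by
  rw [cuW_crs]
  push_cast
  refine Finset.sum_le_sum fun t _ => ?_
  rw [crs_Jm]
  have h1 := cu_quarter (cuK β t ∩ S).card (cuK β t \ S).card (cuK β t).card
    (Finset.card_inter_add_card_sdiff _ _)
  exact_mod_cast h1

theorem cuW_Ex (l : ℕ) (β : V → B) :
    Ex l ((∑ t, (cuK β t).card.choose 2 : ℕ) : ℤ) (cuW β) ((∑ t, (cuK β t).card ^ 2 / 4 : ℕ) : ℤ) := by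
  refine ⟨⟨?_, ?_⟩, ?_, ?_, cuW_le β⟩
  · intro i j
    unfold cuW
    exact if_congr ⟨fun h => ⟨h.1.symm, h.2.symm⟩, fun h => ⟨h.1.symm, h.2.symm⟩⟩ rfl rfl
  · intro i
    unfold cuW
    simp
  · refine ⟨cuG β, fun _ => ∅, fun i j _ => ?_⟩
    unfold cuW ad cuG
    simp
  · rw [cuW_tot, ← Finset.sum_mul]
    push_cast
    ring

/-- the blocks of the construction -/
def cuβ (a b c : ℕ) : Fin a ⊕ (Fin b ⊕ (Fin c × Bool)) → Unit ⊕ (Unit ⊕ Fin c)
  | Sum.inl _ => Sum.inl ()
  | Sum.inr (Sum.inl _) => Sum.inr (Sum.inl ())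
  | Sum.inr (Sum.inr p) => Sum.inr (Sum.inr p.1)

theorem cuβ_a (a b c : ℕ) : (cuK (cuβ a b c) (Sum.inl ())).card = a := by
  have : cuK (cuβ a b c) (Sum.inl ()) = (univ : Finset (Fin a)).image Sum.inl := by
    ext v
    rcases v with v | v | v <;> simp [cuK_mem, cuβ]
  rw [this, Finset.card_image_of_injective _ Sum.inl_injective,
    Finset.card_univ, Fintype.card_fin]

theorem cuβ_b (a b c : ℕ) : (cuK (cuβ a b c) (Sum.inr (Sum.inl ()))).card = b := by
  have : cuK (cuβ a b c) (Sum.inr (Sum.inl ())) = (univ : Finset (Fin b)).image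
      (fun x => Sum.inr (Sum.inl x)) := by
    ext v
    rcases v with v | v | v <;> simp [cuK_mem, cuβ]
  rw [this, Finset.card_image_of_injective _ (fun x y h => by simpa using h),
    Finset.card_univ, Fintype.card_fin]

theorem cuβ_c (a b c : ℕ) (i : Fin c) :
    (cuK (cuβ a b c) (Sum.inr (Sum.inr i))).card = 2 := by
  have : cuK (cuβ a b c) (Sum.inr (Sum.inr i)) = (univ : Finset Bool).image
      (fun x => Sum.inr (Sum.inr (i, x))) := by
    ext v
    rcases v with v | v | ⟨v, x⟩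
    · simp [cuK_mem, cuβ]
    · simp [cuK_mem, cuβ]
    · cases x <;> simp [cuK_mem, cuβ, eq_comm]
  rw [this, Finset.card_image_of_injective _ (fun x y h => by simpa using h),
    Finset.card_univ, Fintype.card_bool]

end consU_aux

/-- [RQ-CONSU]  Three-block construction: `K_a ∪ K_b ∪ (c disjoint edges)`.
Proof.  On `V = Fin a ⊕ Fin b ⊕ Fin c × Bool` take the graph whose adjacency is same block and
different, all marks empty; equivalently the matrix
`w = Jm A + Jm B + (perfect matching)`.  Cuts: `x (a - x) + y (b - y) + z ≤ a²/4 + b²/4 + c`.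
(Use the `Jm` lemmas of `Split` if convenient, importing it.) -/
theorem consU (l a b c : ℕ) :
    a ^ 2 / 4 + b ^ 2 / 4 + c ∈ cutVals l (a.choose 2 + b.choose 2 + c) := by
  have h := cuW_Ex l (cuβ a b c)
  have h1 : (∑ t, (cuK (cuβ a b c) t).card.choose 2) = a.choose 2 + b.choose 2 + c := by
    rw [Fintype.sum_sum_type, Fintype.sum_sum_type]
    simp only [Finset.univ_unique, PUnit.default_eq_unit, Finset.sum_singleton, cuβ_a, cuβ_b, cuβ_c]
    simp [add_assoc]
  have h2 : (∑ t, (cuK (cuβ a b c) t).card ^ 2 / 4) = a ^ 2 / 4 + b ^ 2 / 4 + c := by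
    rw [Fintype.sum_sum_type, Fintype.sum_sum_type]
    simp only [Finset.univ_unique, PUnit.default_eq_unit, Finset.sum_singleton, cuβ_a, cuβ_b, cuβ_c]
    simp [add_assoc]
  rw [h1, h2] at h
  exact mem_cutVals h

end Pool.Agent.MP_710317_co.Rec
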