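import Pool.Agent.MP_710317_co.Rec.Bridge
import Pool.Agent.MP_710317_co.Rec.Twin
import Pool.Agent.MP_710317_co.Rec.FlipB
import Pool.Agent.MP_710317_co.Rec.Vals1

namespace Pool.Agent.MP_710317_co.Rec

open Finset Pool.Agent.MP_710317_co

/-- [RQ-FLB]  Basic properties of the three functions.
`cutVals_nonempty`: `consU` with `a = b = 0`.  `fl_spec`: `Nat.sInf_mem`, `of_mem_cutVals`.
`fl_le`: `Nat.sInf_le`, `mem_cutVals`.
`attained`: otherwise all cuts are `≤ fl - 1` (if `fl ≥ 1`; if `fl = 0` the cut of `∅` is `0 = fl`), and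
`fl_le` is contradicted.
`half_le`: `edwards` and `Sb_of_le`: `0 ≤ 2 c - r`.
`Dl_mem`: `0 ∈ lowVals`, bounded by `2 fl - r` (`attained`, `flip_bound`), `Nat.sSup_mem`.
`Bl_mem`: `highVals` contains `2 fl - r` (`flip_bound`), `Nat.sInf_mem`. -/
theorem cutVals_nonempty (l r : ℕ) : (cutVals l r).Nonempty := by
  have h := consU l 0 0 r
  simp only [Nat.choose_zero_succ, zero_add] at h
  exact ⟨_, h⟩

theorem fl_spec (l r : ℕ) : ∃ (N : ℕ) (w : Fin N → Fin N → ℤ), Ex l (r : ℤ) w (fl l r : ℤ) :=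
  of_mem_cutVals (Nat.sInf_mem (cutVals_nonempty l r))

theorem fl_le {V : Type*} [Fintype V] [DecidableEq V] {l r c : ℕ} {w : V → V → ℤ}
    (h : Ex l (r : ℤ) w (c : ℤ)) : fl l r ≤ c :=
  Nat.sInf_le (mem_cutVals h)

theorem attained {V : Type*} [Fintype V] [DecidableEq V] {l r : ℕ} {w : V → V → ℤ}
    (h : Ex l (r : ℤ) w (fl l r : ℤ)) : ∃ S, crs w S Sᶜ = fl l r := by
  by_contra hc
  push Not at hc
  rcases Nat.eq_zero_or_pos (fl l r) with h0 | h0
  · apply hc ∅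
    rw [h0]
    simp [crs]
  · have h1 : Ex l (r : ℤ) w ((fl l r - 1 : ℕ) : ℤ) := by
      refine ⟨h.sym, h.marked, h.tot, fun S => ?_⟩
      have h2 := h.le S
      have h3 := hc S
      have h4 : crs w S Sᶜ < (fl l r : ℤ) := lt_of_le_of_ne h2 h3
      push_cast [Nat.cast_sub h0]
      linarith
    have h2 := fl_le h1
    omega

theorem half_le (l r : ℕ) : r ≤ 2 * fl l r := by
  obtain ⟨N, w, h⟩ := fl_spec l r
  have h1 := (edwards h.sym (Sb_of_le h.sym h.tot h.le) h.tot).1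
  omega

theorem flip_fl {V : Type*} [Fintype V] [DecidableEq V] {l r : ℕ} {w : V → V → ℤ}
    (h : Ex l (r : ℤ) w (fl l r : ℤ)) (S : Finset V) (hS : crs w S Sᶜ = fl l r) :
    |inn w S - inn w Sᶜ| ≤ 2 * (2 * (fl l r : ℤ) - r) :=
  flip_bound h.sym h.tot h.le S hS

end Pool.Agent.MP_710317_co.Rec
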