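import Pool.Agent.MP_710317_co.Rec.Vals2

namespace Pool.Agent.MP_710317_co.Rec

open Finset Pool.Agent.MP_710317_co

/-- [RQ-FLB2]  See the docstring in `Vals2`. -/
theorem Vals3_low_bdd {l r d : ℕ} (h : d ∈ lowVals l r) : d ≤ 2 * fl l r - r := by
  obtain ⟨N, w, h1, h2⟩ := of_mem_lowVals h
  obtain ⟨S, hS⟩ := attained h1
  have h3 := h2 S hS
  have h4 := flip_fl h1 S hS
  have h5 := half_le l r
  have h6 : (d : ℤ) ≤ 2 * (fl l r : ℤ) - r := by linarith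
  omega

theorem Vals3_low_nonempty (l r : ℕ) : (lowVals l r).Nonempty := by
  obtain ⟨N, w, h⟩ := fl_spec l r
  refine ⟨0, mem_lowVals h fun S _ => ?_⟩
  simp

theorem Vals3_low_bddAbove (l r : ℕ) : BddAbove (lowVals l r) :=
  ⟨2 * fl l r - r, fun _ h => Vals3_low_bdd h⟩

theorem Dl_mem (l r : ℕ) : Dl l r ∈ lowVals l r :=
  Nat.sSup_mem (Vals3_low_nonempty l r) (Vals3_low_bddAbove l r)

theorem le_Dl {l r d : ℕ} (h : d ∈ lowVals l r) : d ≤ Dl l r :=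
  le_csSup (Vals3_low_bddAbove l r) h

theorem Dl_le (l r : ℕ) : Dl l r ≤ 2 * fl l r - r :=
  Vals3_low_bdd (Dl_mem l r)

theorem Vals3_high_mem (l r : ℕ) : 2 * fl l r - r ∈ highVals l r := by
  obtain ⟨N, w, h⟩ := fl_spec l r
  refine mem_highVals h fun S hS => ?_
  have h4 := flip_fl h S hS
  have h5 := half_le l r
  have h6 : ((2 * fl l r - r : ℕ) : ℤ) = 2 * (fl l r : ℤ) - r := by
    rw [Nat.cast_sub h5]
    push_cast
    ring
  rw [h6]
  exact h4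

theorem Bl_mem (l r : ℕ) : Bl l r ∈ highVals l r :=
  Nat.sInf_mem ⟨_, Vals3_high_mem l r⟩

theorem Bl_le {l r d : ℕ} (h : d ∈ highVals l r) : Bl l r ≤ d :=
  Nat.sInf_le h

theorem Bl_le' (l r : ℕ) : Bl l r ≤ 2 * fl l r - r :=
  Bl_le (Vals3_high_mem l r)

end Pool.Agent.MP_710317_co.Rec
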